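import Pool.Agent.Helper11.LT.P1

/-!
PROJECT LT, piece P3. Absolutely summable matrices: a two-sided ideal in the bounded ones. left: sum_ij |sum_k A_ik K_kj| <= sum_kj |K_kj| sum_i |A_ik| <= C nm K (only column sums of A), right: row sums of A.
-/

namespace Pool.Agent.Helper11.LT

open Finset Filter Topology Pool.Agent.Helper34.LT

/-- Inner sums of an absolutely summable family. -/
private theorem p3_inner {T : (ℕ × ℕ) × ℕ → ℂ} (hT : Summable fun x => ‖T x‖) :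
    Summable (fun p => ‖∑' k, T (p, k)‖) ∧ ∑' p, ‖∑' k, T (p, k)‖ ≤ ∑' x, ‖T x‖ := by
  have h1 : ∀ p, Summable fun k => ‖T (p, k)‖ := fun p => hT.prod_factor p
  have h2 : Summable fun p => ∑' k, ‖T (p, k)‖ := hT.prod
  have h3 : ∀ p, ‖∑' k, T (p, k)‖ ≤ ∑' k, ‖T (p, k)‖ := fun p => norm_tsum_le_tsum_norm (h1 p)
  have h4 : Summable (fun p => ‖∑' k, T (p, k)‖) :=
    Summable.of_nonneg_of_le (fun _ => norm_nonneg _) h3 h2
  refine ⟨h4, ?_⟩
  rw [hT.tsum_prod]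
  exact h4.tsum_le_tsum h3 h2

/-- Outer sums of nonnegative families. -/
private theorem p3_outer {G : (ℕ × ℕ) × ℕ → ℝ} {H : ℕ × ℕ → ℝ} (h0 : ∀ x, 0 ≤ G x)
    (h1 : ∀ p, Summable (fun i => G (p, i)) ∧ ∑' i, G (p, i) ≤ H p) (hH : Summable H) :
    Summable G ∧ ∑' x, G x ≤ ∑' p, H p := by
  have h2 : Summable fun p => ∑' i, G (p, i) :=
    Summable.of_nonneg_of_le (fun p => tsum_nonneg fun i => h0 _) (fun p => (h1 p).2) hH
  have h3 : Summable G := (summable_prod_of_nonneg h0).2 ⟨fun p => (h1 p).1, h2⟩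
  refine ⟨h3, ?_⟩
  rw [h3.tsum_prod]
  exact h2.tsum_le_tsum (fun p => (h1 p).2) hH

theorem nm_nonneg (K : Mat) : 0 ≤ nm K := tsum_nonneg fun _ => norm_nonneg _

theorem sm_bdC {K : Mat} (h : Sm K) : BdC (nm K) K := by
  unfold Sm at h
  refine ⟨fun i => ?_, fun j => ?_⟩
  · have hinj : Function.Injective (fun j : ℕ => (i, j)) := fun x y hxy => by simpa using hxy
    have h1 := h.comp_injective hinj
    have h2 := tsum_comp_le_tsum_of_inj h (fun _ => norm_nonneg _) hinj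
    exact ⟨h1, h2⟩
  · have hinj : Function.Injective (fun i : ℕ => (i, j)) := fun x y hxy => by simpa using hxy
    have h1 := h.comp_injective hinj
    have h2 := tsum_comp_le_tsum_of_inj h (fun _ => norm_nonneg _) hinj
    exact ⟨h1, h2⟩

theorem sm_bd {K : Mat} (h : Sm K) : Bd K := ⟨_, sm_bdC h⟩

theorem sm_zero : Sm 0 := by
  unfold Sm
  simp

theorem sm_neg {K : Mat} (h : Sm K) : Sm (-K) := by
  unfold Sm at h ⊢
  simpa using h

theorem nm_neg (K : Mat) : nm (-K) = nm K := by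
  unfold nm
  simp

theorem sm_add {K K' : Mat} (h : Sm K) (h' : Sm K') : Sm (K + K') := by
  exact Summable.of_nonneg_of_le (fun _ => norm_nonneg _)
    (fun p => norm_add_le (K p.1 p.2) (K' p.1 p.2)) (Summable.add h h')

theorem nm_add {K K' : Mat} (h : Sm K) (h' : Sm K') : nm (K + K') ≤ nm K + nm K' := by
  have h1 : nm K + nm K' = ∑' p : ℕ × ℕ, (‖K p.1 p.2‖ + ‖K' p.1 p.2‖) :=
    (Summable.tsum_add h h').symm
  rw [h1]
  exact (sm_add h h').tsum_le_tsum (fun p => norm_add_le (K p.1 p.2) (K' p.1 p.2))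
    (Summable.add h h')

theorem sm_sub {K K' : Mat} (h : Sm K) (h' : Sm K') : Sm (K - K') := by
  rw [sub_eq_add_neg]
  exact sm_add h (sm_neg h')

/-- ideal property, left -/
theorem sm_mul_left {C : ℝ} {A K : Mat} (hA : BdC C A) (h : Sm K) :
    Sm (mmul A K) ∧ nm (mmul A K) ≤ C * nm K := by
  have hGp : ∀ p : ℕ × ℕ, Summable (fun i => ‖A i p.1‖ * ‖K p.1 p.2‖) ∧
      ∑' i, ‖A i p.1‖ * ‖K p.1 p.2‖ ≤ C * ‖K p.1 p.2‖ := by
    intro p
    refine ⟨(hA.2 p.1).1.mul_right _, ?_⟩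
    rw [tsum_mul_right]
    exact mul_le_mul_of_nonneg_right (hA.2 p.1).2 (norm_nonneg _)
  have hG := p3_outer (G := fun x => ‖A x.2 x.1.1‖ * ‖K x.1.1 x.1.2‖)
    (H := fun p => C * ‖K p.1 p.2‖) (fun x => mul_nonneg (norm_nonneg _) (norm_nonneg _))
    hGp (Summable.mul_left C h)
  let e : (ℕ × ℕ) × ℕ ≃ (ℕ × ℕ) × ℕ :=
    { toFun := fun x => ((x.2, x.1.2), x.1.1)
      invFun := fun x => ((x.2, x.1.2), x.1.1)
      left_inv := fun x => rfl
      right_inv := fun x => rfl }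
  have hT : Summable fun x : (ℕ × ℕ) × ℕ => ‖A x.1.1 x.2 * K x.2 x.1.2‖ := by
    have h0 := hG.1
    have h1 := e.summable_iff.2 h0
    refine h1.congr fun x => ?_
    simp [e]
  have hT2 : ∑' x : (ℕ × ℕ) × ℕ, ‖A x.1.1 x.2 * K x.2 x.1.2‖ =
      ∑' x : (ℕ × ℕ) × ℕ, ‖A x.2 x.1.1‖ * ‖K x.1.1 x.1.2‖ := by
    rw [← e.tsum_eq (fun x : (ℕ × ℕ) × ℕ => ‖A x.2 x.1.1‖ * ‖K x.1.1 x.1.2‖)]
    refine tsum_congr fun x => ?_
    simp [e]
  have hI := p3_inner hT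
  refine ⟨hI.1, hI.2.trans ?_⟩
  rw [hT2]
  refine hG.2.trans ?_
  rw [tsum_mul_left]
  exact le_rfl

/-- ideal property, right -/
theorem sm_mul_right {C : ℝ} {A K : Mat} (hA : BdC C A) (h : Sm K) :
    Sm (mmul K A) ∧ nm (mmul K A) ≤ nm K * C := by
  have hGp : ∀ p : ℕ × ℕ, Summable (fun i => ‖K p.1 p.2‖ * ‖A p.2 i‖) ∧
      ∑' i, ‖K p.1 p.2‖ * ‖A p.2 i‖ ≤ ‖K p.1 p.2‖ * C := by
    intro p
    refine ⟨(hA.1 p.2).1.mul_left _, ?_⟩
    rw [tsum_mul_left]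
    exact mul_le_mul_of_nonneg_left (hA.1 p.2).2 (norm_nonneg _)
  have hG := p3_outer (G := fun x => ‖K x.1.1 x.1.2‖ * ‖A x.1.2 x.2‖)
    (H := fun p => ‖K p.1 p.2‖ * C) (fun x => mul_nonneg (norm_nonneg _) (norm_nonneg _))
    hGp (Summable.mul_right C h)
  let e : (ℕ × ℕ) × ℕ ≃ (ℕ × ℕ) × ℕ :=
    { toFun := fun x => ((x.1.1, x.2), x.1.2)
      invFun := fun x => ((x.1.1, x.2), x.1.2)
      left_inv := fun x => rfl
      right_inv := fun x => rfl }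
  have hT : Summable fun x : (ℕ × ℕ) × ℕ => ‖K x.1.1 x.2 * A x.2 x.1.2‖ := by
    have h0 := hG.1
    have h1 := e.summable_iff.2 h0
    refine h1.congr fun x => ?_
    simp [e]
  have hT2 : ∑' x : (ℕ × ℕ) × ℕ, ‖K x.1.1 x.2 * A x.2 x.1.2‖ =
      ∑' x : (ℕ × ℕ) × ℕ, ‖K x.1.1 x.1.2‖ * ‖A x.1.2 x.2‖ := by
    rw [← e.tsum_eq (fun x : (ℕ × ℕ) × ℕ => ‖K x.1.1 x.1.2‖ * ‖A x.1.2 x.2‖)]
    refine tsum_congr fun x => ?_
    simp [e]
  have hI := p3_inner hT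
  refine ⟨hI.1, hI.2.trans ?_⟩
  rw [hT2]
  refine hG.2.trans ?_
  rw [tsum_mul_right]
  exact le_rfl

theorem sm_mulL {A K : Mat} (hA : Bd A) (h : Sm K) : Sm (mmul A K) := by
  obtain ⟨C, hC⟩ := hA
  exact (sm_mul_left hC h).1

theorem sm_mulR {A K : Mat} (h : Sm K) (hA : Bd A) : Sm (mmul K A) := by
  obtain ⟨C, hC⟩ := hA
  exact (sm_mul_right hC h).1

end Pool.Agent.Helper11.LT
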