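import Pool.Agent.Helper34.LT.Fd

/-!
PROJECT LT, piece P5. Two inequalities for finite determinants. det_le: Leibniz formula, sum over permutations <= sum over all functions = product of row sums of |1+A| <= prod (1 + sum_j |A_ij|) <= exp. det_lip: telescoping over the rows (rows < k of 1+B, row k the difference, rows > k of 1+A), same estimate; multilinearity Matrix.det_updateRow_add etc.
-/

namespace Pool.Agent.Helper11.LT

open Finset Filter Topology Pool.Agent.Helper34.LT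

/-- The determinant is at most the product of the absolute row sums. -/
private theorem p5_row {N : ℕ} (M : Matrix (Fin N) (Fin N) ℂ) :
    ‖M.det‖ ≤ ∏ i, ∑ j, ‖M i j‖ := by
  rw [← Matrix.det_transpose, Matrix.det_apply']
  have h1 : ∏ i, ∑ j, ‖M i j‖ = ∑ f : Fin N → Fin N, ∏ i, ‖M i (f i)‖ := by
    rw [Finset.prod_univ_sum, Fintype.piFinset_univ]
  rw [h1]
  refine (norm_sum_le _ _).trans ?_
  have h2 : ∀ σ : Equiv.Perm (Fin N),
      ‖((Equiv.Perm.sign σ : ℤ) : ℂ) * ∏ i, M.transpose (σ i) i‖ =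
        ∏ i, ‖M i ((σ : Fin N → Fin N) i)‖ := by
    intro σ
    rw [norm_mul, norm_prod]
    have h3 : ‖((Equiv.Perm.sign σ : ℤ) : ℂ)‖ = 1 := by
      rcases Int.units_eq_one_or (Equiv.Perm.sign σ) with h | h <;> rw [h] <;> simp
    rw [h3, one_mul]
    rfl
  rw [Finset.sum_congr rfl fun σ _ => h2 σ]
  have h4 : ∑ σ : Equiv.Perm (Fin N), ∏ i, ‖M i ((σ : Fin N → Fin N) i)‖ =
      ∑ f ∈ (univ : Finset (Equiv.Perm (Fin N))).map
        (⟨fun σ => ⇑σ, DFunLike.coe_injective⟩ : Equiv.Perm (Fin N) ↪ (Fin N → Fin N)),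
          ∏ i, ‖M i (f i)‖ := by
    rw [Finset.sum_map]
    rfl
  rw [h4]
  exact Finset.sum_le_sum_of_subset_of_nonneg (Finset.subset_univ _)
    fun _ _ _ => Finset.prod_nonneg fun _ _ => norm_nonneg _

/-- Row sums of `1 + A`. -/
private theorem p5_one {N : ℕ} (A : Matrix (Fin N) (Fin N) ℂ) (i : Fin N) :
    ∑ j, ‖(1 + A) i j‖ ≤ Real.exp (∑ j, ‖A i j‖) := by
  have h1 : ∑ j, ‖(1 + A) i j‖ ≤ 1 + ∑ j, ‖A i j‖ := by
    have h2 : ∀ j, ‖(1 + A) i j‖ ≤ (if i = j then 1 else 0) + ‖A i j‖ := by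
      intro j
      rw [Matrix.add_apply, Matrix.one_apply]
      refine (norm_add_le _ _).trans ?_
      split_ifs <;> simp
    refine (Finset.sum_le_sum fun j _ => h2 j).trans ?_
    rw [Finset.sum_add_distrib, Finset.sum_ite_eq]
    simp
  refine h1.trans ?_
  rw [add_comm]
  exact Real.add_one_le_exp _

/-- Leibniz formula: `‖det‖ ≤ ∏ (row sums)`, `1 + x ≤ exp x` -/
theorem det_le {N : ℕ} (A : Matrix (Fin N) (Fin N) ℂ) :
    ‖(1 + A).det‖ ≤ Real.exp (∑ i, ∑ j, ‖A i j‖) := by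
  refine (p5_row _).trans ?_
  rw [Real.exp_sum]
  exact Finset.prod_le_prod (fun i _ => Finset.sum_nonneg fun _ _ => norm_nonneg _)
    fun i _ => p5_one A i

/-- The rows of `s` are taken from the second matrix. -/
private def p5_mix {N : ℕ} (P Q : Matrix (Fin N) (Fin N) ℂ) (s : Finset (Fin N)) :
    Matrix (Fin N) (Fin N) ℂ := fun i => if i ∈ s then Q i else P i

private theorem p5_step {N : ℕ} (P Q : Matrix (Fin N) (Fin N) ℂ) (e : Fin N → ℝ)
    (hP : ∀ i, ∑ j, ‖P i j‖ ≤ Real.exp (e i)) (hQ : ∀ i, ∑ j, ‖Q i j‖ ≤ Real.exp (e i))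
    (he : ∀ i, 0 ≤ e i)
    (s : Finset (Fin N)) (k : Fin N) (hk : k ∉ s) :
    ‖(p5_mix P Q s).det - (p5_mix P Q (insert k s)).det‖ ≤
      (∑ j, ‖P k j - Q k j‖) * Real.exp (∑ i, e i) := by
  have h1 : p5_mix P Q (insert k s) = (p5_mix P Q s).updateRow k (Q k) := by
    funext i
    unfold p5_mix
    by_cases hi : i = k
    · subst hi
      simp
    · rw [Matrix.updateRow_ne hi]
      simp [hi]
  have h2 : p5_mix P Q s = (p5_mix P Q s).updateRow k ((P k - Q k) + Q k) := by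
    funext i
    by_cases hi : i = k
    · subst hi
      rw [Matrix.updateRow_self, sub_add_cancel]
      unfold p5_mix
      rw [if_neg hk]
    · rw [Matrix.updateRow_ne hi]
  have h3 : (p5_mix P Q s).det - (p5_mix P Q (insert k s)).det =
      ((p5_mix P Q s).updateRow k (P k - Q k)).det := by
    rw [h1]
    conv_lhs => rw [h2]
    rw [Matrix.det_updateRow_add, Matrix.updateRow_idem]
    ring
  rw [h3]
  refine (p5_row _).trans ?_
  have h4 : ∀ i, ∑ j, ‖((p5_mix P Q s).updateRow k (P k - Q k)) i j‖ ≤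
      (if i = k then ∑ j, ‖P k j - Q k j‖ else 1) * Real.exp (e i) := by
    intro i
    by_cases hi : i = k
    · subst hi
      rw [Matrix.updateRow_self, if_pos rfl]
      have h5 : 0 ≤ ∑ j, ‖P i j - Q i j‖ := Finset.sum_nonneg fun _ _ => norm_nonneg _
      have h6 : 1 ≤ Real.exp (e i) := Real.one_le_exp (he i)
      calc ∑ j, ‖(P i - Q i) j‖ = ∑ j, ‖P i j - Q i j‖ := rfl
        _ ≤ _ := le_mul_of_one_le_right h5 h6
    · rw [Matrix.updateRow_ne hi, if_neg hi, one_mul]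
      unfold p5_mix
      split_ifs
      · exact hQ i
      · exact hP i
  refine (Finset.prod_le_prod (fun i _ => Finset.sum_nonneg fun _ _ => norm_nonneg _)
    fun i _ => h4 i).trans ?_
  rw [Finset.prod_mul_distrib, Finset.prod_ite_eq', Real.exp_sum]
  simp

private theorem p5_all {N : ℕ} (P Q : Matrix (Fin N) (Fin N) ℂ) (e : Fin N → ℝ)
    (hP : ∀ i, ∑ j, ‖P i j‖ ≤ Real.exp (e i)) (hQ : ∀ i, ∑ j, ‖Q i j‖ ≤ Real.exp (e i))
    (he : ∀ i, 0 ≤ e i) (s : Finset (Fin N)) :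
    ‖P.det - (p5_mix P Q s).det‖ ≤
      (∑ k ∈ s, ∑ j, ‖P k j - Q k j‖) * Real.exp (∑ i, e i) := by
  classical
  induction s using Finset.induction_on with
  | empty =>
    have h1 : p5_mix P Q ∅ = P := by
      funext i
      unfold p5_mix
      simp
    rw [h1]
    simp
  | insert k s hk ih =>
    have h1 := p5_step P Q e hP hQ he s k hk
    rw [Finset.sum_insert hk, add_mul]
    have h2 : P.det - (p5_mix P Q (insert k s)).det =
        ((p5_mix P Q s).det - (p5_mix P Q (insert k s)).det) + (P.det - (p5_mix P Q s).det) := by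
      ring
    rw [h2]
    exact (norm_add_le _ _).trans (add_le_add h1 ih)

/-- telescoping in the rows -/
theorem det_lip {N : ℕ} (A B : Matrix (Fin N) (Fin N) ℂ) :
    ‖(1 + A).det - (1 + B).det‖ ≤ (∑ i, ∑ j, ‖A i j - B i j‖) *
      Real.exp (∑ i, ∑ j, ‖A i j‖ + ∑ i, ∑ j, ‖B i j‖) := by
  have ha : ∀ i, 0 ≤ ∑ j, ‖A i j‖ := fun i => Finset.sum_nonneg fun _ _ => norm_nonneg _
  have hb : ∀ i, 0 ≤ ∑ j, ‖B i j‖ := fun i => Finset.sum_nonneg fun _ _ => norm_nonneg _
  have h1 := p5_all (1 + A) (1 + B) (fun i => ∑ j, ‖A i j‖ + ∑ j, ‖B i j‖)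
    (fun i => (p5_one A i).trans (Real.exp_le_exp.2 (by linarith [hb i])))
    (fun i => (p5_one B i).trans (Real.exp_le_exp.2 (by linarith [ha i])))
    (fun i => add_nonneg (ha i) (hb i)) univ
  have h2 : p5_mix (1 + A) (1 + B) univ = 1 + B := by
    funext i
    unfold p5_mix
    simp
  rw [h2, Finset.sum_add_distrib] at h1
  refine h1.trans (le_of_eq ?_)
  congr 1
  refine Finset.sum_congr rfl fun i _ => Finset.sum_congr rfl fun j _ => ?_
  rw [Matrix.add_apply, Matrix.add_apply]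
  congr 1
  ring

end Pool.Agent.Helper11.LT
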