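import Pool.Agent.Helper11.LT.P4

/-!
PROJECT LT, piece P6. Finite determinants of truncations. (det_rows_zero by induction on M: last row of 1 + trn K (M+1) is the unit vector, Fin.castSucc block; det_cols_zero by transposition.) trn_lower: the tsum is a finite sum over k < N because L_ik = 0 for k > i.
-/

namespace Pool.Agent.Helper11.LT

open Finset Filter Topology Pool.Agent.Helper34.LT

private theorem p6_step {N M : ℕ} (hNM : N ≤ M) {K : Mat} (hK : ∀ i j, N ≤ i → K i j = 0) :
    (1 + trn K (M + 1)).det = (1 + trn K M).det := by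
  rw [Matrix.det_succ_row _ (Fin.last M), Finset.sum_eq_single (Fin.last M)]
  · have h1 : (1 + trn K (M + 1)) (Fin.last M) (Fin.last M) = 1 := by
      rw [Matrix.add_apply, Matrix.one_apply_eq]
      change 1 + K (Fin.last M) (Fin.last M) = 1
      rw [hK _ _ (by rw [Fin.val_last]; exact hNM), add_zero]
    have h2 : ((-1 : ℂ)) ^ ((Fin.last M : ℕ) + (Fin.last M : ℕ)) = 1 := by
      rw [← two_mul, pow_mul]
      norm_num
    have h3 : (1 + trn K (M + 1)).submatrix (Fin.last M).succAbove (Fin.last M).succAbove =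
        1 + trn K M := by
      ext i j
      rw [Matrix.submatrix_apply, Fin.succAbove_last, Matrix.add_apply, Matrix.add_apply]
      congr 1
      rw [Matrix.one_apply, Matrix.one_apply]
      by_cases h : i = j
      · rw [if_pos h, if_pos (by rw [h])]
      · rw [if_neg h, if_neg (fun h' => h (Fin.castSucc_injective M h'))]
    rw [h1, h2, h3, one_mul, one_mul]
  · intro j _ hj
    have h1 : (1 + trn K (M + 1)) (Fin.last M) j = 0 := by
      rw [Matrix.add_apply, Matrix.one_apply_ne (Ne.symm hj)]
      change 0 + K (Fin.last M) j = 0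
      rw [hK _ _ (by rw [Fin.val_last]; exact hNM), add_zero]
    rw [h1, mul_zero, zero_mul]
  · intro h
    exact absurd (Finset.mem_univ _) h

theorem det_rows_zero {N M : ℕ} (hNM : N ≤ M) {K : Mat} (hK : ∀ i j, N ≤ i → K i j = 0) :
    (1 + trn K M).det = (1 + trn K N).det := by
  induction M, hNM using Nat.le_induction with
  | base => rfl
  | succ M hM ih => rw [p6_step hM hK, ih]

theorem det_cols_zero {N M : ℕ} (hNM : N ≤ M) {K : Mat} (hK : ∀ i j, N ≤ j → K i j = 0) :
    (1 + trn K M).det = (1 + trn K N).det := by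
  have h1 : ∀ m : ℕ, (1 + trn K m).det = (1 + trn (fun i j => K j i) m).det := by
    intro m
    rw [← Matrix.det_transpose, Matrix.transpose_add, Matrix.transpose_one]
    rfl
  rw [h1, h1]
  exact det_rows_zero hNM fun i j hi => hK j i hi

theorem trn_mone_add (K : Mat) (N : ℕ) : trn (mone + K) N = 1 + trn K N := by
  ext i j
  rw [Matrix.add_apply, Matrix.one_apply]
  change (if (i : ℕ) = (j : ℕ) then (1 : ℂ) else 0) + K i j = (if i = j then (1 : ℂ) else 0) + K i j
  congr 1
  by_cases h : i = j
  · rw [if_pos h, if_pos (by rw [h])]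
  · rw [if_neg h, if_neg (fun h' => h (Fin.ext h'))]

theorem trn_lower {L : Mat} (hL : ∀ i j, i < j → L i j = 0) (X : Mat) (N : ℕ) :
    trn (mmul L X) N = trn L N * trn X N := by
  ext i j
  rw [Matrix.mul_apply]
  change ∑' k, L i k * X k j = ∑ k : Fin N, L i k * X k j
  rw [tsum_eq_sum (s := Finset.range N), Finset.sum_range]
  intro k hk
  rw [Finset.mem_range, not_lt] at hk
  rw [hL i k (i.2.trans_le hk), zero_mul]

theorem trn_upper {U : Mat} (hU : ∀ i j, j < i → U i j = 0) (X : Mat) (N : ℕ) :
    trn (mmul X U) N = trn X N * trn U N := by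
  ext i j
  rw [Matrix.mul_apply]
  change ∑' k, X i k * U k j = ∑ k : Fin N, X i k * U k j
  rw [tsum_eq_sum (s := Finset.range N), Finset.sum_range]
  intro k hk
  rw [Finset.mem_range, not_lt] at hk
  rw [hU k j (j.2.trans_le hk), mul_zero]

theorem det_trn_lower_one {L : Mat} (hL : ∀ i j, i < j → L i j = 0) (h1 : ∀ i, L i i = 1)
    (N : ℕ) : (trn L N).det = 1 := by
  rw [Matrix.det_of_lowerTriangular]
  · exact Finset.prod_eq_one fun i _ => h1 i
  · intro i j hij
    exact hL i j hij

theorem det_trn_upper_one {U : Mat} (hU : ∀ i j, j < i → U i j = 0) (h1 : ∀ i, U i i = 1)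
    (N : ℕ) : (trn U N).det = 1 := by
  rw [Matrix.det_of_upperTriangular]
  · exact Finset.prod_eq_one fun i _ => h1 i
  · intro i j hij
    exact hU i j hij

end Pool.Agent.Helper11.LT
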