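import Pool.Agent.Helper11.LT.P2

/-!
PROJECT LT, piece P7. Weights: wt A = D A D^-1, D = diag(2^i). det: Matrix.det_conj or row/column scaling.
-/

namespace Pool.Agent.Helper11.LT

open Finset Filter Topology Pool.Agent.Helper34.LT

theorem wt_mmul (A B : Mat) : wt (mmul A B) = mmul (wt A) (wt B) := by
  funext i j
  change (2 : ℂ) ^ ((i : ℤ) - (j : ℤ)) * ∑' k, A i k * B k j =
    ∑' k : ℕ, ((2 : ℂ) ^ ((i : ℤ) - (k : ℤ)) * A i k) * ((2 : ℂ) ^ ((k : ℤ) - (j : ℤ)) * B k j)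
  rw [← tsum_mul_left]
  refine tsum_congr fun k => ?_
  have h : (2 : ℂ) ^ ((i : ℤ) - (j : ℤ)) =
      (2 : ℂ) ^ ((i : ℤ) - (k : ℤ)) * (2 : ℂ) ^ ((k : ℤ) - (j : ℤ)) := by
    rw [← zpow_add₀ two_ne_zero]
    congr 1
    ring
  rw [h]
  ring

theorem wt_mone : wt mone = mone := by
  funext i j
  change (2 : ℂ) ^ ((i : ℤ) - (j : ℤ)) * (if i = j then 1 else 0) = if i = j then 1 else 0
  split_ifs with h
  · rw [h, sub_self, zpow_zero, mul_one]
  · rw [mul_zero]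

theorem wt_add (A B : Mat) : wt (A + B) = wt A + wt B := by
  funext i j
  exact mul_add _ _ _

theorem wt_neg (A : Mat) : wt (-A) = -wt A := by
  funext i j
  exact mul_neg _ _

theorem det_trn_wt (A : Mat) (N : ℕ) : (trn (wt A) N).det = (trn A N).det := by
  have h0 : ∀ i : Fin N, (2 : ℂ) ^ (i : ℕ) ≠ 0 := fun i => pow_ne_zero _ two_ne_zero
  have h1 : trn (wt A) N = Matrix.of fun i j : Fin N => (2 : ℂ) ^ (i : ℕ) *
      (Matrix.of (fun i j : Fin N => ((2 : ℂ) ^ (j : ℕ))⁻¹ * trn A N i j)) i j := by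
    ext i j
    change (2 : ℂ) ^ (((i : ℕ) : ℤ) - ((j : ℕ) : ℤ)) * A i j =
      (2 : ℂ) ^ (i : ℕ) * (((2 : ℂ) ^ (j : ℕ))⁻¹ * A i j)
    rw [zpow_sub₀ two_ne_zero, zpow_natCast, zpow_natCast]
    ring
  rw [h1, Matrix.det_mul_column, Matrix.det_mul_row, ← mul_assoc, ← Finset.prod_mul_distrib,
    Finset.prod_eq_one fun i _ => mul_inv_cancel₀ (h0 i), one_mul]

theorem det_one_trn_wt (A : Mat) (N : ℕ) : (1 + trn (wt A) N).det = (1 + trn A N).det := by
  have h : ∀ B : Mat, 1 + trn B N = trn (mone + B) N := by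
    intro B
    ext i j
    change (1 : Matrix (Fin N) (Fin N) ℂ) i j + B i j = (if (i : ℕ) = (j : ℕ) then 1 else 0) + B i j
    rw [Matrix.one_apply]
    simp only [Fin.ext_iff]
  rw [h, h, ← wt_mone, ← wt_add, det_trn_wt, wt_mone]

end Pool.Agent.Helper11.LT
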