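import Pool.Agent.Helper11.LT.F0a

/-!
PROJECT LT, piece P10. Neumann series. X = sum_(n>=1) (-K)^n entrywise; nm (K^n) <= (nm K)^n. Or: fixed point of the contraction X -> -K - K X on lp 1 of (N x N), and the same on the other side; left inverse = right inverse.
-/

namespace Pool.Agent.Helper11.LT

open Finset Filter Topology Pool.Agent.Helper34.LT

/-- the terms of the Neumann series -/
private noncomputable def p10T (K : Mat) : ℕ → Mat
  | 0 => -K
  | n + 1 => -mmul K (p10T K n)

private theorem p10_T {K : Mat} (h : Sm K) (n : ℕ) :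
    Sm (p10T K n) ∧ nm (p10T K n) ≤ nm K ^ (n + 1) := by
  induction n with
  | zero =>
    refine ⟨sm_neg h, ?_⟩
    change nm (-K) ≤ nm K ^ (0 + 1)
    rw [nm_neg, zero_add, pow_one]
  | succ n ih =>
    obtain ⟨h1, h2⟩ := sm_mul_left (sm_bdC h) ih.1
    refine ⟨sm_neg h1, ?_⟩
    change nm (-mmul K (p10T K n)) ≤ nm K ^ (n + 1 + 1)
    rw [nm_neg, pow_succ']
    exact h2.trans (mul_le_mul_of_nonneg_left ih.2 (nm_nonneg K))

private theorem p10_right {K : Mat} (h : Sm K) (h1 : nm K < 1) :
    ∃ X, Sm X ∧ mmul (mone + K) (mone + X) = mone := by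
  have hT := p10_T h
  have h0 : (0 : ℕ × ℕ × ℕ → ℝ) ≤ fun q => ‖p10T K q.1 q.2.1 q.2.2‖ := fun q => norm_nonneg _
  have hg : Summable fun n : ℕ => nm K ^ (n + 1) := by
    have h2 := (summable_geometric_of_lt_one (nm_nonneg K) h1).mul_left (nm K)
    refine h2.congr fun n => ?_
    rw [pow_succ']
  have hn : Summable fun n => ∑' p : ℕ × ℕ, ‖p10T K n p.1 p.2‖ :=
    Summable.of_nonneg_of_le (fun n => tsum_nonneg fun p => norm_nonneg _) (fun n => (hT n).2) hg
  have hf : ∀ n, Summable fun p : ℕ × ℕ => ‖p10T K n p.1 p.2‖ := fun n => (hT n).1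
  have S : Summable fun q : ℕ × ℕ × ℕ => ‖p10T K q.1 q.2.1 q.2.2‖ :=
    (summable_prod_of_nonneg h0).2 ⟨hf, hn⟩
  -- entrywise summability
  have Sij : ∀ i j, Summable fun n => p10T K n i j := by
    intro i j
    have h2 : Function.Injective fun n : ℕ => ((n, i, j) : ℕ × ℕ × ℕ) := fun a b hab =>
      congrArg Prod.fst hab
    exact (S.comp_injective h2).of_norm
  obtain ⟨X, hX⟩ : ∃ X : Mat, X = fun i j => ∑' n, p10T K n i j := ⟨_, rfl⟩
  have hSX : Sm X := by
    have h2 : Summable fun q : (ℕ × ℕ) × ℕ => ‖p10T K q.2 q.1.1 q.1.2‖ := S.prod_symm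
    have h3 : Summable fun p : ℕ × ℕ => ∑' n, ‖p10T K n p.1 p.2‖ := h2.prod
    refine Summable.of_nonneg_of_le (fun p => norm_nonneg _) (fun p => ?_) h3
    rw [hX]
    exact norm_tsum_le_tsum_norm (h2.prod_factor p)
  refine ⟨X, hSX, ?_⟩
  -- `K X = - X - K`
  have hKX : mmul K X = -X - K := by
    funext i j
    have h2 : Summable fun q : ℕ × ℕ => K i q.1 * p10T K q.2 q.1 j := by
      have h3 : Function.Injective fun q : ℕ × ℕ => ((q.2, q.1, j) : ℕ × ℕ × ℕ) := by
        intro a b hab
        have h4 := congrArg Prod.fst hab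
        have h5 := congrArg (fun z : ℕ × ℕ × ℕ => z.2.1) hab
        exact Prod.ext h5 h4
      refine Summable.of_norm_bounded ((S.comp_injective h3).mul_left (nm K)) fun q => ?_
      rw [norm_mul]
      exact mul_le_mul_of_nonneg_right (bdC_norm_le (sm_bdC h) _ _) (norm_nonneg _)
    have h3 : mmul K X i j = ∑' n, ∑' k, K i k * p10T K n k j := by
      change ∑' k, K i k * X k j = _
      rw [hX]
      have h4 : ∀ k, K i k * ∑' n, p10T K n k j = ∑' n, K i k * p10T K n k j :=
        fun k => tsum_mul_left.symm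
      rw [tsum_congr h4]
      exact (Summable.tsum_comm (f := fun k n => K i k * p10T K n k j) h2).symm
    have h4 : ∀ n, ∑' k, K i k * p10T K n k j = -p10T K (n + 1) i j := by
      intro n
      change mmul K (p10T K n) i j = -(-mmul K (p10T K n)) i j
      exact (neg_neg _).symm
    rw [h3, tsum_congr h4, tsum_neg]
    have h5 : X i j = p10T K 0 i j + ∑' n, p10T K (n + 1) i j := by
      rw [hX]
      exact (Sij i j).tsum_eq_zero_add
    have h6 : p10T K 0 i j = -K i j := rfl
    rw [h6] at h5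
    change -∑' n, p10T K (n + 1) i j = -X i j - K i j
    linear_combination h5
  have hb := sm_bd h
  have hbX := sm_bd hSX
  rw [add_mmul bd_mone hb (bd_add bd_mone hbX), mone_mmul, mmul_add hb bd_mone hbX, mmul_mone, hKX]
  abel

/-- the transposed matrix -/
private def p10tr (A : Mat) : Mat := fun i j => A j i

private theorem p10_tr_sm {A : Mat} (h : Sm A) : Sm (p10tr A) ∧ nm (p10tr A) = nm A :=
  ⟨Summable.prod_symm h, (Equiv.prodComm ℕ ℕ).tsum_eq fun p : ℕ × ℕ => ‖A p.1 p.2‖⟩

private theorem p10_tr_mul (A B : Mat) : p10tr (mmul A B) = mmul (p10tr B) (p10tr A) := by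
  funext i j
  exact tsum_congr fun k => mul_comm _ _

private theorem p10_tr_one : p10tr mone = mone := by
  funext i j
  change (if j = i then (1 : ℂ) else 0) = if i = j then 1 else 0
  simp only [eq_comm]

/-- Neumann series -/
theorem exists_inv_small {K : Mat} (h : Sm K) (h1 : nm K < 1) :
    ∃ X, Sm X ∧ mmul (mone + K) (mone + X) = mone ∧ mmul (mone + X) (mone + K) = mone := by
  obtain ⟨X, hX, hX1⟩ := p10_right h h1
  obtain ⟨h2, h3⟩ := p10_tr_sm h
  obtain ⟨Z, hZ, hZ1⟩ := p10_right h2 (h3.trans_lt h1)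
  have hY : Sm (p10tr Z) := (p10_tr_sm hZ).1
  have hY1 : mmul (mone + p10tr Z) (mone + K) = mone := by
    have h4 := congrArg p10tr hZ1
    rw [p10_tr_mul, p10_tr_one] at h4
    have h5 : p10tr (mone + Z) = mone + p10tr Z := by
      change p10tr mone + p10tr Z = _
      rw [p10_tr_one]
    have h6 : p10tr (mone + p10tr K) = mone + K := by
      change p10tr mone + K = _
      rw [p10_tr_one]
    rw [h5, h6] at h4
    exact h4
  have bX := bd_add bd_mone (sm_bd hX)
  have bY := bd_add bd_mone (sm_bd hY)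
  have bK := bd_add bd_mone (sm_bd h)
  have h7 : mone + p10tr Z = mone + X := by
    calc mone + p10tr Z = mmul (mone + p10tr Z) (mmul (mone + K) (mone + X)) := by
          rw [hX1, mmul_mone]
      _ = mmul (mmul (mone + p10tr Z) (mone + K)) (mone + X) := (mmul_assoc bY bK bX).symm
      _ = mone + X := by rw [hY1, mone_mmul]
  refine ⟨X, hX, hX1, ?_⟩
  rw [← h7]
  exact hY1

end Pool.Agent.Helper11.LT
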