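import Pool.Agent.Helper11.LT.F0a

/-!
PROJECT LT, piece P11. Finitely many columns. B = inverse of the N x N matrix 1 + trn F N, Bh = B extended by zero, X = - F Bh. (1+F)(1 - F Bh) = 1 + F - F (1+F) Bh and F (1+F) Bh = F P (1+F) P Bh = F P = F (F = F P, P = projection to the first N indices); similarly Bh (1+F) = P, so (1 - F Bh)(1+F) = 1 + F - F P = 1.
-/

namespace Pool.Agent.Helper11.LT

open Finset Filter Topology Pool.Agent.Helper34.LT

/-- the projection -/
private def p11P (N : ℕ) : Mat := fun i j => if i = j ∧ i < N then 1 else 0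

/-- a matrix extended by zero -/
private noncomputable def p11E {N : ℕ} (B : Matrix (Fin N) (Fin N) ℂ) : Mat := fun i j =>
  if h : i < N ∧ j < N then B ⟨i, h.1⟩ ⟨j, h.2⟩ else 0

private theorem p11_E_fin {N : ℕ} (B : Matrix (Fin N) (Fin N) ℂ) (i j : Fin N) :
    p11E B i j = B i j := by
  unfold p11E
  rw [dif_pos ⟨i.2, j.2⟩]

private theorem p11_E_left {N : ℕ} (B : Matrix (Fin N) (Fin N) ℂ) {i : ℕ} (j : ℕ) (hi : N ≤ i) :
    p11E B i j = 0 := dif_neg fun h => absurd h.1 (not_lt.2 hi)

private theorem p11_E_right {N : ℕ} (B : Matrix (Fin N) (Fin N) ℂ) (i : ℕ) {j : ℕ} (hj : N ≤ j) :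
    p11E B i j = 0 := dif_neg fun h => absurd h.2 (not_lt.2 hj)

private theorem p11_sm {N : ℕ} (K : Mat) (h1 : ∀ i j, N ≤ i → K i j = 0)
    (h2 : ∀ i j, N ≤ j → K i j = 0) : Sm K := by
  refine summable_of_ne_finset_zero (s := range N ×ˢ range N) fun p hp => ?_
  rw [mem_product, mem_range, mem_range, not_and_or, not_lt, not_lt] at hp
  rcases hp with hp | hp
  · rw [h1 _ _ hp, norm_zero]
  · rw [h2 _ _ hp, norm_zero]

private theorem p11_P_mul (N : ℕ) (M : Mat) (i j : ℕ) :
    mmul (p11P N) M i j = if i < N then M i j else 0 := by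
  change ∑' k, p11P N i k * M k j = _
  rw [tsum_eq_single i fun k hk => by
    unfold p11P
    rw [if_neg fun h => hk h.1.symm, zero_mul]]
  unfold p11P
  by_cases hi : i < N <;> simp [hi]

private theorem p11_mul_P (N : ℕ) (M : Mat) (i j : ℕ) :
    mmul M (p11P N) i j = if j < N then M i j else 0 := by
  change ∑' k, M i k * p11P N k j = _
  rw [tsum_eq_single j fun k hk => by
    unfold p11P
    rw [if_neg fun h => hk h.1, mul_zero]]
  unfold p11P
  by_cases hj : j < N <;> simp [hj]

private theorem p11_trn (F : Mat) (N : ℕ) (i k : Fin N) :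
    (1 + trn F N) i k = (mone + F) i k := by
  change (1 : Matrix (Fin N) (Fin N) ℂ) i k + F i k = mone i k + F i k
  rw [Matrix.one_apply]
  unfold mone
  by_cases h : i = k
  · rw [if_pos h, if_pos (congrArg Fin.val h)]
  · rw [if_neg h, if_neg fun h' => h (Fin.ext h')]

/-- finitely many columns: `X = - F B`, `B` the inverse of the block of `1 + F` -/
theorem exists_inv_cols {N : ℕ} {F : Mat} (h : Sm F) (hF : ∀ i j, N ≤ j → F i j = 0)
    (hd : (1 + trn F N).det ≠ 0) :
    ∃ X, Sm X ∧ mmul (mone + F) (mone + X) = mone ∧ mmul (mone + X) (mone + F) = mone := by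
  set A : Matrix (Fin N) (Fin N) ℂ := 1 + trn F N with hA
  have hu : IsUnit A.det := isUnit_iff_ne_zero.2 hd
  set E : Mat := p11E A⁻¹ with hE
  set P : Mat := p11P N with hP
  have sE : Sm E := p11_sm E (fun i j hi => p11_E_left _ j hi) (fun i j hj => p11_E_right _ i hj)
  have sP : Sm P := by
    refine p11_sm (N := N) P (fun i j hi => ?_) (fun i j hj => ?_)
    · exact if_neg fun h => absurd h.2 (not_lt.2 hi)
    · refine if_neg fun h => absurd h.2 (not_lt.2 (h.1 ▸ hj))
  have bF := sm_bd h
  have bE := sm_bd sE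
  have bP := sm_bd sP
  have bG : Bd (mone + F) := bd_add bd_mone bF
  -- `F P = F`
  have h1 : mmul F P = F := by
    funext i j
    rw [p11_mul_P]
    by_cases hj : j < N
    · rw [if_pos hj]
    · rw [if_neg hj, hF i j (not_lt.1 hj)]
  -- `P (1 + F) E = P`
  have h2 : mmul P (mmul (mone + F) E) = P := by
    funext i j
    rw [p11_P_mul]
    by_cases hi : i < N
    · rw [if_pos hi]
      by_cases hj : j < N
      · have e1 : mmul (mone + F) E i j = (A * A⁻¹) ⟨i, hi⟩ ⟨j, hj⟩ := by
          change ∑' k, (mone + F) i k * E k j = _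
          rw [tsum_eq_sum (s := range N) fun k hk => by
            rw [hE, p11_E_left _ j (not_lt.1 fun h' => hk (mem_range.2 h')), mul_zero],
            Finset.sum_range, Matrix.mul_apply]
          refine Finset.sum_congr rfl fun k _ => ?_
          rw [hA, p11_trn, hE]
          exact congrArg _ (p11_E_fin A⁻¹ k ⟨j, hj⟩)
        rw [e1, Matrix.mul_nonsing_inv _ hu, Matrix.one_apply, hP]
        unfold p11P
        by_cases hij : i = j
        · subst hij
          rw [if_pos rfl, if_pos ⟨rfl, hi⟩]
        · rw [if_neg fun h' => hij (congrArg Fin.val h'), if_neg fun h' => hij h'.1]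
      · have e1 : mmul (mone + F) E i j = 0 := by
          change ∑' k, (mone + F) i k * E k j = _
          rw [tsum_congr fun k => by
            rw [hE, p11_E_right _ k (not_lt.1 hj), mul_zero], tsum_zero]
        rw [e1, hP]
        unfold p11P
        rw [if_neg fun h' : i = j ∧ i < N => hj (h'.1 ▸ hi)]
    · rw [if_neg hi, hP]
      unfold p11P
      rw [if_neg fun h' => hi h'.2]
  -- `E (1 + F) = P`
  have h3 : mmul E (mone + F) = P := by
    funext i j
    by_cases hi : i < N
    · have e0 : mmul E (mone + F) i j = ∑ k : Fin N, A⁻¹ ⟨i, hi⟩ k * (mone + F) k j := by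
        change ∑' k, E i k * (mone + F) k j = _
        rw [tsum_eq_sum (s := range N) fun k hk => by
          rw [hE, p11_E_right _ i (not_lt.1 fun h' => hk (mem_range.2 h')), zero_mul],
          Finset.sum_range]
        refine Finset.sum_congr rfl fun k _ => ?_
        rw [hE]
        exact congrArg (fun z => z * (mone + F) k j) (p11_E_fin A⁻¹ ⟨i, hi⟩ k)
      rw [e0]
      by_cases hj : j < N
      · have e1 : ∑ k : Fin N, A⁻¹ ⟨i, hi⟩ k * (mone + F) k j = (A⁻¹ * A) ⟨i, hi⟩ ⟨j, hj⟩ := by
          rw [Matrix.mul_apply]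
          refine Finset.sum_congr rfl fun k _ => ?_
          rw [hA, p11_trn]
        rw [e1, Matrix.nonsing_inv_mul _ hu, Matrix.one_apply, hP]
        unfold p11P
        by_cases hij : i = j
        · subst hij
          rw [if_pos rfl, if_pos ⟨rfl, hi⟩]
        · rw [if_neg fun h' => hij (congrArg Fin.val h'), if_neg fun h' => hij h'.1]
      · have e1 : ∀ k : Fin N, (mone + F) k j = 0 := by
          intro k
          change mone k j + F k j = 0
          rw [hF k j (not_lt.1 hj), add_zero]
          unfold mone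
          rw [if_neg fun h' : (k : ℕ) = j => hj (h' ▸ k.2)]
        rw [Finset.sum_eq_zero fun k _ => by rw [e1 k, mul_zero], hP]
        unfold p11P
        rw [if_neg fun h' : i = j ∧ i < N => hj (h'.1 ▸ hi)]
    · have e0 : mmul E (mone + F) i j = 0 := by
        change ∑' k, E i k * (mone + F) k j = _
        rw [tsum_congr fun k => by
          rw [hE, p11_E_left _ k (not_lt.1 hi), zero_mul], tsum_zero]
      rw [e0, hP]
      unfold p11P
      rw [if_neg fun h' => hi h'.2]
  have bFE : Bd (mmul F E) := bd_mul bF bE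
  -- `F (1 + F) E = F`
  have h4 : mmul F (mmul (mone + F) E) = F := by
    have h5 := mmul_assoc bF bP (bd_mul bG bE)
    rw [h1, h2, h1] at h5
    exact h5
  refine ⟨-mmul F E, sm_neg (sm_mulL bF sE), ?_, ?_⟩
  · rw [add_mmul bd_mone bF bE, mone_mmul, mmul_add bF bE bFE] at h4
    rw [mmul_add bG bd_mone (bd_neg bFE), mmul_mone, mmul_neg, add_mmul bd_mone bF bFE, mone_mmul,
      h4]
    abel
  · rw [add_mmul bd_mone (bd_neg bFE) bG, mone_mmul, neg_mmul, mmul_assoc bF bE bG, h3, h1]
    abel

end Pool.Agent.Helper11.LT
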