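import Pool.Agent.Helper11.LT.P9
import Pool.Agent.Helper11.LT.P10
import Pool.Agent.Helper11.LT.P11

/-!
PROJECT LT, piece P12. K2 = columns >= N of K with nm K2 < 1 (tails of a summable family), 1 + Y = (1+K2)^-1 (exists_inv_small), F = (1+Y)(K - K2) has only columns < N; 1 + K = (1+K2)(1+F); fd K = fd K2 * fd F (fd_mul), so fd F <> 0; fd_cols_zero, exists_inv_cols.
-/

namespace Pool.Agent.Helper11.LT

open Finset Filter Topology Pool.Agent.Helper34.LT

private theorem p12_mul {A B : Mat} (hA : Bd A) (hB : Bd B) :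
    mmul (mone + A) (mone + B) = mone + (A + B + mmul A B) := by
  rw [mmul_add (bd_add bd_mone hA) bd_mone hB, mmul_mone, add_mmul bd_mone hA hB, mone_mmul]
  abel

private def p12_col (K : Mat) (N : ℕ) : Mat := fun i j => if N ≤ j then K i j else 0

private theorem p12_le (K : Mat) (N : ℕ) (p : ℕ × ℕ) :
    ‖p12_col K N p.1 p.2‖ ≤ ‖K p.1 p.2‖ := by
  unfold p12_col
  split_ifs
  · exact le_rfl
  · rw [norm_zero]
    exact norm_nonneg _

private theorem p12_sm {K : Mat} (h : Sm K) (N : ℕ) : Sm (p12_col K N) :=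
  Summable.of_nonneg_of_le (fun _ => norm_nonneg _) (p12_le K N) h

private theorem p12_lim {K : Mat} (h : Sm K) :
    Tendsto (fun N => nm (p12_col K N)) atTop (𝓝 0) := by
  have h1 : ∀ p : ℕ × ℕ, Tendsto (fun N => ‖p12_col K N p.1 p.2‖) atTop (𝓝 0) := by
    intro p
    refine tendsto_const_nhds.congr' ?_
    filter_upwards [eventually_gt_atTop p.2] with N h1
    unfold p12_col
    rw [if_neg (by omega), norm_zero]
  have h2 : ∀ᶠ N in atTop, ∀ p : ℕ × ℕ, ‖‖p12_col K N p.1 p.2‖‖ ≤ ‖K p.1 p.2‖ := by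
    refine Eventually.of_forall fun N p => ?_
    rw [norm_norm]
    exact p12_le K N p
  have h3 := tendsto_tsum_of_dominated_convergence (f := fun N (p : ℕ × ℕ) =>
    ‖p12_col K N p.1 p.2‖) (g := fun _ => (0 : ℝ)) h h1 h2
  rw [tsum_zero] at h3
  exact h3

/-- `1 + K = (1 + K₂)(1 + F)`, `K₂` the columns from `N` on, `nm K₂ < 1`,
`F = (1 + K₂)⁻¹ (K - K₂)` -/
theorem exists_inv {K : Mat} (h : Sm K) (hd : fd K ≠ 0) :
    ∃ X, Sm X ∧ mmul (mone + K) (mone + X) = mone ∧ mmul (mone + X) (mone + K) = mone := by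
  obtain ⟨N, hN⟩ := ((p12_lim h).eventually (gt_mem_nhds (zero_lt_one (α := ℝ)))).exists
  obtain ⟨K2, hK2⟩ : ∃ K2, K2 = p12_col K N := ⟨_, rfl⟩
  rw [← hK2] at hN
  have s2 : Sm K2 := by rw [hK2]; exact p12_sm h N
  obtain ⟨Y, sY, y1, y2⟩ := exists_inv_small s2 hN
  have sD : Sm (K - K2) := sm_sub h s2
  have bK := sm_bd h
  have b2 := sm_bd s2
  have bY := sm_bd sY
  have bD := sm_bd sD
  have b1 : ∀ {A : Mat}, Bd A → Bd (mone + A) := fun hA => bd_add bd_mone hA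
  obtain ⟨F, hF⟩ : ∃ F, F = mmul (mone + Y) (K - K2) := ⟨_, rfl⟩
  have sF : Sm F := by rw [hF]; exact sm_mulL (b1 bY) sD
  have bF := sm_bd sF
  have hF0 : ∀ i j, N ≤ j → F i j = 0 := by
    intro i j hj
    rw [hF]
    change ∑' k, (mone + Y) i k * (K k j - K2 k j) = 0
    rw [← tsum_zero (α := ℂ) (β := ℕ)]
    refine tsum_congr fun k => ?_
    rw [hK2]
    unfold p12_col
    rw [if_pos hj, sub_self, mul_zero]
  have hfac : mmul (mone + K2) (mone + F) = mone + K := by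
    rw [mmul_add (b1 b2) bd_mone bF, mmul_mone, hF, ← mmul_assoc (b1 b2) (b1 bY) bD, y1,
      mone_mmul]
    abel
  have hK : K = K2 + F + mmul K2 F := by
    have h1 := hfac
    rw [p12_mul b2 bF] at h1
    exact (add_left_cancel h1).symm
  have hfd : fd K = fd K2 * fd F := by
    rw [← fd_mul s2 sF, ← hK]
  have hfF : fd F ≠ 0 := by
    intro h0
    rw [h0, mul_zero] at hfd
    exact hd hfd
  rw [fd_cols_zero hF0] at hfF
  obtain ⟨X', sX', x1, x2⟩ := exists_inv_cols sF hF0 hfF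
  have bX' := sm_bd sX'
  refine ⟨X' + Y + mmul X' Y, sm_add (sm_add sX' sY) (sm_mulL bX' sY), ?_, ?_⟩
  · rw [← p12_mul bX' bY, ← hfac, mmul_assoc (b1 b2) (b1 bF) (bd_mul (b1 bX') (b1 bY)),
      ← mmul_assoc (b1 bF) (b1 bX') (b1 bY), x1, mone_mmul, y1]
  · rw [← p12_mul bX' bY, ← hfac, mmul_assoc (b1 bX') (b1 bY) (bd_mul (b1 b2) (b1 bF)),
      ← mmul_assoc (b1 bY) (b1 b2) (b1 bF), y2, mone_mmul, x2]

end Pool.Agent.Helper11.LT
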