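import Mathlib

/-!
PROJECT LT, piece P14. Locally uniform limits of holomorphic functions on a complex normed space. Cauchy estimate on complex lines: norm (fderiv G x) <= sup over ball(x,1) of |G| (Complex.norm_deriv_le_of_forall_mem_sphere_norm_le for s -> G (x + s v)); so the derivatives of F N are uniformly Cauchy on balls: hasFDerivAt_of_tendstoUniformlyOn (or ..LocallyUniformly..).
-/

namespace Pool.Agent.Helper11.LT

open Finset Filter Topology

private theorem p14_cauchy {E : Type} [NormedAddCommGroup E] [NormedSpace ℂ E]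
    {G : E → ℂ} (hG : Differentiable ℂ G) {x : E} {C : ℝ} (hC0 : 0 ≤ C)
    (hC : ∀ z, ‖z - x‖ ≤ 1 → ‖G z‖ ≤ C) : ‖fderiv ℂ G x‖ ≤ C := by
  refine ContinuousLinearMap.opNorm_le_bound _ hC0 fun v => ?_
  by_cases hv : v = 0
  · rw [hv, map_zero, norm_zero, norm_zero, mul_zero]
  have hv0 : 0 < ‖v‖ := norm_pos_iff.2 hv
  obtain ⟨w, hw⟩ : ∃ w : E, w = ((‖v‖⁻¹ : ℝ) : ℂ) • v := ⟨_, rfl⟩
  have hw1 : ‖w‖ = 1 := by
    rw [hw, norm_smul, Complex.norm_real, norm_inv, norm_norm, inv_mul_cancel₀ hv0.ne']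
  have hvw : v = (‖v‖ : ℂ) • w := by
    rw [hw, smul_smul, ← Complex.ofReal_mul, mul_inv_cancel₀ hv0.ne', Complex.ofReal_one, one_smul]
  have hl : HasDerivAt (fun s : ℂ => x + s • w) w 0 := by
    have h1 := ((hasDerivAt_id (0 : ℂ)).smul_const w).const_add x
    rw [one_smul] at h1
    exact h1
  have hd : Differentiable ℂ fun s : ℂ => G (x + s • w) := by
    refine hG.comp ?_
    fun_prop
  have h1 : HasDerivAt (fun s : ℂ => G (x + s • w)) (fderiv ℂ G x w) 0 := by
    have h2 : HasFDerivAt G (fderiv ℂ G x) (x + (0 : ℂ) • w) := by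
      rw [zero_smul, add_zero]
      exact (hG x).hasFDerivAt
    exact h2.comp_hasDerivAt (0 : ℂ) hl
  have h3 := Complex.norm_deriv_le_of_forall_mem_sphere_norm_le (c := (0 : ℂ)) (R := 1) (C := C)
    (f := fun s : ℂ => G (x + s • w)) one_pos hd.diffContOnCl (fun s hs => by
      refine hC _ ?_
      rw [add_sub_cancel_left, norm_smul, hw1, mul_one]
      rw [mem_sphere_zero_iff_norm] at hs
      exact hs.le)
  rw [h1.deriv, div_one] at h3
  have h4 : fderiv ℂ G x v = (‖v‖ : ℂ) * fderiv ℂ G x w := by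
    conv_lhs => rw [hvw]
    rw [map_smul, smul_eq_mul]
  rw [h4, norm_mul, Complex.norm_real, norm_norm, mul_comm]
  exact mul_le_mul_of_nonneg_right h3 hv0.le

/-- locally uniform limits of holomorphic functions of several variables -/
theorem differentiable_of_unif {E : Type} [NormedAddCommGroup E] [NormedSpace ℂ E]
    {F : ℕ → E → ℂ} {f : E → ℂ} (hF : ∀ N, Differentiable ℂ (F N))
    (hu : ∀ R : ℝ, TendstoUniformlyOn F f atTop (Metric.closedBall 0 R)) :
    Differentiable ℂ f := by
  have hC : ∀ R : ℝ, UniformCauchySeqOn (fun n x => fderiv ℂ (F n) x) atTop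
      (Metric.ball 0 R) := by
    intro R
    rw [Metric.uniformCauchySeqOn_iff]
    intro ε hε
    obtain ⟨N, hN⟩ := Metric.uniformCauchySeqOn_iff.1 (hu (R + 1)).uniformCauchySeqOn (ε / 2)
      (half_pos hε)
    refine ⟨N, fun m hm n hn x hx => ?_⟩
    rw [dist_eq_norm, ← fderiv_sub (hF m x) (hF n x)]
    refine lt_of_le_of_lt (p14_cauchy ((hF m).sub (hF n)) (half_pos hε).le fun z hz => ?_)
      (half_lt_self hε)
    have h1 : z ∈ Metric.closedBall (0 : E) (R + 1) := by
      rw [mem_closedBall_zero_iff]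
      rw [mem_ball_zero_iff] at hx
      have h2 := norm_add_le (z - x) x
      rw [sub_add_cancel] at h2
      linarith
    have h3 := hN m hm n hn z h1
    rw [dist_eq_norm] at h3
    exact h3.le
  have hlim : ∀ x : E, ∃ g : E →L[ℂ] ℂ, Tendsto (fun n => fderiv ℂ (F n) x) atTop (𝓝 g) := by
    intro x
    refine cauchySeq_tendsto_of_complete ?_
    exact (hC (‖x‖ + 1)).cauchySeq (by
      rw [mem_ball_zero_iff]
      linarith)
  choose g hg using hlim
  intro x
  have hx : x ∈ Metric.ball (0 : E) (‖x‖ + 1) := by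
    rw [mem_ball_zero_iff]
    linarith
  have h1 : TendstoUniformlyOn (fun n x => fderiv ℂ (F n) x) g atTop
      (Metric.ball 0 (‖x‖ + 1)) :=
    (hC (‖x‖ + 1)).tendstoUniformlyOn_of_tendsto fun y _ => hg y
  exact (hasFDerivAt_of_tendstoUniformlyOn (f := F) (g := f) Metric.isOpen_ball h1
    (fun n y _ => (hF n y).hasFDerivAt)
    (fun y hy => (hu (‖x‖ + 1)).tendsto_at (Metric.ball_subset_closedBall hy)) hx).differentiableAt

end Pool.Agent.Helper11.LT
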