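import Pool.Agent.Helper11.LT.P8
import Pool.Agent.Helper11.LT.P14

/-!
PROJECT LT, piece P13. Uniform convergence under a majorant (det_lip, nm (K - cut K N) <= tail of B), holomorphic dependence (differentiable_of_unif; the truncated determinants are polynomials in the entries).
-/

namespace Pool.Agent.Helper11.LT

open Finset Filter Topology Pool.Agent.Helper34.LT

private theorem p13_sm {K B : Mat} (hB : Sm B) (h : ∀ i j, ‖K i j‖ ≤ ‖B i j‖) : Sm K :=
  Summable.of_nonneg_of_le (fun _ => norm_nonneg _) (fun p => h p.1 p.2) hB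

private theorem p13_nm {K B : Mat} (hB : Sm B) (h : ∀ i j, ‖K i j‖ ≤ ‖B i j‖) : nm K ≤ nm B :=
  (p13_sm hB h).tsum_le_tsum (fun p => h p.1 p.2) hB

private theorem p13_det {K : Mat} (N : ℕ) : fd (cut K N) = (1 + trn K N).det := by
  rw [fd_rows_zero (N := N) (K := cut K N) (fun i j hi => by
    unfold cut
    rw [if_neg fun h => absurd h.1 (not_lt.2 hi)]), trn_cut]

private theorem p13_le {K B : Mat} (hB : Sm B) (h : ∀ i j, ‖K i j‖ ≤ ‖B i j‖) (N : ℕ) :
    ‖fd K - (1 + trn K N).det‖ ≤ nm (B - cut B N) * Real.exp (nm B + nm B) := by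
  have hK := p13_sm hB h
  have h1 : nm (K - cut K N) ≤ nm (B - cut B N) := by
    refine p13_nm (sm_sub hB (sm_cut B N)) fun i j => ?_
    change ‖K i j - cut K N i j‖ ≤ ‖B i j - cut B N i j‖
    unfold cut
    split_ifs
    · rw [sub_self, sub_self]
    · rw [sub_zero, sub_zero]
      exact h i j
  have h2 : nm (cut K N) ≤ nm B := (nm_cut_le hK N).trans (p13_nm hB h)
  rw [← p13_det]
  refine (fd_lip hK (sm_cut K N)).trans ?_
  refine mul_le_mul h1 (Real.exp_le_exp.2 (add_le_add (p13_nm hB h) h2)) (Real.exp_pos _).le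
    (nm_nonneg _)

/-- uniform convergence of the truncated determinants under a common majorant -/
theorem fd_unif {E : Type} {K : E → Mat} {S : Set E} {B : ℕ × ℕ → ℝ} (hB : Summable B)
    (hK : ∀ t ∈ S, ∀ i j, ‖K t i j‖ ≤ B (i, j)) :
    TendstoUniformlyOn (fun N t => (1 + trn (K t) N).det) (fun t => fd (K t)) atTop S := by
  obtain ⟨M, hM⟩ : ∃ M : Mat, M = fun i j => (B (i, j) : ℂ) := ⟨_, rfl⟩
  have hMs : Sm M := by
    rw [hM]
    refine (hB.norm).congr fun p => ?_
    change ‖B p‖ = ‖(B (p.1, p.2) : ℂ)‖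
    rw [Complex.norm_real]
  have hle : ∀ t ∈ S, ∀ i j, ‖K t i j‖ ≤ ‖M i j‖ := by
    intro t ht i j
    refine (hK t ht i j).trans ?_
    rw [hM]
    change B (i, j) ≤ ‖(B (i, j) : ℂ)‖
    rw [Complex.norm_real]
    exact Real.le_norm_self _
  have hlim : Tendsto (fun N => nm (M - cut M N) * Real.exp (nm M + nm M)) atTop (𝓝 0) := by
    have h1 := (tendsto_cut hMs).mul_const (Real.exp (nm M + nm M))
    rwa [zero_mul] at h1
  rw [Metric.tendstoUniformlyOn_iff]
  intro ε hε
  filter_upwards [hlim.eventually_lt_const hε] with N hN t ht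
  rw [dist_eq_norm]
  exact (p13_le hMs (hle t ht) N).trans_lt hN

private theorem p13_prod {E : Type} [NormedAddCommGroup E] [NormedSpace ℂ E] {ι : Type}
    (s : Finset ι) (f : ι → E → ℂ) (hf : ∀ i, Differentiable ℂ (f i)) :
    Differentiable ℂ fun t => ∏ i ∈ s, f i t := by
  classical
  induction s using Finset.induction_on with
  | empty =>
    simp only [Finset.prod_empty]
    exact differentiable_const _
  | insert a s ha ih =>
    simp only [Finset.prod_insert ha]
    exact (hf a).mul ih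

/-- holomorphic dependence -/
theorem fd_diff {E : Type} [NormedAddCommGroup E] [NormedSpace ℂ E] {K : E → Mat}
    (hd : ∀ i j, Differentiable ℂ fun t => K t i j)
    (hB : ∀ R : ℝ, ∃ B : ℕ × ℕ → ℝ, Summable B ∧
      ∀ t ∈ Metric.closedBall (0 : E) R, ∀ i j, ‖K t i j‖ ≤ B (i, j)) :
    Differentiable ℂ fun t => fd (K t) := by
  refine differentiable_of_unif (F := fun N t => (1 + trn (K t) N).det) (fun N => ?_) fun R => ?_
  · have h1 : (fun t => (1 + trn (K t) N).det) = fun t => ∑ σ : Equiv.Perm (Fin N),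
        ((Equiv.Perm.sign σ : ℤ) : ℂ) * ∏ i, ((1 : Matrix (Fin N) (Fin N) ℂ) (σ i) i + K t (σ i) i) := by
      funext t
      rw [Matrix.det_apply']
      rfl
    rw [h1]
    refine Differentiable.fun_sum fun σ _ => ?_
    refine Differentiable.const_mul ?_ _
    exact p13_prod _ _ fun i => (hd _ _).const_add _
  · obtain ⟨B, h1, h2⟩ := hB R
    exact fd_unif h1 h2

end Pool.Agent.Helper11.LT
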