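import Pool.Agent.Helper34.LT.Fd

/-!
PROJECT LT, piece T2. Uniqueness of power series on norm s <= 1/2 (Cauchy product, then HasFPowerSeriesAt / eqOn zero).
-/

namespace Pool.Agent.Helper11.LT

open Finset Filter Topology Pool.Agent.Helper34.LT

private theorem t2_zero {d : ℕ → ℂ} (hd : Summable fun k => ‖d k‖ * (2 : ℝ)⁻¹ ^ k)
    (h : ∀ s : ℂ, ‖s‖ ≤ 2⁻¹ → ∑' k, d k * s ^ k = 0) (n : ℕ) : d n = 0 := by
  have hs : ∀ s : ℂ, ‖s‖ ≤ 2⁻¹ → Summable fun k => d k * s ^ k := by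
    intro s hs
    refine Summable.of_norm_bounded hd fun k => ?_
    rw [norm_mul, norm_pow]
    exact mul_le_mul_of_nonneg_left (pow_le_pow_left₀ (norm_nonneg s) hs k) (norm_nonneg _)
  have hb : HasFPowerSeriesOnBall (0 : ℂ → ℂ) (FormalMultilinearSeries.ofScalars ℂ d) 0
      ((2⁻¹ : NNReal) : ENNReal) := by
    refine ⟨?_, ?_, ?_⟩
    · refine FormalMultilinearSeries.le_radius_of_summable_norm _ ?_
      refine hd.congr fun k => ?_
      rw [FormalMultilinearSeries.ofScalars_norm]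
      norm_num
    · norm_num
    · intro y hy
      have hy' : ‖y‖ ≤ 2⁻¹ := by
        rw [Metric.eball_coe, mem_ball_zero_iff] at hy
        exact hy.le.trans (by norm_num)
      have h1 := (hs y hy').hasSum
      rw [h y hy'] at h1
      simp only [FormalMultilinearSeries.ofScalars_apply_eq, smul_eq_mul]
      exact h1
  have h0 := hb.hasFPowerSeriesAt.eq_zero
  have h1 : FormalMultilinearSeries.ofScalars ℂ d n (fun _ => (1 : ℂ)) = 0 := by
    rw [h0]
    rfl
  rw [FormalMultilinearSeries.ofScalars_apply_eq, one_pow, smul_eq_mul, mul_one] at h1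
  exact h1

/-- uniqueness of power series -/
theorem conv_of_inv {f g : ℕ → ℂ} (hf : Summable fun k => ‖f k‖ * (2 : ℝ)⁻¹ ^ k)
    (hg : Summable fun k => ‖g k‖ * (2 : ℝ)⁻¹ ^ k)
    (h : ∀ s : ℂ, ‖s‖ ≤ 2⁻¹ → (∑' k, f k * s ^ k) * (∑' k, g k * s ^ k) = 1) (n : ℕ) :
    ∑ p ∈ antidiagonal n, f p.1 * g p.2 = if n = 0 then 1 else 0 := by
  have hsf : ∀ s : ℂ, ‖s‖ ≤ 2⁻¹ → Summable fun k => ‖f k * s ^ k‖ := by
    intro s hs
    refine Summable.of_nonneg_of_le (fun k => norm_nonneg _) (fun k => ?_) hf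
    rw [norm_mul, norm_pow]
    exact mul_le_mul_of_nonneg_left (pow_le_pow_left₀ (norm_nonneg s) hs k) (norm_nonneg _)
  have hsg : ∀ s : ℂ, ‖s‖ ≤ 2⁻¹ → Summable fun k => ‖g k * s ^ k‖ := by
    intro s hs
    refine Summable.of_nonneg_of_le (fun k => norm_nonneg _) (fun k => ?_) hg
    rw [norm_mul, norm_pow]
    exact mul_le_mul_of_nonneg_left (pow_le_pow_left₀ (norm_nonneg s) hs k) (norm_nonneg _)
  have hconv : ∀ (s : ℂ) (m : ℕ), ∑ p ∈ antidiagonal m, (f p.1 * s ^ p.1) * (g p.2 * s ^ p.2) =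
      (∑ p ∈ antidiagonal m, f p.1 * g p.2) * s ^ m := by
    intro s m
    rw [Finset.sum_mul]
    refine Finset.sum_congr rfl fun p hp => ?_
    rw [← mem_antidiagonal.1 hp, pow_add]
    ring
  have hnf : Summable fun k => ‖(fun k => ‖f k‖ * (2 : ℝ)⁻¹ ^ k) k‖ := hf.norm
  have hng : Summable fun k => ‖(fun k => ‖g k‖ * (2 : ℝ)⁻¹ ^ k) k‖ := hg.norm
  have hc : Summable fun m => ‖∑ p ∈ antidiagonal m, f p.1 * g p.2‖ * (2 : ℝ)⁻¹ ^ m := by
    have h1 := (summable_norm_sum_mul_antidiagonal_of_summable_norm hnf hng).of_norm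
    refine Summable.of_nonneg_of_le (fun m => by positivity) (fun m => ?_) h1
    calc ‖∑ p ∈ antidiagonal m, f p.1 * g p.2‖ * (2 : ℝ)⁻¹ ^ m
        ≤ (∑ p ∈ antidiagonal m, ‖f p.1 * g p.2‖) * (2 : ℝ)⁻¹ ^ m :=
          mul_le_mul_of_nonneg_right (norm_sum_le _ _) (by positivity)
      _ = ∑ p ∈ antidiagonal m, (‖f p.1‖ * (2 : ℝ)⁻¹ ^ p.1) * (‖g p.2‖ * (2 : ℝ)⁻¹ ^ p.2) := by
          rw [Finset.sum_mul]
          refine Finset.sum_congr rfl fun p hp => ?_
          rw [← mem_antidiagonal.1 hp, pow_add, norm_mul]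
          ring
  have hd : Summable fun m => ‖(∑ p ∈ antidiagonal m, f p.1 * g p.2) -
      (if m = 0 then (1 : ℂ) else 0)‖ * (2 : ℝ)⁻¹ ^ m := by
    have h1 : Summable fun m : ℕ => if m = 0 then (1 : ℝ) else 0 :=
      summable_of_ne_finset_zero (s := {0}) fun m hm => if_neg (by simpa using hm)
    refine Summable.of_nonneg_of_le (fun m => by positivity) (fun m => ?_) (hc.add h1)
    rcases Nat.eq_zero_or_pos m with rfl | hm
    · rw [if_pos rfl, if_pos rfl, pow_zero, mul_one, mul_one]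
      refine (norm_sub_le _ _).trans ?_
      rw [norm_one]
    · rw [if_neg hm.ne', if_neg hm.ne', sub_zero, add_zero]
  have hz : ∀ s : ℂ, ‖s‖ ≤ 2⁻¹ → ∑' m, ((∑ p ∈ antidiagonal m, f p.1 * g p.2) -
      (if m = 0 then (1 : ℂ) else 0)) * s ^ m = 0 := by
    intro s hs
    have h1 := tsum_mul_tsum_eq_tsum_sum_antidiagonal_of_summable_norm (hsf s hs) (hsg s hs)
    rw [h s hs] at h1
    simp only [hconv] at h1
    have h2 : Summable fun m => (∑ p ∈ antidiagonal m, f p.1 * g p.2) * s ^ m := by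
      have h3 := (summable_norm_sum_mul_antidiagonal_of_summable_norm (hsf s hs)
        (hsg s hs)).of_norm
      simp only [hconv] at h3
      exact h3
    have h4 : HasSum (fun m : ℕ => (if m = 0 then (1 : ℂ) else 0) * s ^ m) 1 := by
      have h5 := hasSum_single (f := fun m : ℕ => (if m = 0 then (1 : ℂ) else 0) * s ^ m) 0
        (fun m hm => by rw [if_neg hm, zero_mul])
      simpa using h5
    simp only [sub_mul]
    rw [h2.tsum_sub h4.summable, h4.tsum_eq, ← h1, sub_self]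
  exact sub_eq_zero.1 (t2_zero hd hz n)

end Pool.Agent.Helper11.LT
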