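import Pool.Agent.Helper11.LT.F0a

/-!
PROJECT LT, piece T3. Commutator of Toeplitz matrices = product of Hankel matrices.
-/

namespace Pool.Agent.Helper11.LT

open Finset Filter Topology Pool.Agent.Helper34.LT

private theorem T3_geom {u : ℕ → ℝ} (hu : Summable u) (hu0 : ∀ n, 0 ≤ u n) :
    (∀ j, Summable fun k => (2 : ℝ)⁻¹ ^ k * u (k + j + 1)) ∧
      Summable fun j => ∑' k, (2 : ℝ)⁻¹ ^ k * u (k + j + 1) := by
  have h1 : Summable fun x : ℕ × ℕ => (2 : ℝ)⁻¹ ^ x.1 * u (x.1 + x.2 + 1) := by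
    have h2 : ∀ k, Summable fun j => (2 : ℝ)⁻¹ ^ k * u (k + j + 1) := by
      intro k
      refine Summable.mul_left _ ?_
      have h3 := (summable_nat_add_iff (k + 1)).2 hu
      refine h3.congr fun j => ?_
      congr 1
      ring
    rw [summable_prod_of_nonneg (fun x => mul_nonneg (by positivity) (hu0 _))]
    refine ⟨h2, ?_⟩
    refine Summable.of_nonneg_of_le (fun k => tsum_nonneg fun j =>
      mul_nonneg (by positivity) (hu0 _)) (fun k => ?_)
      ((summable_geometric_of_lt_one (by norm_num : (0 : ℝ) ≤ 2⁻¹) (by norm_num)).mul_right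
        (∑' n, u n))
    show ∑' y : ℕ, (2 : ℝ)⁻¹ ^ k * u (k + y + 1) ≤ (2 : ℝ)⁻¹ ^ k * ∑' n, u n
    rw [tsum_mul_left]
    refine mul_le_mul_of_nonneg_left ?_ (by positivity)
    have h3 := hu.sum_add_tsum_nat_add (k + 1)
    have h4 : ∑' j, u (k + j + 1) = ∑' j, u (j + (k + 1)) := by
      congr 1
      funext j
      congr 1
      ring
    rw [h4, ← h3]
    have h5 : 0 ≤ ∑ i ∈ range (k + 1), u i := Finset.sum_nonneg fun i _ => hu0 i
    linarith
  have h2 : Summable fun x : ℕ × ℕ => (2 : ℝ)⁻¹ ^ x.2 * u (x.2 + x.1 + 1) := by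
    have h3 := h1.prod_symm
    exact h3
  rw [summable_prod_of_nonneg (fun x => mul_nonneg (by positivity) (hu0 _))] at h2
  exact h2

private theorem T3_entry {u l : ℕ → ℂ} (hu : Summable fun k => ‖u k‖) {M : ℝ}
    (hl : ∀ k, ‖l k‖ ≤ M) (i j : ℕ) :
    (∑' k, (if i ≤ k then u (k - i) else 0) * (if j ≤ k then l (k - j) else 0)) -
      (∑' k, (if k ≤ i then l (i - k) else 0) * (if k ≤ j then u (j - k) else 0)) =
      ∑' k, u (k + j + 1) * l (k + i + 1) := by
  let G : ℕ → ℂ := fun b => if j ≤ b + i then u b * l (b + i - j) else 0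
  have hG : Summable G := by
    refine Summable.of_norm_bounded (hu.mul_right M) fun b => ?_
    simp only [G]
    split_ifs
    · rw [norm_mul]
      exact mul_le_mul_of_nonneg_left (hl _) (norm_nonneg _)
    · rw [norm_zero]
      exact mul_nonneg (norm_nonneg _) ((norm_nonneg _).trans (hl 0))
  have h1 : (∑' k, (if i ≤ k then u (k - i) else 0) * (if j ≤ k then l (k - j) else 0)) =
      ∑' b, G b := by
    let H : ℕ → ℂ := fun k => (if i ≤ k then u (k - i) else 0) * (if j ≤ k then l (k - j) else 0)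
    have hH : ∀ b, H (b + i) = G b := by
      intro b
      simp only [H, G]
      rw [if_pos (Nat.le_add_left i b), Nat.add_sub_cancel]
      split_ifs
      · rfl
      · rw [mul_zero]
    have hHs : Summable H := by
      rw [← summable_nat_add_iff i]
      exact hG.congr fun b => (hH b).symm
    have h2 := hHs.sum_add_tsum_nat_add i
    have h3 : ∑ k ∈ range i, H k = 0 := by
      refine Finset.sum_eq_zero fun k hk => ?_
      simp only [H]
      rw [if_neg (by have := Finset.mem_range.1 hk; omega), zero_mul]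
    rw [h3, zero_add] at h2
    rw [← h2]
    exact tsum_congr hH
  have h2 : (∑' k, (if k ≤ i then l (i - k) else 0) * (if k ≤ j then u (j - k) else 0)) =
      ∑ b ∈ range (j + 1), G b := by
    rw [tsum_eq_sum (s := range (j + 1)) (fun k hk => by
      rw [if_neg (c := k ≤ j) (by intro h; apply hk; exact Finset.mem_range.2 (by omega)), mul_zero])]
    rw [← Finset.sum_range_reflect]
    refine Finset.sum_congr rfl fun b hb => ?_
    have hb' := Finset.mem_range.1 hb
    simp only [G]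
    have e1 : j + 1 - 1 - b = j - b := by omega
    rw [e1, if_pos (c := j - b ≤ j) (by omega)]
    by_cases h : j ≤ b + i
    · rw [if_pos (by omega), if_pos h, mul_comm]
      congr 2 <;> omega
    · rw [if_neg (by omega), if_neg h, zero_mul]
  rw [h1, h2]
  have h3 := hG.sum_add_tsum_nat_add (j + 1)
  rw [← h3, add_sub_cancel_left]
  refine tsum_congr fun k => ?_
  simp only [G]
  rw [if_pos (by omega)]
  congr 2
  omega

/-- `∑ h_{i+1+k} f_{j+1+k}` with the weight `2^{i-j}` is absolutely summable over `i, j, k`, and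
`U L - L U` is this product of Hankel matrices -/
theorem comm_sm {f h : ℕ → ℂ} (hf : Summable fun k => ‖f k‖ * (2 : ℝ)⁻¹ ^ k)
    (hh : Summable fun l => ‖h l‖ * (4 : ℝ) ^ l) :
    Sm (mmul (Uw f) (wt fun i j => if j ≤ i then h (i - j) else 0) -
      mmul (wt fun i j => if j ≤ i then h (i - j) else 0) (Uw f)) := by
  let u : ℕ → ℂ := fun k => (2 : ℂ)⁻¹ ^ k * f k
  let l : ℕ → ℂ := fun k => (2 : ℂ) ^ k * h k
  have hun : ∀ k, ‖u k‖ = ‖f k‖ * (2 : ℝ)⁻¹ ^ k := by
    intro k
    simp only [u]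
    rw [norm_mul, norm_pow, norm_inv, Complex.norm_ofNat, mul_comm]
  have hln : ∀ k, ‖l k‖ = (2 : ℝ) ^ k * ‖h k‖ := by
    intro k
    simp only [l]
    rw [norm_mul, norm_pow, Complex.norm_ofNat]
  have hu : Summable fun k => ‖u k‖ := by
    simp only [hun]
    exact hf
  obtain ⟨M, hM⟩ : ∃ M : ℝ, ∀ k, ‖h k‖ * (4 : ℝ) ^ k ≤ M :=
    ⟨∑' k, ‖h k‖ * (4 : ℝ) ^ k, fun k => hh.le_tsum k fun _ _ => by positivity⟩
  have hM0 : 0 ≤ M := le_trans (by positivity) (hM 0)
  have hl : ∀ k, ‖l k‖ ≤ M * (2 : ℝ)⁻¹ ^ k := by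
    intro k
    rw [hln]
    have h1 : (2 : ℝ) ^ k * ‖h k‖ = ‖h k‖ * (4 : ℝ) ^ k * (2 : ℝ)⁻¹ ^ k := by
      have h2 : (4 : ℝ) ^ k = 2 ^ k * 2 ^ k := by
        rw [← mul_pow]
        norm_num
      rw [h2, inv_pow]
      field_simp
    rw [h1]
    exact mul_le_mul_of_nonneg_right (hM k) (by positivity)
  have hl' : ∀ k, ‖l k‖ ≤ M := fun k => (hl k).trans (by
    calc M * (2 : ℝ)⁻¹ ^ k ≤ M * 1 :=
          mul_le_mul_of_nonneg_left (pow_le_one₀ (by norm_num) (by norm_num)) hM0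
      _ = M := mul_one M)
  have eU : ∀ i j, Uw f i j = if i ≤ j then u (j - i) else 0 := by
    intro i j
    simp only [Uw, wt]
    split_ifs with h1
    · simp only [u]
      congr 1
      rw [inv_pow, ← zpow_natCast, ← zpow_neg]
      congr 1
      push_cast [Nat.cast_sub h1]
      ring
    · rw [mul_zero]
  have eL : ∀ i j, wt (fun i j => if j ≤ i then h (i - j) else 0) i j =
      if j ≤ i then l (i - j) else 0 := by
    intro i j
    simp only [wt]
    split_ifs with h1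
    · simp only [l]
      congr 1
      rw [← zpow_natCast]
      congr 1
      push_cast [Nat.cast_sub h1]
      ring
    · rw [mul_zero]
  obtain ⟨hc1, hc2⟩ := T3_geom hu (fun _ => norm_nonneg _)
  unfold Sm
  refine Summable.of_nonneg_of_le (fun _ => norm_nonneg _) (fun x => ?_)
    (Summable.mul_of_nonneg (f := fun i => M * (2 : ℝ)⁻¹ ^ i)
      ((summable_geometric_of_lt_one (by norm_num : (0 : ℝ) ≤ 2⁻¹) (by norm_num)).mul_left M) hc2
      (fun i => by positivity) (fun j => tsum_nonneg fun k => by positivity))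
  obtain ⟨i, j⟩ := x
  have h1 : (mmul (Uw f) (wt fun i j => if j ≤ i then h (i - j) else 0) -
      mmul (wt fun i j => if j ≤ i then h (i - j) else 0) (Uw f)) i j =
      ∑' k, u (k + j + 1) * l (k + i + 1) := by
    rw [← T3_entry hu hl' i j]
    show mmul (Uw f) (wt fun i j => if j ≤ i then h (i - j) else 0) i j -
      mmul (wt fun i j => if j ≤ i then h (i - j) else 0) (Uw f) i j = _
    unfold mmul
    simp only [eU, eL]
  show ‖(mmul (Uw f) (wt fun i j => if j ≤ i then h (i - j) else 0) -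
      mmul (wt fun i j => if j ≤ i then h (i - j) else 0) (Uw f)) i j‖ ≤
    M * (2 : ℝ)⁻¹ ^ i * ∑' k, (2 : ℝ)⁻¹ ^ k * ‖u (k + j + 1)‖
  rw [h1, ← tsum_mul_left]
  have h2 : ∀ k, ‖u (k + j + 1) * l (k + i + 1)‖ ≤
      M * (2 : ℝ)⁻¹ ^ i * ((2 : ℝ)⁻¹ ^ k * ‖u (k + j + 1)‖) := by
    intro k
    rw [norm_mul]
    have h3 : (2 : ℝ)⁻¹ ^ (k + i + 1) ≤ (2 : ℝ)⁻¹ ^ i * (2 : ℝ)⁻¹ ^ k := by
      rw [← pow_add]
      exact pow_le_pow_of_le_one (by norm_num) (by norm_num) (by omega)
    calc ‖u (k + j + 1)‖ * ‖l (k + i + 1)‖ ≤ ‖u (k + j + 1)‖ * (M * (2 : ℝ)⁻¹ ^ (k + i + 1)) :=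
          mul_le_mul_of_nonneg_left (hl _) (norm_nonneg _)
      _ ≤ ‖u (k + j + 1)‖ * (M * ((2 : ℝ)⁻¹ ^ i * (2 : ℝ)⁻¹ ^ k)) :=
          mul_le_mul_of_nonneg_left (mul_le_mul_of_nonneg_left h3 hM0) (norm_nonneg _)
      _ = _ := by ring
  exact tsum_of_norm_bounded ((hc1 j).mul_left _).hasSum h2

end Pool.Agent.Helper11.LT
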