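import Pool.Agent.Helper11.LT.F0a

/-!
PROJECT LT, piece T1. Columns; upper triangular Toeplitz matrices with weight 2^(i-j).
-/

namespace Pool.Agent.Helper11.LT

open Finset Filter Topology Pool.Agent.Helper34.LT

/-- the matrix which has the column `j` of `A` and zeros elsewhere -/
def colm (A : Mat) (j : ℕ) : Mat := fun i k => if k = j then A i j else 0

theorem sm_colm {A : Mat} {j : ℕ} (h : Summable fun i => ‖A i j‖) : Sm (colm A j) := by
  have hinj : Function.Injective (fun i : ℕ => ((i, j) : ℕ × ℕ)) := fun x y hxy => by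
    simpa using hxy
  refine (hinj.summable_iff ?_).1 ?_
  · intro p hp
    have h1 : p.2 ≠ j := fun h2 => hp ⟨p.1, by rw [← h2]⟩
    simp [colm, h1]
  · refine h.congr fun i => ?_
    simp [colm]

theorem mmul_colm (A B : Mat) (j : ℕ) : mmul A (colm B j) = colm (mmul A B) j := by
  funext i k
  by_cases h : k = j
  · simp [mmul, colm, h]
  · simp [mmul, colm, h]

theorem ext_colm {A B : Mat} (h : ∀ j, colm A j = colm B j) : A = B := by
  funext i j
  have h1 := congr_fun (congr_fun (h j) i) j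
  simpa [colm] using h1

private theorem T1_app (f : ℕ → ℂ) (i j : ℕ) :
    Uw f i j = (2 : ℂ) ^ ((i : ℤ) - (j : ℤ)) * (if i ≤ j then f (j - i) else 0) := rfl

private theorem T1_norm (f : ℕ → ℂ) (i j : ℕ) :
    ‖Uw f i j‖ = if i ≤ j then ‖f (j - i)‖ * (2 : ℝ)⁻¹ ^ (j - i) else 0 := by
  rw [T1_app]
  by_cases h : i ≤ j
  · rw [if_pos h, if_pos h, norm_mul, mul_comm]
    congr 1
    have h1 : ((i : ℤ) - (j : ℤ)) = -((j - i : ℕ) : ℤ) := by omega
    rw [h1, zpow_neg, zpow_natCast, norm_inv, norm_pow, inv_pow]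
    norm_num
  · rw [if_neg h, if_neg h, mul_zero, norm_zero]

theorem Uw_bd {f : ℕ → ℂ} (h : Summable fun k => ‖f k‖ * (2 : ℝ)⁻¹ ^ k) : Bd (Uw f) := by
  have hS := h.hasSum
  refine ⟨∑' k, ‖f k‖ * (2 : ℝ)⁻¹ ^ k, fun i => ?_, fun j => ?_⟩
  · have hinj : Function.Injective (fun k : ℕ => i + k) := fun x y hxy => by
      simpa using hxy
    have h1 : HasSum (fun j => ‖Uw f i j‖) (∑' k, ‖f k‖ * (2 : ℝ)⁻¹ ^ k) := by
      refine (hinj.hasSum_iff ?_).1 ?_
      · intro j hj
        have h2 : ¬ i ≤ j := fun h3 => hj ⟨j - i, by simp only []; omega⟩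
        rw [T1_norm, if_neg h2]
      · refine hS.congr_fun ?_
        intro k
        simp only [Function.comp_apply]
        rw [T1_norm, if_pos (Nat.le_add_right i k), Nat.add_sub_cancel_left]
    exact ⟨h1.summable, h1.tsum_eq.le⟩
  · have h1 : HasSum (fun i => ‖Uw f i j‖) (∑ i ∈ range (j + 1), ‖Uw f i j‖) := by
      refine hasSum_sum_of_ne_finset_zero fun i hi => ?_
      rw [mem_range] at hi
      rw [T1_norm, if_neg (by omega)]
    refine ⟨h1.summable, h1.tsum_eq.le.trans ?_⟩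
    have h2 : ∑ i ∈ range (j + 1), ‖Uw f i j‖ = ∑ k ∈ range (j + 1), ‖f k‖ * (2 : ℝ)⁻¹ ^ k := by
      rw [← Finset.sum_range_reflect]
      refine Finset.sum_congr rfl fun k hk => ?_
      rw [mem_range] at hk
      rw [T1_norm, if_pos (by omega)]
      have h3 : j - (j + 1 - 1 - k) = k := by omega
      rw [h3]
    rw [h2]
    exact h.sum_le_tsum _ fun k _ => by positivity

theorem Uw_mul (f g : ℕ → ℂ) :
    mmul (Uw f) (Uw g) = Uw fun n => ∑ p ∈ antidiagonal n, f p.1 * g p.2 := by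
  funext i j
  unfold mmul
  simp only [T1_app]
  by_cases h : i ≤ j
  · rw [if_pos h]
    have h1 : ∀ k ∉ Ico i (j + 1), (2 : ℂ) ^ ((i : ℤ) - (k : ℤ)) * (if i ≤ k then f (k - i) else 0) *
        ((2 : ℂ) ^ ((k : ℤ) - (j : ℤ)) * (if k ≤ j then g (j - k) else 0)) = 0 := by
      intro k hk
      rw [mem_Ico, not_and_or] at hk
      rcases hk with hk | hk
      · rw [if_neg hk, mul_zero, zero_mul]
      · rw [if_neg (show ¬ k ≤ j by omega), mul_zero, mul_zero]
    rw [tsum_eq_sum h1, Finset.sum_Ico_eq_sum_range, Finset.Nat.sum_antidiagonal_eq_sum_range_succ_mk,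
      Finset.mul_sum]
    have h2 : j + 1 - i = (j - i).succ := by omega
    rw [h2]
    refine Finset.sum_congr rfl fun k hk => ?_
    rw [mem_range] at hk
    rw [if_pos (show i ≤ i + k by omega), if_pos (show i + k ≤ j by omega)]
    have h3 : i + k - i = k := by omega
    have h4 : j - (i + k) = j - i - k := by omega
    rw [h3, h4]
    have h5 : (2 : ℂ) ^ ((i : ℤ) - (j : ℤ)) =
        (2 : ℂ) ^ ((i : ℤ) - ((i + k : ℕ) : ℤ)) * (2 : ℂ) ^ (((i + k : ℕ) : ℤ) - (j : ℤ)) := by
      rw [← zpow_add₀ (two_ne_zero)]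
      congr 1
      ring
    rw [h5]
    ring
  · rw [if_neg h, mul_zero]
    have h1 : ∀ k : ℕ, (2 : ℂ) ^ ((i : ℤ) - (k : ℤ)) * (if i ≤ k then f (k - i) else 0) *
        ((2 : ℂ) ^ ((k : ℤ) - (j : ℤ)) * (if k ≤ j then g (j - k) else 0)) = 0 := by
      intro k
      by_cases hk : i ≤ k
      · rw [if_neg (show ¬ k ≤ j by omega), mul_zero, mul_zero]
      · rw [if_neg hk, mul_zero, zero_mul]
    simp only [h1, tsum_zero]

theorem Uw_one : Uw (fun n => if n = 0 then 1 else 0) = mone := by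
  funext i j
  unfold mone
  rw [T1_app]
  by_cases h : i = j
  · subst h
    simp
  · rw [if_neg h]
    by_cases h1 : i ≤ j
    · rw [if_pos h1, if_neg (show ¬ j - i = 0 by omega), mul_zero]
    · rw [if_neg h1, mul_zero]

end Pool.Agent.Helper11.LT
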