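import Pool.Agent.Helper11.LT.T6
import Pool.Agent.Helper11.LT.T1
import Pool.Agent.Helper11.LT.F0b

/-!
PROJECT LT, piece T7. Bookkeeping: Mt q a b t i j = cf q a b t ((q-1)/2+i) (nn q a b j) by rfl; weights 2^(i-r) 2^(r-k) 2^(k-j) = 2^(i-j); reindex r -> i + r in the row sum of Uw f.
-/

namespace Pool.Agent.Helper11.LT

open Finset Filter Topology Pool.Agent.Helper34.LT

/-- the row sum of `Uw f` -/
private theorem T7_row (f : ℕ → ℂ) (M : Mat) (i k : ℕ) :
    mmul (Uw f) (wt M) i k = (2 : ℂ) ^ ((i : ℤ) - (k : ℤ)) * ∑' r, f r * M (i + r) k := by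
  have h2 : (2 : ℂ) ≠ 0 := two_ne_zero
  have h1 : ∀ r, Uw f i r * wt M r k = (2 : ℂ) ^ ((i : ℤ) - (k : ℤ)) *
      ((if i ≤ r then f (r - i) else 0) * M r k) := by
    intro r
    have h3 : (2 : ℂ) ^ ((i : ℤ) - (k : ℤ)) =
        (2 : ℂ) ^ ((i : ℤ) - (r : ℤ)) * (2 : ℂ) ^ ((r : ℤ) - (k : ℤ)) := by
      rw [← zpow_add₀ h2]
      congr 1
      ring
    unfold Uw wt
    rw [h3]
    ring
  unfold mmul
  simp only [h1]
  rw [tsum_mul_left]
  congr 1
  have hinj : Function.Injective fun r : ℕ => i + r := fun x y h => Nat.add_left_cancel h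
  have h4 := hinj.tsum_eq (f := fun r => (if i ≤ r then f (r - i) else 0) * M r k) (by
    intro r hr
    rw [Function.mem_support] at hr
    by_cases hir : i ≤ r
    · exact ⟨r - i, Nat.add_sub_cancel' hir⟩
    · exfalso
      apply hr
      rw [if_neg hir, zero_mul])
  rw [← h4]
  refine tsum_congr fun r => ?_
  rw [if_pos (Nat.le_add_right i r), Nat.add_sub_cancel_left]

theorem Mt_shift {q a b : ℕ} (hq : 1 ≤ q) (t v : Phi q a b → ℂ) {f fp : ℕ → ℂ} {Ph : Mat}
    (hP : Per q a b v f fp Ph) (j : ℕ) :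
    colm (wt (Mt q a b (t + v))) j =
      mmul (mmul (Uw f) (wt (Mt q a b t))) (colm (wt Ph) j) := by
  have h2 : (2 : ℂ) ≠ 0 := two_ne_zero
  rw [mmul_colm]
  funext i k
  unfold colm
  split_ifs with hk
  · have h1 : ∀ k, mmul (Uw f) (wt (Mt q a b t)) i k * wt Ph k j =
        (2 : ℂ) ^ ((i : ℤ) - (j : ℤ)) *
          ((∑' r, f r * cf q a b t ((q - 1) / 2 + i + r) (nn q a b k)) * Ph k j) := by
      intro k
      rw [T7_row]
      have h3 : (2 : ℂ) ^ ((i : ℤ) - (j : ℤ)) =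
          (2 : ℂ) ^ ((i : ℤ) - (k : ℤ)) * (2 : ℂ) ^ ((k : ℤ) - (j : ℤ)) := by
        rw [← zpow_add₀ h2]
        congr 1
        ring
      have h4 : ∀ r, Mt q a b t (i + r) k = cf q a b t ((q - 1) / 2 + i + r) (nn q a b k) := by
        intro r
        rw [add_assoc]
        rfl
      simp only [h4]
      unfold wt
      rw [h3]
      ring
    have h5 : mmul (mmul (Uw f) (wt (Mt q a b t))) (wt Ph) i j =
        ∑' k, mmul (Uw f) (wt (Mt q a b t)) i k * wt Ph k j := rfl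
    rw [h5]
    simp only [h1]
    rw [tsum_mul_left, ← cf_shift hq t v hP]
    rfl
  · rfl

end Pool.Agent.Helper11.LT
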