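import Pool.Agent.Helper11.LT.F0c
import Pool.Agent.Helper11.LT.Hl
import Pool.Agent.Helper11.LT.T2
import Pool.Agent.Helper11.LT.T3
import Pool.Agent.Helper11.LT.T7
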