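import Pool.Agent.Helper11.LT.F7

/-!
PROJECT LT, F9: quasi-periodicity of the tau function.
-/

namespace Pool.Agent.Helper11.LT

open Finset Filter Topology Pool.Agent.Helper34.LT

noncomputable section

/-- bounded matrices -/
def bmG : AddSubgroup Mat where
  carrier := {A | Bd A}
  zero_mem' := sm_bd sm_zero
  add_mem' := bd_add
  neg_mem' := bd_neg

instance : Mul bmG := ⟨fun A B => ⟨mmul A.1 B.1, bd_mul A.2 B.2⟩⟩

instance : One bmG := ⟨⟨mone, bd_mone⟩⟩

theorem bm_mul (A B : bmG) : (A * B).1 = mmul A.1 B.1 := rfl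

theorem bm_one : (1 : bmG).1 = mone := rfl

instance : Ring bmG :=
  { (inferInstance : AddCommGroup bmG), (inferInstance : Mul bmG), (inferInstance : One bmG) with
    mul_assoc := fun A B C => Subtype.ext (mmul_assoc A.2 B.2 C.2)
    one_mul := fun A => Subtype.ext (mone_mmul A.1)
    mul_one := fun A => Subtype.ext (mmul_mone A.1)
    left_distrib := fun A B C => Subtype.ext (mmul_add A.2 B.2 C.2)
    right_distrib := fun A B C => Subtype.ext (add_mmul A.2 B.2 C.2)
    zero_mul := fun A => Subtype.ext (zero_mmul A.1)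
    mul_zero := fun A => Subtype.ext (mmul_zero A.1) }

/-- `1 +` summable -/
def Tr (A : bmG) : Prop := Sm (A - 1).1

/-- the determinant -/
def dt (A : bmG) : ℂ := fd (A - 1).1

theorem tr_one : Tr 1 := by
  unfold Tr
  rw [sub_self]
  exact sm_zero

theorem dt_one : dt 1 = 1 := by
  unfold dt
  rw [sub_self]
  exact fd_zero

theorem mul_sub_one (A B : bmG) : A * B - 1 = (A - 1) + (B - 1) + (A - 1) * (B - 1) := by
  noncomm_ring

theorem tr_mul {A B : bmG} (hA : Tr A) (hB : Tr B) : Tr (A * B) := by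
  unfold Tr
  rw [mul_sub_one]
  exact sm_add (sm_add hA hB) (sm_mulL (A - 1).2 hB)

theorem dt_mul {A B : bmG} (hA : Tr A) (hB : Tr B) : dt (A * B) = dt A * dt B := by
  unfold dt
  rw [mul_sub_one]
  exact fd_mul hA hB

theorem conj_sub_one {G G' A : bmG} (h : G * G' = 1) : G * A * G' - 1 = G * (A - 1) * G' := by
  rw [mul_sub, sub_mul, mul_one, h]

theorem tr_conj {G G' A : bmG} (h : G * G' = 1) (hA : Tr A) : Tr (G * A * G') := by
  unfold Tr
  rw [conj_sub_one h]
  exact sm_mulR (sm_mulL G.2 hA) G'.2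

theorem dt_conj {G G' A : bmG} (h : G * G' = 1) (h' : G' * G = 1) (hA : Tr A) :
    dt (G * A * G') = dt A := by
  unfold dt
  rw [conj_sub_one h]
  exact fd_conj G.2 G'.2 (congrArg Subtype.val h') hA

/-- a holomorphic homomorphism to the multiplicative group is `exp` of a linear form -/
theorem exists_linear {E : Type} [NormedAddCommGroup E] [NormedSpace ℂ E] {D : E → ℂ}
    (hD : Differentiable ℂ D) (hadd : ∀ s t, D (s + t) = D s * D t) (h0 : D 0 = 1) :
    ∃ l : E →ₗ[ℂ] ℂ, ∀ t, D t = Complex.exp (l t) := by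
  refine ⟨(fderiv ℂ D 0 : E →ₗ[ℂ] ℂ), fun t => ?_⟩
  have h1 : ∀ x, HasFDerivAt D (D x • fderiv ℂ D 0) x := by
    intro x
    have h2 : HasFDerivAt (fun y => D x * D (y - x)) (D x • fderiv ℂ D 0) x := by
      have h3 : HasFDerivAt (fun y => D (y - x)) (fderiv ℂ D 0) x := by
        have h4 : HasFDerivAt D (fderiv ℂ D 0) (x - x) := by
          rw [sub_self]
          exact (hD 0).hasFDerivAt
        have h5 : HasFDerivAt (fun y => y - x) (ContinuousLinearMap.id ℂ E) x :=
          (hasFDerivAt_id x).sub_const x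
        exact HasFDerivAt.comp (g := D) (f := fun y => y - x) x h4 h5
      exact h3.const_mul (D x)
    refine h2.congr_of_eventuallyEq (Eventually.of_forall fun y => ?_)
    show D y = D x * D (y - x)
    rw [← hadd, add_sub_cancel]
  -- along the line `s ↦ s t`
  have h6 : ∀ s : ℂ, HasDerivAt (fun s : ℂ => D (s • t) * Complex.exp (-(s * fderiv ℂ D 0 t))) 0 s := by
    intro s
    have h7 : HasDerivAt (fun s : ℂ => s • t) t s := by
      simpa using (hasDerivAt_id s).smul_const t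
    have h8 : HasDerivAt (fun s : ℂ => D (s • t)) (D (s • t) * fderiv ℂ D 0 t) s := by
      exact (h1 (s • t)).comp_hasDerivAt s h7
    have h9 : HasDerivAt (fun s : ℂ => Complex.exp (-(s * fderiv ℂ D 0 t)))
        (Complex.exp (-(s * fderiv ℂ D 0 t)) * (-(1 * fderiv ℂ D 0 t))) s :=
      ((hasDerivAt_id s).mul_const _).neg.cexp
    have h10 := h8.mul h9
    have h16 : D (s • t) * fderiv ℂ D 0 t * Complex.exp (-(s * fderiv ℂ D 0 t)) +
        D (s • t) * (Complex.exp (-(s * fderiv ℂ D 0 t)) * (-(1 * fderiv ℂ D 0 t))) = 0 := by ring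
    rw [h16] at h10
    exact h10
  have h11 : ∀ s : ℂ, D (s • t) * Complex.exp (-(s * fderiv ℂ D 0 t)) = 1 := by
    intro s
    have h12 : Differentiable ℂ (fun s : ℂ => D (s • t) * Complex.exp (-(s * fderiv ℂ D 0 t))) :=
      fun s => (h6 s).differentiableAt
    have h13 := is_const_of_deriv_eq_zero h12 (fun s => (h6 s).deriv) s 0
    rw [h13]
    simp [h0]
  have h14 := h11 1
  rw [one_smul, one_mul] at h14
  have h15 : Complex.exp (-(fderiv ℂ D 0 t)) * Complex.exp (fderiv ℂ D 0 t) = 1 := by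
    rw [← Complex.exp_add, neg_add_cancel, Complex.exp_zero]
  calc D t = D t * (Complex.exp (-(fderiv ℂ D 0 t)) * Complex.exp (fderiv ℂ D 0 t)) := by
        rw [h15, mul_one]
    _ = (D t * Complex.exp (-(fderiv ℂ D 0 t))) * Complex.exp (fderiv ℂ D 0 t) := by ring
    _ = Complex.exp (fderiv ℂ D 0 t) := by rw [h14, one_mul]

/-! ### the matrices of the problem -/

section Main

variable {q a b : ℕ} {U V : Mat} {K : (Phi q a b → ℂ) → Mat}

/-- `L t` -/
def Lm (h : Fac q a b U V K) (t : Phi q a b → ℂ) : bmG := ⟨Lw q a b t, h.bL t⟩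

theorem Lm_zero (h : Fac q a b U V K) : Lm h 0 = 1 := Subtype.ext h.L0

theorem Lm_add (h : Fac q a b U V K) (s t : Phi q a b → ℂ) : Lm h (s + t) = Lm h s * Lm h t :=
  Subtype.ext (h.Ladd s t)

theorem Lm_neg_mul (h : Fac q a b U V K) (t : Phi q a b → ℂ) : Lm h (-t) * Lm h t = 1 := by
  rw [← Lm_add, neg_add_cancel, Lm_zero]

theorem Lm_mul_neg (h : Fac q a b U V K) (t : Phi q a b → ℂ) : Lm h t * Lm h (-t) = 1 := by
  rw [← Lm_add, add_neg_cancel, Lm_zero]

/-- commutator with an upper triangular Toeplitz matrix -/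
theorem Lm_comm (h : Fac q a b U V K) {f : ℕ → ℂ}
    (hf : Summable fun k => ‖f k‖ * (2 : ℝ)⁻¹ ^ k) (P : bmG) (hP : P.1 = Uw f)
    (t : Phi q a b → ℂ) : Sm (P * Lm h t - Lm h t * P).1 := by
  have h1 := comm_sm hf (hl_summable t 4 (by norm_num))
  have h2 : (P * Lm h t - Lm h t * P).1 = mmul (Uw f) (Lw q a b t) - mmul (Lw q a b t) (Uw f) := by
    rw [← hP]
    rfl
  rw [h2]
  exact h1

/-- `L_{-t} P L_t P'` -/
def Cm (h : Fac q a b U V K) (P P' : bmG) (t : Phi q a b → ℂ) : bmG :=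
  Lm h (-t) * P * Lm h t * P'

theorem tr_Cm (h : Fac q a b U V K) {f : ℕ → ℂ}
    (hf : Summable fun k => ‖f k‖ * (2 : ℝ)⁻¹ ^ k) (P P' : bmG) (hP : P.1 = Uw f)
    (hPP : P * P' = 1) (t : Phi q a b → ℂ) : Tr (Cm h P P' t) := by
  have h1 : Cm h P P' t - 1 = Lm h (-t) * (P * Lm h t - Lm h t * P) * P' := by
    have h2 : Lm h (-t) * (Lm h t * P) * P' = 1 := by
      rw [← mul_assoc, Lm_neg_mul, one_mul, hPP]
    rw [mul_sub, sub_mul, h2, Cm, mul_assoc (Lm h (-t)) P]
  unfold Tr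
  rw [h1]
  exact sm_mulR (sm_mulL (Lm h (-t)).2 (Lm_comm h hf P hP t)) P'.2

/-- `P L_{-t} P' L_t` -/
def Cm' (h : Fac q a b U V K) (P P' : bmG) (t : Phi q a b → ℂ) : bmG :=
  P * Lm h (-t) * P' * Lm h t

theorem tr_Cm' (h : Fac q a b U V K) {f : ℕ → ℂ}
    (hf : Summable fun k => ‖f k‖ * (2 : ℝ)⁻¹ ^ k) (P P' : bmG) (hP : P.1 = Uw f)
    (hPP : P * P' = 1) (t : Phi q a b → ℂ) : Tr (Cm' h P P' t) := by
  have h1 : Cm' h P P' t - 1 = (P * Lm h (-t) - Lm h (-t) * P) * (P' * Lm h t) := by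
    have h2 : Lm h (-t) * P * (P' * Lm h t) = 1 := by
      rw [mul_assoc, ← mul_assoc P, hPP, one_mul, Lm_neg_mul]
    rw [sub_mul, h2, Cm']
    congr 1
    simp only [mul_assoc]
  unfold Tr
  rw [h1]
  exact sm_mulR (Lm_comm h hf P hP (-t)) (P' * Lm h t).2

theorem Cm_add (h : Fac q a b U V K) (P P' : bmG) (hPP : P' * P = 1) (s t : Phi q a b → ℂ) :
    Cm h P P' (s + t) = Lm h (-t) * Cm h P P' s * Lm h t * Cm h P P' t := by
  have h1 : Lm h (-(s + t)) = Lm h (-t) * Lm h (-s) := by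
    rw [← Lm_add]
    congr 1
    abel
  have h2 : Lm h t * (Lm h (-t) * (P * (Lm h t * P'))) = P * (Lm h t * P') := by
    rw [← mul_assoc, Lm_mul_neg, one_mul]
  have h3 : P' * (P * (Lm h t * P')) = Lm h t * P' := by
    rw [← mul_assoc, hPP, one_mul]
  simp only [Cm, h1, Lm_add, mul_assoc, h2, h3]

theorem D_add (h : Fac q a b U V K) {f : ℕ → ℂ}
    (hf : Summable fun k => ‖f k‖ * (2 : ℝ)⁻¹ ^ k) (P P' : bmG) (hP : P.1 = Uw f)
    (hPP : P * P' = 1) (hPP' : P' * P = 1) (s t : Phi q a b → ℂ) :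
    dt (Cm h P P' (s + t)) = dt (Cm h P P' s) * dt (Cm h P P' t) := by
  rw [Cm_add h P P' hPP', dt_mul (tr_conj (Lm_neg_mul h t) (tr_Cm h hf P P' hP hPP s))
    (tr_Cm h hf P P' hP hPP t), dt_conj (Lm_neg_mul h t) (Lm_mul_neg h t)
      (tr_Cm h hf P P' hP hPP s)]

theorem D_zero (h : Fac q a b U V K) (P P' : bmG) (hPP : P * P' = 1) :
    dt (Cm h P P' 0) = 1 := by
  have h1 : Cm h P P' 0 = 1 := by
    rw [Cm, neg_zero, Lm_zero, one_mul, mul_one, hPP]
  rw [h1, dt_one]

end Main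

theorem tau_per (q a b : ℕ) (hq : q.Prime) (ha : ¬ q ∣ a) (hb : ¬ q ∣ b) (hab : ¬ q ∣ a + b)
    (h3 : 3 ≤ q) (U V : Mat) (K : (Phi q a b → ℂ) → Mat) (h : Fac q a b U V K)
    (hne : ∃ t, tauF q a b t ≠ 0) (hdiff : Differentiable ℂ (tauF q a b))
    (v : Phi q a b → ℂ) (f fp : ℕ → ℂ) (Ph : Mat)
    (hP : Per q a b v f fp Ph) :
    ∃ (l : (Phi q a b → ℂ) →ₗ[ℂ] ℂ) (c : ℂ), ∀ z,
      tauF q a b (z + v) = Complex.exp (l z + c) * tauF q a b z := by
  have hq1 : 1 ≤ q := by omega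
  obtain ⟨t0, ht0⟩ := hne
  let P : bmG := ⟨Uw f, Uw_bd hP.sf⟩
  let P' : bmG := ⟨Uw fp, Uw_bd hP.sfp⟩
  have hPP : P * P' = 1 := by
    apply Subtype.ext
    show mmul (Uw f) (Uw fp) = mone
    rw [Uw_mul, ← Uw_one]
    congr 1
    funext n
    exact conv_of_inv hP.sf hP.sfp hP.inv n
  have hPP' : P' * P = 1 := by
    apply Subtype.ext
    show mmul (Uw fp) (Uw f) = mone
    rw [Uw_mul, ← Uw_one]
    congr 1
    funext n
    refine conv_of_inv hP.sfp hP.sf (fun s hs => ?_) n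
    rw [mul_comm]
    exact hP.inv s hs
  let X : (Phi q a b → ℂ) → bmG := fun t => ⟨mone + K t, bd_add bd_mone (sm_bd (h.sK t))⟩
  have hXs : ∀ t, (X t - 1).1 = K t := by
    intro t
    show mone + K t - mone = K t
    rw [add_sub_cancel_left]
  have hXT : ∀ t, Tr (X t) := by
    intro t
    unfold Tr
    rw [hXs]
    exact h.sK t
  have hXd : ∀ t, dt (X t) = tauF q a b t := by
    intro t
    unfold dt
    rw [hXs, h.tau]
  obtain ⟨Y0, hY0, hXY0, hYX0⟩ := exists_inv (h.sK t0) (by rw [← h.tau]; exact ht0)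
  let Y : bmG := ⟨mone + Y0, bd_add bd_mone (sm_bd hY0)⟩
  have hYT : Tr Y := by
    have h1 : (Y - 1).1 = Y0 := by
      show mone + Y0 - mone = Y0
      rw [add_sub_cancel_left]
    unfold Tr
    rw [h1]
    exact hY0
  have hXY : X t0 * Y = 1 := Subtype.ext hXY0
  have hYX : Y * X t0 = 1 := Subtype.ext hYX0
  let Um : bmG := ⟨U, h.bU⟩
  let Vm : bmG := ⟨V, h.bV⟩
  have hUV : Um * Vm = 1 := Subtype.ext h.UV
  have hVU : Vm * Um = 1 := Subtype.ext h.VU
  let A : (Phi q a b → ℂ) → bmG := fun t => Lm h t * X t * Um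
  have hA : ∀ t, (A t).1 = wt (Mt q a b t) := fun t => (h.fac t).symm
  -- the columns
  let E : ℕ → bmG := fun j => ⟨colm mone j, sm_bd (sm_colm (bdC_mone.2 j).1)⟩
  have hsQ : ∀ j, Summable fun i => ‖wt Ph i j‖ := by
    intro j
    have h1 := (hP.sPh j).mul_right ((2 : ℝ)⁻¹ ^ j)
    refine h1.congr fun i => ?_
    unfold wt
    rw [norm_mul, norm_zpow, Complex.norm_ofNat, zpow_sub₀ (by norm_num : (2 : ℝ) ≠ 0),
      zpow_natCast, zpow_natCast, inv_pow, div_eq_mul_inv]
    ring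
  let Q : ℕ → bmG := fun j => ⟨colm (wt Ph) j, sm_bd (sm_colm (hsQ j))⟩
  have hAE : ∀ (B : bmG) j, (B * E j).1 = colm B.1 j := by
    intro B j
    show mmul B.1 (colm mone j) = colm B.1 j
    rw [mmul_colm, mmul_mone]
  have hext : ∀ B C : bmG, (∀ j, B * E j = C * E j) → B = C := by
    intro B C hBC
    apply Subtype.ext
    apply ext_colm
    intro j
    rw [← hAE, ← hAE, hBC]
  have hshift : ∀ t j, A (t + v) * E j = P * A t * Q j := by
    intro t j
    apply Subtype.ext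
    rw [hAE, hA, Mt_shift hq1 t v hP j, ← hA]
    rfl
  let B0 : bmG := Vm * Y * Lm h (-t0)
  have hB0 : B0 * P' * (P * A t0) = 1 := by
    have h1 : B0 * P' * (P * A t0) = Vm * (Y * ((Lm h (-t0)) * ((P' * P) * (Lm h t0 * (X t0 * Um))))) := by
      simp only [B0, A, mul_assoc]
    rw [h1, hPP', one_mul, ← mul_assoc (Lm h (-t0)), Lm_neg_mul, one_mul, ← mul_assoc Y, hYX,
      one_mul, hVU]
  have key : ∀ t, A (t + v) = P * A t * (B0 * P' * A (t0 + v)) := by
    intro t
    apply hext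
    intro j
    rw [hshift]
    have h1 : P * A t * (B0 * P' * A (t0 + v)) * E j = P * A t * (B0 * P' * (A (t0 + v) * E j)) := by
      simp only [mul_assoc]
    rw [h1, hshift, ← mul_assoc (B0 * P'), hB0, one_mul]
  have hXA : ∀ t, X t = Lm h (-t) * A t * Vm := by
    intro t
    have h1 : Lm h (-t) * A t * Vm = (Lm h (-t) * Lm h t) * X t * (Um * Vm) := by
      simp only [A, mul_assoc]
    rw [h1, Lm_neg_mul, hUV, one_mul, mul_one]
  have hX : ∀ t, X (t + v) =
      Lm h (-v) * (Cm h P P' t * (P * (X t * Y) * P') * Cm' h P P' t0) * Lm h v * X (t0 + v) := by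
    intro t
    rw [hXA (t + v), key t, hXA (t0 + v)]
    have h1 : Lm h (-(t + v)) = Lm h (-v) * Lm h (-t) := by
      rw [← Lm_add]
      congr 1
      abel
    have h2 : Lm h (-(t0 + v)) = Lm h (-v) * Lm h (-t0) := by
      rw [← Lm_add]
      congr 1
      abel
    have h3 : Lm h v * (Lm h (-v) * (Lm h (-t0) * (A (t0 + v) * Vm))) =
        Lm h (-t0) * (A (t0 + v) * Vm) := by
      rw [← mul_assoc, Lm_mul_neg, one_mul]
    have h4 : ∀ Z, Lm h t0 * (Lm h (-t0) * Z) = Z := fun Z => by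
      rw [← mul_assoc, Lm_mul_neg, one_mul]
    have h5 : ∀ Z, P' * (P * Z) = Z := fun Z => by
      rw [← mul_assoc, hPP', one_mul]
    have h6 : ∀ Z, Um * (Vm * Z) = Z := fun Z => by
      rw [← mul_assoc, hUV, one_mul]
    simp only [h1, h2, Cm, Cm', B0, mul_assoc, h3, h4, h5, h6]
    simp only [A, mul_assoc, h6]
  let c : ℂ := dt Y * dt (Cm' h P P' t0) * tauF q a b (t0 + v)
  have hD : ∀ t, tauF q a b (t + v) = dt (Cm h P P' t) * tauF q a b t * c := by
    intro t
    have hC := tr_Cm h hP.sf P P' rfl hPP t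
    have hC' := tr_Cm' h hP.sf P P' rfl hPP t0
    have hXYt := tr_mul (hXT t) hYT
    have h1 := tr_conj hPP hXYt
    have h2 := tr_mul (tr_mul hC h1) hC'
    have h3 := tr_conj (Lm_neg_mul h v) h2
    rw [← hXd (t + v), hX t, dt_mul h3 (hXT _), dt_conj (Lm_neg_mul h v) (Lm_mul_neg h v) h2,
      dt_mul (tr_mul hC h1) hC', dt_mul hC h1, dt_conj hPP hPP' hXYt, dt_mul (hXT t) hYT,
      hXd, hXd]
    simp only [c]
    ring
  have hc : c ≠ 0 := by
    intro hc
    apply ht0
    have h1 := hD (t0 - v)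
    rw [hc, mul_zero, sub_add_cancel] at h1
    exact h1
  have hadd := D_add h hP.sf P P' rfl hPP hPP'
  have hzero := D_zero h P P' hPP
  have hDne : ∀ t, dt (Cm h P P' t) ≠ 0 := by
    intro t ht
    have h1 := hadd t (-t)
    rw [ht, zero_mul, add_neg_cancel, hzero] at h1
    exact one_ne_zero h1
  have hDd : Differentiable ℂ fun t => dt (Cm h P P' t) := by
    have h1 : DifferentiableAt ℂ (fun t => dt (Cm h P P' t)) t0 := by
      have h2 : (fun t => dt (Cm h P P' t)) =ᶠ[𝓝 t0]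
          fun t => tauF q a b (t + v) / (tauF q a b t * c) := by
        have h4 : ∀ᶠ t in 𝓝 t0, tauF q a b t ≠ 0 :=
          hdiff.continuous.continuousAt.eventually_ne ht0
        filter_upwards [h4] with t ht
        rw [hD t]
        field_simp
      refine DifferentiableAt.congr_of_eventuallyEq ?_ h2
      have h5 : DifferentiableAt ℂ (fun t : Phi q a b → ℂ => t + v) t0 :=
        differentiableAt_id.add_const v
      have h6 : DifferentiableAt ℂ (fun t => tauF q a b (t + v)) t0 :=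
        DifferentiableAt.comp (g := tauF q a b) (f := fun t => t + v) t0 (hdiff (t0 + v)) h5
      have h7 : DifferentiableAt ℂ (fun t => tauF q a b t * c) t0 := (hdiff t0).mul_const c
      have h8 : DifferentiableAt ℂ (fun x : ℂ => x⁻¹) (tauF q a b t0 * c) :=
        differentiableAt_inv (mul_ne_zero ht0 hc)
      have h9 : DifferentiableAt ℂ (fun t => (tauF q a b t * c)⁻¹) t0 :=
        DifferentiableAt.comp (g := fun x : ℂ => x⁻¹) (f := fun t => tauF q a b t * c) t0 h8 h7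
      simp only [div_eq_mul_inv]
      exact h6.mul h9
    intro x
    have h2 : (fun t => dt (Cm h P P' t)) =
        fun t => dt (Cm h P P' (t + (t0 - x))) * dt (Cm h P P' (x - t0)) := by
      funext t
      rw [← hadd]
      congr 2
      abel
    rw [h2]
    have h3 : DifferentiableAt ℂ (fun t => dt (Cm h P P' (t + (t0 - x)))) x := by
      have h4 : DifferentiableAt ℂ (fun t => dt (Cm h P P' t)) (x + (t0 - x)) := by
        rw [add_sub_cancel]
        exact h1
      have h5 : DifferentiableAt ℂ (fun t : Phi q a b → ℂ => t + (t0 - x)) x :=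
        differentiableAt_id.add_const (t0 - x)
      exact DifferentiableAt.comp (g := fun t => dt (Cm h P P' t)) (f := fun t => t + (t0 - x))
        x h4 h5
    exact h3.mul_const _
  obtain ⟨l, hl⟩ := exists_linear hDd hadd hzero
  refine ⟨l, Complex.log c, fun z => ?_⟩
  rw [hD z, Complex.exp_add, Complex.exp_log hc, ← hl]
  ring

end

end Pool.Agent.Helper11.LT
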