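import Pool.Agent.Helper34.LT.Fd

/-!
PROJECT LT, piece Hl1. Coefficients hl of exp (sum t_u x^(k_u)). hl_dom: norm (hl t l) <= hl (R) l, sum_l hl(R) l M^l = sum over all m : Phi -> N of prod (R M^(k_u))^(m_u)/m_u! (grouped by weight, finite fibres) <= prod exp.
-/

namespace Pool.Agent.Helper11.LT

open Finset Filter Topology Pool.Agent.Helper34.LT

variable {q a b : ℕ}

theorem kk_pos (u : Phi q a b) : 1 ≤ kk q a b u := by
  have h := (Finset.mem_filter.1 u.2).2
  unfold kk
  omega

theorem hl_zero_right (t : Phi q a b → ℂ) : hl q a b t 0 = 1 := by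
  unfold hl
  have h : (Fintype.piFinset fun _ : Phi q a b => range (0 + 1)).filter
      (fun m : Phi q a b → ℕ => ∑ u : Phi q a b, kk q a b u * m u = 0) = {0} := by
    ext m
    simp only [Finset.mem_filter, Fintype.mem_piFinset, Finset.mem_range, Finset.mem_singleton]
    constructor
    · rintro ⟨h1, -⟩
      funext u
      have := h1 u
      simp only [Pi.zero_apply]
      omega
    · rintro rfl
      exact ⟨fun _ => by simp, by simp⟩
  rw [h, Finset.sum_singleton]
  simp

theorem hl_zero_left (l : ℕ) : hl q a b 0 l = if l = 0 then 1 else 0 := by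
  by_cases hl0 : l = 0
  · rw [if_pos hl0, hl0, hl_zero_right]
  · rw [if_neg hl0]
    unfold hl
    refine Finset.sum_eq_zero fun m hm => ?_
    have h1 := (Finset.mem_filter.1 hm).2
    have h2 : ∃ u, m u ≠ 0 := by
      by_contra hcon
      push Not at hcon
      apply hl0
      rw [← h1]
      exact Finset.sum_eq_zero fun u _ => by rw [hcon u, mul_zero]
    obtain ⟨u, hu⟩ := h2
    refine Finset.prod_eq_zero (Finset.mem_univ u) ?_
    rw [Pi.zero_apply, zero_pow hu, zero_div]

theorem hl_diff (l : ℕ) : Differentiable ℂ fun t => hl q a b t l := by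
  unfold hl
  fun_prop

/-- the real majorant -/
private noncomputable def hl1_g (R M : ℝ) (m : Phi q a b → ℕ) : ℝ :=
  ∏ u : Phi q a b, (R * M ^ kk q a b u) ^ m u / ((m u).factorial : ℝ)

private theorem hl1_g_nonneg {R M : ℝ} (hR : 0 ≤ R) (hM : 0 ≤ M) (m : Phi q a b → ℕ) :
    0 ≤ hl1_g R M m := by
  unfold hl1_g
  exact Finset.prod_nonneg fun u _ => by positivity

private theorem hl1_sum {R M : ℝ} (hR : 0 ≤ R) (hM : 0 ≤ M) (N : ℕ) :
    ∑ m ∈ Fintype.piFinset fun _ : Phi q a b => range N, hl1_g R M m ≤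
      ∏ u : Phi q a b, Real.exp (R * M ^ kk q a b u) := by
  have h := Finset.prod_univ_sum (fun _ : Phi q a b => range N)
    (fun (u : Phi q a b) (j : ℕ) => (R * M ^ kk q a b u) ^ j / (j.factorial : ℝ))
  unfold hl1_g
  rw [← h]
  refine Finset.prod_le_prod (fun u _ => Finset.sum_nonneg fun j _ => by positivity) fun u _ => ?_
  exact Real.sum_le_exp_of_nonneg (by positivity) N

/-- the majorant of the coefficient -/
private noncomputable def hl1_B (q a b : ℕ) (R M : ℝ) (l : ℕ) : ℝ :=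
  ∑ m ∈ (Fintype.piFinset fun _ : Phi q a b => range (l + 1)).filter
    (fun m : Phi q a b → ℕ => ∑ u : Phi q a b, kk q a b u * m u = l), hl1_g R M m

private theorem hl1_B_summable {R M : ℝ} (hR : 0 ≤ R) (hM : 0 ≤ M) :
    Summable (hl1_B q a b R M) := by
  refine summable_of_sum_range_le (c := ∏ u : Phi q a b, Real.exp (R * M ^ kk q a b u))
    (fun l => Finset.sum_nonneg fun m _ => hl1_g_nonneg hR hM m) fun N => ?_
  refine le_trans ?_ (hl1_sum hR hM N)
  have h1 : ∀ l ∈ range N, hl1_B q a b R M l ≤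
      ∑ m ∈ Fintype.piFinset fun _ : Phi q a b => range N,
        if (∑ u : Phi q a b, kk q a b u * m u) = l then hl1_g R M m else 0 := by
    intro l hl
    rw [← Finset.sum_filter]
    unfold hl1_B
    refine Finset.sum_le_sum_of_subset_of_nonneg ?_ fun m _ _ => hl1_g_nonneg hR hM m
    refine Finset.filter_subset_filter _ ?_
    refine Fintype.piFinset_subset _ _ fun _ => ?_
    have := Finset.mem_range.1 hl
    exact Finset.range_mono (by omega)
  refine (Finset.sum_le_sum h1).trans ?_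
  rw [Finset.sum_comm]
  refine Finset.sum_le_sum fun m _ => ?_
  rw [Finset.sum_ite_eq]
  split_ifs
  · exact le_rfl
  · exact hl1_g_nonneg hR hM m

private theorem hl1_norm {R M : ℝ} (hM : 0 ≤ M) (t : Phi q a b → ℂ) (ht : ‖t‖ ≤ R) (l : ℕ) :
    ‖hl q a b t l‖ * M ^ l ≤ hl1_B q a b R M l := by
  have hR : 0 ≤ R := (norm_nonneg t).trans ht
  unfold hl hl1_B
  refine (mul_le_mul_of_nonneg_right (norm_sum_le _ _) (pow_nonneg hM l)).trans ?_
  rw [Finset.sum_mul]
  refine Finset.sum_le_sum fun m hm => ?_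
  have h1 := (Finset.mem_filter.1 hm).2
  have h2 : M ^ l = ∏ u : Phi q a b, (M ^ kk q a b u) ^ m u := by
    rw [← h1, ← Finset.prod_pow_eq_pow_sum]
    exact Finset.prod_congr rfl fun u _ => pow_mul _ _ _
  rw [h2, norm_prod, ← Finset.prod_mul_distrib]
  unfold hl1_g
  refine Finset.prod_le_prod (fun u _ => by positivity) fun u _ => ?_
  have h3 : ‖(((m u).factorial : ℕ) : ℂ)‖ = ((m u).factorial : ℝ) := Complex.norm_natCast _
  rw [norm_div, norm_pow, h3, mul_pow, div_mul_eq_mul_div]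
  have h4 : ‖t u‖ ≤ R := (norm_le_pi_norm t u).trans ht
  gcongr

/-- majorant: `‖hl t l‖ M^l ≤ hl (R) l M^l`, `R` the constant vector -/
theorem hl_dom (R M : ℝ) (hM : 0 ≤ M) : ∃ B : ℕ → ℝ, Summable B ∧
    ∀ t : Phi q a b → ℂ, ‖t‖ ≤ R → ∀ l, ‖hl q a b t l‖ * M ^ l ≤ B l := by
  refine ⟨hl1_B q a b |R| M, hl1_B_summable (abs_nonneg R) hM, fun t ht l => ?_⟩
  exact hl1_norm hM t (ht.trans (le_abs_self R)) l

theorem hl_summable (t : Phi q a b → ℂ) (M : ℝ) (hM : 0 ≤ M) :
    Summable fun l => ‖hl q a b t l‖ * M ^ l := by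
  obtain ⟨B, hB, h⟩ := hl_dom (q := q) (a := a) (b := b) ‖t‖ M hM
  exact Summable.of_nonneg_of_le (fun l => by positivity) (h t le_rfl) hB

end Pool.Agent.Helper11.LT
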