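import Pool.Agent.Helper11.LT.Hl1

/-!
PROJECT LT, piece Hl2. Generating function. (Also usable for hl_dom: same argument with real numbers.)
-/

namespace Pool.Agent.Helper11.LT

open Finset Filter Topology Pool.Agent.Helper34.LT

variable {q a b : ℕ}

private theorem Hl2_gen {ι : Type*} [Fintype ι] [DecidableEq ι] (k : ι → ℕ) (hk : ∀ u, 1 ≤ k u)
    (t : ι → ℂ) (x : ℂ) :
    HasSum (fun l => (∑ m ∈ (Fintype.piFinset fun _ : ι => range (l + 1)).filter
      (fun m : ι → ℕ => ∑ u : ι, k u * m u = l), ∏ u, t u ^ m u / ((m u).factorial : ℂ)) * x ^ l)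
      (Complex.exp (∑ u : ι, t u * x ^ k u)) := by
  obtain ⟨y, hy⟩ : ∃ y : ι → ℂ, y = fun u => t u * x ^ k u := ⟨_, rfl⟩
  obtain ⟨f, hf⟩ : ∃ f : (ι → ℕ) → ℂ, f = fun m => ∏ u, y u ^ m u / ((m u).factorial : ℂ) :=
    ⟨_, rfl⟩
  have hsum : Summable f := by
    refine Summable.of_norm ?_
    refine summable_of_sum_le (c := ∏ u, Real.exp ‖y u‖) (fun _ => norm_nonneg _) fun s => ?_
    obtain ⟨N, hN⟩ : ∃ N : ℕ, ∀ m ∈ s, ∀ u, m u < N := by
      refine ⟨∑ m ∈ s, ∑ u, m u + 1, fun m hm u => ?_⟩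
      have h1 : m u ≤ ∑ u, m u := Finset.single_le_sum (f := fun u => m u)
        (fun _ _ => Nat.zero_le _) (Finset.mem_univ u)
      have h2 : ∑ u, m u ≤ ∑ m ∈ s, ∑ u, m u := Finset.single_le_sum
        (f := fun m : ι → ℕ => ∑ u, m u) (fun _ _ => Nat.zero_le _) hm
      omega
    calc ∑ m ∈ s, ‖f m‖ ≤ ∑ m ∈ Fintype.piFinset fun _ : ι => range N, ‖f m‖ := by
          refine Finset.sum_le_sum_of_subset_of_nonneg (fun m hm => ?_) fun _ _ _ => norm_nonneg _
          rw [Fintype.mem_piFinset]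
          exact fun u => Finset.mem_range.2 (hN m hm u)
      _ = ∑ m ∈ Fintype.piFinset fun _ : ι => range N,
            ∏ u, ‖y u‖ ^ m u / ((m u).factorial : ℝ) := by
          refine Finset.sum_congr rfl fun m _ => ?_
          rw [hf]
          simp only [norm_prod, norm_div, norm_pow, Complex.norm_natCast]
      _ = ∏ u, ∑ j ∈ range N, ‖y u‖ ^ j / ((j).factorial : ℝ) := by
          rw [Finset.prod_univ_sum]
      _ ≤ ∏ u, Real.exp ‖y u‖ := by
          refine Finset.prod_le_prod (fun u _ => Finset.sum_nonneg fun j _ => by positivity)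
            fun u _ => Real.sum_le_exp_of_nonneg (norm_nonneg _) N
  obtain ⟨S, hS⟩ := hsum
  have h1 := hS.tsum_fiberwise (fun m : ι → ℕ => ∑ u, m u)
  have h2 : ∀ n : ℕ, ∑' m : (fun m : ι → ℕ => ∑ u, m u) ⁻¹' {n}, f m =
      (∑ u, y u) ^ n / (n.factorial : ℂ) := by
    intro n
    have hset : (fun m : ι → ℕ => ∑ u, m u) ⁻¹' {n} = ↑(Finset.piAntidiag (univ : Finset ι) n) := by
      ext m
      simp
    rw [hset, Finset.tsum_subtype', Finset.sum_pow_eq_sum_piAntidiag, Finset.sum_div]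
    refine Finset.sum_congr rfl fun m hm => ?_
    have hm' : ∑ u, m u = n := (Finset.mem_piAntidiag.1 hm).1
    have h3 : ((∏ u, (m u).factorial : ℕ) : ℂ) * (Nat.multinomial univ m : ℂ) =
        (n.factorial : ℂ) := by
      rw [← hm']
      exact_mod_cast Nat.multinomial_spec univ m
    have h4 : ((∏ u, (m u).factorial : ℕ) : ℂ) ≠ 0 := by
      exact_mod_cast Finset.prod_ne_zero_iff.2 fun u _ => (Nat.factorial_pos (m u)).ne'
    have h5 : (n.factorial : ℂ) ≠ 0 := by exact_mod_cast (Nat.factorial_pos n).ne'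
    rw [hf]
    simp only [Finset.prod_div_distrib]
    rw [← Nat.cast_prod, div_eq_div_iff h4 h5, ← h3]
    ring
  simp only [h2] at h1
  have h3 : S = Complex.exp (∑ u, y u) := by
    have h4 : HasSum (fun n : ℕ => (∑ u, y u) ^ n / (n.factorial : ℂ))
        (Complex.exp (∑ u, y u)) := by
      rw [Complex.exp_eq_exp_ℂ]
      exact NormedSpace.expSeries_div_hasSum_exp (∑ u, y u)
    exact h1.unique h4
  have h5 := hS.tsum_fiberwise (fun m : ι → ℕ => ∑ u, k u * m u)
  have key : ∀ l : ℕ, (∑ m ∈ (Fintype.piFinset fun _ : ι => range (l + 1)).filter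
      (fun m : ι → ℕ => ∑ u : ι, k u * m u = l), ∏ u, t u ^ m u / ((m u).factorial : ℂ)) * x ^ l =
      ∑' m : (fun m : ι → ℕ => ∑ u, k u * m u) ⁻¹' {l}, f m := by
    intro l
    have hset : (fun m : ι → ℕ => ∑ u, k u * m u) ⁻¹' {l} =
        ↑((Fintype.piFinset fun _ : ι => range (l + 1)).filter
          (fun m : ι → ℕ => ∑ u : ι, k u * m u = l)) := by
      ext m
      rw [Set.mem_preimage, Set.mem_singleton_iff, Finset.mem_coe, Finset.mem_filter,
        Fintype.mem_piFinset]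
      simp only [Finset.mem_range]
      refine ⟨fun h => ⟨fun u => ?_, h⟩, fun h => h.2⟩
      have h6 : k u * m u ≤ ∑ u, k u * m u := Finset.single_le_sum (f := fun u => k u * m u)
        (fun _ _ => Nat.zero_le _) (Finset.mem_univ u)
      have h7 : m u ≤ k u * m u := Nat.le_mul_of_pos_left _ (hk u)
      omega
    rw [hset, Finset.tsum_subtype', Finset.sum_mul]
    refine Finset.sum_congr rfl fun m hm => ?_
    have hm' : ∑ u, k u * m u = l := (Finset.mem_filter.1 hm).2
    rw [hf, hy]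
    simp only [Finset.prod_div_distrib, mul_pow, Finset.prod_mul_distrib, ← pow_mul]
    rw [Finset.prod_pow_eq_pow_sum, hm']
    ring
  rw [h3] at h5
  have h8 : (fun l : ℕ => (∑ m ∈ (Fintype.piFinset fun _ : ι => range (l + 1)).filter
      (fun m : ι → ℕ => ∑ u : ι, k u * m u = l), ∏ u, t u ^ m u / ((m u).factorial : ℂ)) * x ^ l) =
      fun l : ℕ => ∑' m : (fun m : ι → ℕ => ∑ u, k u * m u) ⁻¹' {l}, f m := funext key
  rw [h8]
  rw [hy] at h5
  exact h5

/-- the generating function: `∑ over all m : Phi → ℕ` of `∏ (t_u x^{k_u})^{m_u} / m_u!`, grouped by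
the weight `∑ k_u m_u` -/
theorem hl_hasSum (t : Phi q a b → ℂ) (x : ℂ) :
    HasSum (fun l => hl q a b t l * x ^ l)
      (Complex.exp (∑ u : Phi q a b, t u * x ^ kk q a b u)) :=
  Hl2_gen (fun u : Phi q a b => kk q a b u) kk_pos t x

end Pool.Agent.Helper11.LT
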