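import Pool.Agent.Helper11.LT.Hl2

/-!
PROJECT LT, piece Hl3. From hl_hasSum by uniqueness of power series coefficients (Cauchy product of two absolutely convergent series, all x), or directly: (s+t)^m/m! = sum over m1+m2=m.
-/

namespace Pool.Agent.Helper11.LT

open Finset Filter Topology Pool.Agent.Helper34.LT

variable {q a b : ℕ}

/-- uniqueness of the coefficients of an everywhere convergent power series -/
private theorem Hl3_unique {c d : ℕ → ℂ} {F : ℂ → ℂ}
    (hc : ∀ x, HasSum (fun l => c l * x ^ l) (F x))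
    (hd : ∀ x, HasSum (fun l => d l * x ^ l) (F x)) : c = d := by
  have key : ∀ e : ℕ → ℂ, (∀ x, HasSum (fun l => e l * x ^ l) (F x)) →
      HasFPowerSeriesAt F (fun n => ContinuousMultilinearMap.mkPiRing ℂ (Fin n) (e n)) 0 := by
    intro e he
    rw [hasFPowerSeriesAt_iff]
    refine Filter.Eventually.of_forall fun z => ?_
    rw [zero_add]
    have h0 : (fun n => z ^ n • FormalMultilinearSeries.coeff
        (fun n => ContinuousMultilinearMap.mkPiRing ℂ (Fin n) (e n)) n) =
        fun n => e n * z ^ n := by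
      funext n
      simp [FormalMultilinearSeries.coeff, mul_comm]
    rw [h0]
    exact he z
  have h1 := (key c hc).eq_formalMultilinearSeries (key d hd)
  funext n
  have h2 := congrFun h1 n
  have h3 := congrArg (fun p => p 1) h2
  simpa using h3

theorem hl_add (s t : Phi q a b → ℂ) (l : ℕ) :
    hl q a b (s + t) l = ∑ p ∈ antidiagonal l, hl q a b s p.1 * hl q a b t p.2 := by
  have h1 : ∀ x : ℂ, HasSum (fun l => hl q a b (s + t) l * x ^ l)
      (Complex.exp (∑ u : Phi q a b, (s + t) u * x ^ kk q a b u)) := hl_hasSum (s + t)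
  have h2 : ∀ x : ℂ, HasSum (fun l => (∑ p ∈ antidiagonal l,
      hl q a b s p.1 * hl q a b t p.2) * x ^ l)
      (Complex.exp (∑ u : Phi q a b, (s + t) u * x ^ kk q a b u)) := by
    intro x
    have hs : ∀ r : Phi q a b → ℂ, Summable fun l => ‖hl q a b r l * x ^ l‖ := by
      intro r
      have h3 := hl_summable r ‖x‖ (norm_nonneg x)
      refine h3.congr fun l => ?_
      rw [norm_mul, norm_pow]
    have h4 := tsum_mul_tsum_eq_tsum_sum_antidiagonal_of_summable_norm (hs s) (hs t)
    have h5 := (summable_norm_sum_mul_antidiagonal_of_summable_norm (hs s) (hs t)).of_norm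
    rw [(hl_hasSum s x).tsum_eq, (hl_hasSum t x).tsum_eq, ← Complex.exp_add,
      ← Finset.sum_add_distrib] at h4
    have h6 : (∑ u : Phi q a b, (s + t) u * x ^ kk q a b u) =
        ∑ u : Phi q a b, (s u * x ^ kk q a b u + t u * x ^ kk q a b u) :=
      Finset.sum_congr rfl fun u _ => by rw [Pi.add_apply, add_mul]
    have h7 : (fun l => (∑ p ∈ antidiagonal l, hl q a b s p.1 * hl q a b t p.2) * x ^ l) =
        fun l => ∑ p ∈ antidiagonal l, hl q a b s p.1 * x ^ p.1 * (hl q a b t p.2 * x ^ p.2) := by
      funext l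
      rw [Finset.sum_mul]
      refine Finset.sum_congr rfl fun p hp => ?_
      rw [← Finset.HasAntidiagonal.mem_antidiagonal.1 hp, pow_add]
      ring
    rw [h7, h6, h4]
    exact h5.hasSum
  exact congrFun (Hl3_unique h1 h2) l

end Pool.Agent.Helper11.LT
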