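import Pool.Agent.Helper34.LT.Fd

/-!
PROJECT LT, piece P1. Bounded matrices. mmul A B: rows: sum_j |sum_k A_ik B_kj| <= sum_k |A_ik| sum_j |B_kj| <= C D.
-/

namespace Pool.Agent.Helper11.LT

open Finset Filter Topology Pool.Agent.Helper34.LT

theorem bdC_nonneg {C : ℝ} {A : Mat} (h : BdC C A) : 0 ≤ C :=
  le_trans (tsum_nonneg fun _ => norm_nonneg _) (h.1 0).2

theorem bdC_norm_le {C : ℝ} {A : Mat} (h : BdC C A) (i j : ℕ) : ‖A i j‖ ≤ C :=
  le_trans ((h.1 i).1.le_tsum j fun _ _ => norm_nonneg _) (h.1 i).2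

theorem bdC_mono {C D : ℝ} {A : Mat} (h : BdC C A) (hCD : C ≤ D) : BdC D A :=
  ⟨fun i => ⟨(h.1 i).1, (h.1 i).2.trans hCD⟩, fun j => ⟨(h.2 j).1, (h.2 j).2.trans hCD⟩⟩

theorem bdC_mone : BdC 1 mone := by
  have h1 : ∀ i, HasSum (fun j => ‖mone i j‖) 1 := by
    intro i
    have h := hasSum_single (f := fun j => ‖mone i j‖) i (by
      intro j hj
      simp [mone, Ne.symm hj])
    simpa [mone] using h
  have h2 : ∀ j, HasSum (fun i => ‖mone i j‖) 1 := by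
    intro j
    have h := hasSum_single (f := fun i => ‖mone i j‖) j (by
      intro i hi
      simp [mone, hi])
    simpa [mone] using h
  exact ⟨fun i => ⟨(h1 i).summable, (h1 i).tsum_eq.le⟩,
    fun j => ⟨(h2 j).summable, (h2 j).tsum_eq.le⟩⟩

private theorem p1_add {C D : ℝ} {u v : ℕ → ℂ} (hu : Summable fun j => ‖u j‖)
    (huC : ∑' j, ‖u j‖ ≤ C) (hv : Summable fun j => ‖v j‖) (hvD : ∑' j, ‖v j‖ ≤ D) :
    Summable (fun j => ‖u j + v j‖) ∧ ∑' j, ‖u j + v j‖ ≤ C + D := by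
  have hs : Summable (fun j => ‖u j + v j‖) :=
    Summable.of_nonneg_of_le (fun j => norm_nonneg _) (fun j => norm_add_le _ _) (hu.add hv)
  refine ⟨hs, ?_⟩
  have h1 : ∑' j, ‖u j + v j‖ ≤ ∑' j, (‖u j‖ + ‖v j‖) :=
    hs.tsum_le_tsum (fun j => norm_add_le _ _) (hu.add hv)
  have h2 : ∑' j, (‖u j‖ + ‖v j‖) = ∑' j, ‖u j‖ + ∑' j, ‖v j‖ := hu.tsum_add hv
  linarith

theorem bdC_add {C D : ℝ} {A B : Mat} (hA : BdC C A) (hB : BdC D B) : BdC (C + D) (A + B) :=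
  ⟨fun i => p1_add (hA.1 i).1 (hA.1 i).2 (hB.1 i).1 (hB.1 i).2,
    fun j => p1_add (hA.2 j).1 (hA.2 j).2 (hB.2 j).1 (hB.2 j).2⟩

theorem bdC_neg {C : ℝ} {A : Mat} (hA : BdC C A) : BdC C (-A) := by
  simpa [BdC, Pi.neg_apply, norm_neg] using hA

/-- all the products `∑ k, A i k * B k j` converge absolutely -/
theorem bdC_summable {C D : ℝ} {A B : Mat} (hA : BdC C A) (hB : BdC D B) (i j : ℕ) :
    Summable fun k => ‖A i k * B k j‖ := by
  refine Summable.of_nonneg_of_le (fun k => norm_nonneg _) (fun k => ?_) ((hA.1 i).1.mul_right D)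
  rw [norm_mul]
  exact mul_le_mul_of_nonneg_left (bdC_norm_le hB k j) (norm_nonneg _)

private theorem p1_aux {C D : ℝ} (a : ℕ → ℝ) (b : ℕ → ℕ → ℝ) (ha0 : ∀ k, 0 ≤ a k)
    (hb0 : ∀ k j, 0 ≤ b k j) (ha : Summable a) (haC : ∑' k, a k ≤ C) (hb : ∀ k, Summable (b k))
    (hbD : ∀ k, ∑' j, b k j ≤ D) :
    Summable (fun j => ∑' k, a k * b k j) ∧ ∑' j, ∑' k, a k * b k j ≤ C * D := by
  have hD : 0 ≤ D := (tsum_nonneg fun j => hb0 0 j).trans (hbD 0)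
  have hk : ∀ k, ∑' j, a k * b k j ≤ a k * D := by
    intro k
    rw [tsum_mul_left]
    exact mul_le_mul_of_nonneg_left (hbD k) (ha0 k)
  have hk0 : ∀ k, 0 ≤ ∑' j, a k * b k j := fun k => tsum_nonneg fun j => mul_nonneg (ha0 k) (hb0 k j)
  have hr : Summable (fun k => ∑' j, a k * b k j) :=
    Summable.of_nonneg_of_le hk0 hk (ha.mul_right D)
  have hm : ∀ k, Summable (fun j => a k * b k j) := fun k => (hb k).mul_left (a k)
  have hs : Summable (fun p : ℕ × ℕ => a p.1 * b p.1 p.2) :=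
    (summable_prod_of_nonneg fun p => mul_nonneg (ha0 _) (hb0 _ _)).2 ⟨hm, hr⟩
  have hs' : Summable (fun p : ℕ × ℕ => a p.2 * b p.2 p.1) :=
    Summable.prod_symm (f := fun p : ℕ × ℕ => a p.1 * b p.1 p.2) hs
  have hs'' : Summable (fun j => ∑' k, a k * b k j) :=
    Summable.prod (f := fun p : ℕ × ℕ => a p.2 * b p.2 p.1) hs'
  refine ⟨hs'', ?_⟩
  have hu : Summable (Function.uncurry fun k j => a k * b k j) := hs
  have h1 : ∑' j, ∑' k, a k * b k j = ∑' k, ∑' j, a k * b k j := hu.tsum_comm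
  rw [h1]
  calc ∑' k, ∑' j, a k * b k j ≤ ∑' k, a k * D := hr.tsum_le_tsum hk (ha.mul_right D)
    _ = (∑' k, a k) * D := tsum_mul_right
    _ ≤ C * D := mul_le_mul_of_nonneg_right haC hD

private theorem p1_mul {C D : ℝ} (u : ℕ → ℂ) (v : ℕ → ℕ → ℂ) (w : ℕ → ℂ)
    (hu : Summable fun k => ‖u k‖) (huC : ∑' k, ‖u k‖ ≤ C) (hv : ∀ k, Summable fun j => ‖v k j‖)
    (hvD : ∀ k, ∑' j, ‖v k j‖ ≤ D) (hw : ∀ j, ‖w j‖ ≤ ∑' k, ‖u k‖ * ‖v k j‖) :
    Summable (fun j => ‖w j‖) ∧ ∑' j, ‖w j‖ ≤ C * D := by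
  obtain ⟨h1, h2⟩ := p1_aux (fun k => ‖u k‖) (fun k j => ‖v k j‖) (fun k => norm_nonneg _)
    (fun k j => norm_nonneg _) hu huC hv hvD
  have hs : Summable (fun j => ‖w j‖) := Summable.of_nonneg_of_le (fun j => norm_nonneg _) hw h1
  exact ⟨hs, (hs.tsum_le_tsum hw h1).trans h2⟩

theorem bdC_mul {C D : ℝ} {A B : Mat} (hA : BdC C A) (hB : BdC D B) :
    BdC (C * D) (mmul A B) := by
  have h1 : ∀ i j, ‖mmul A B i j‖ ≤ ∑' k, ‖A i k‖ * ‖B k j‖ := by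
    intro i j
    have h := norm_tsum_le_tsum_norm (bdC_summable hA hB i j)
    simpa [mmul, norm_mul] using h
  constructor
  · intro i
    exact p1_mul (fun k => A i k) (fun k j => B k j) _ (hA.1 i).1 (hA.1 i).2
      (fun k => (hB.1 k).1) (fun k => (hB.1 k).2) (fun j => h1 i j)
  · intro j
    have h := p1_mul (C := D) (D := C) (fun k => B k j) (fun k i => A i k)
      (fun i => mmul A B i j) (hB.2 j).1 (hB.2 j).2
      (fun k => (hA.2 k).1) (fun k => (hA.2 k).2) (fun i => by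
        refine (h1 i j).trans (le_of_eq ?_)
        exact tsum_congr fun k => mul_comm _ _)
    rw [mul_comm D C] at h
    exact h

theorem bd_mone : Bd mone := ⟨1, bdC_mone⟩

theorem bd_add {A B : Mat} (hA : Bd A) (hB : Bd B) : Bd (A + B) := by
  obtain ⟨C, hC⟩ := hA
  obtain ⟨D, hD⟩ := hB
  exact ⟨_, bdC_add hC hD⟩

theorem bd_neg {A : Mat} (hA : Bd A) : Bd (-A) := by
  obtain ⟨C, hC⟩ := hA
  exact ⟨_, bdC_neg hC⟩

theorem bd_sub {A B : Mat} (hA : Bd A) (hB : Bd B) : Bd (A - B) := by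
  rw [sub_eq_add_neg]
  exact bd_add hA (bd_neg hB)

theorem bd_mul {A B : Mat} (hA : Bd A) (hB : Bd B) : Bd (mmul A B) := by
  obtain ⟨C, hC⟩ := hA
  obtain ⟨D, hD⟩ := hB
  exact ⟨_, bdC_mul hC hD⟩

end Pool.Agent.Helper11.LT
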