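import Pool.Agent.Helper11.LT.P1

/-!
PROJECT LT, piece P2. Ring laws. Associativity: Fubini for A_ik B_kl C_lj, absolutely summable over (k,l) since |C_lj| <= C and the rows of A, B are summable.
-/

namespace Pool.Agent.Helper11.LT

open Finset Filter Topology Pool.Agent.Helper34.LT

private theorem p2_summable {A B C : Mat} (hA : Bd A) (hB : Bd B) (hC : Bd C) (i j : ℕ) :
    Summable fun p : ℕ × ℕ => A i p.1 * B p.1 p.2 * C p.2 j := by
  obtain ⟨a, ha⟩ := hA
  obtain ⟨b, hb⟩ := hB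
  obtain ⟨c, hc⟩ := hC
  have h2 : ∀ k, ∑' l, ‖A i k‖ * ‖B k l‖ ≤ ‖A i k‖ * b := fun k => by
    rw [tsum_mul_left]
    exact mul_le_mul_of_nonneg_left (hb.1 k).2 (norm_nonneg _)
  have h3 : ∀ k, 0 ≤ ∑' l, ‖A i k‖ * ‖B k l‖ := fun k =>
    tsum_nonneg fun l => mul_nonneg (norm_nonneg _) (norm_nonneg _)
  have h4 : Summable fun k => ‖A i k‖ * b := (ha.1 i).1.mul_right b
  have h5 : Summable fun k => ∑' l, ‖A i k‖ * ‖B k l‖ := Summable.of_nonneg_of_le h3 h2 h4
  have h6 : ∀ k, Summable fun l => ‖A i k‖ * ‖B k l‖ := fun k => (hb.1 k).1.mul_left _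
  have h0 : (0 : ℕ × ℕ → ℝ) ≤ fun p : ℕ × ℕ => ‖A i p.1‖ * ‖B p.1 p.2‖ := fun p =>
    mul_nonneg (norm_nonneg _) (norm_nonneg _)
  have h1 : Summable fun p : ℕ × ℕ => ‖A i p.1‖ * ‖B p.1 p.2‖ :=
    (summable_prod_of_nonneg h0).2 ⟨h6, h5⟩
  refine Summable.of_norm_bounded (h1.mul_right c) fun p => ?_
  rw [norm_mul, norm_mul]
  exact mul_le_mul_of_nonneg_left (bdC_norm_le hc _ _)
    (mul_nonneg (norm_nonneg _) (norm_nonneg _))

private theorem p2_sum {A B : Mat} (hA : Bd A) (hB : Bd B) (i j : ℕ) :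
    Summable fun k => A i k * B k j := by
  obtain ⟨a, ha⟩ := hA
  obtain ⟨b, hb⟩ := hB
  exact (bdC_summable ha hb i j).of_norm

theorem mmul_assoc {A B C : Mat} (hA : Bd A) (hB : Bd B) (hC : Bd C) :
    mmul (mmul A B) C = mmul A (mmul B C) := by
  funext i j
  change ∑' l, (∑' k, A i k * B k l) * C l j = ∑' k, A i k * ∑' l, B k l * C l j
  have h1 : ∀ l, (∑' k, A i k * B k l) * C l j = ∑' k, A i k * B k l * C l j :=
    fun l => tsum_mul_right.symm
  have h2 : ∀ k, A i k * ∑' l, B k l * C l j = ∑' l, A i k * B k l * C l j := fun k => by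
    rw [← tsum_mul_left]
    exact tsum_congr fun l => (mul_assoc _ _ _).symm
  rw [tsum_congr h1, tsum_congr h2]
  exact Summable.tsum_comm (f := fun k l => A i k * B k l * C l j) (p2_summable hA hB hC i j)

theorem mmul_add {A B C : Mat} (hA : Bd A) (hB : Bd B) (hC : Bd C) :
    mmul A (B + C) = mmul A B + mmul A C := by
  funext i j
  change ∑' k, A i k * (B k j + C k j) = ∑' k, A i k * B k j + ∑' k, A i k * C k j
  rw [← (p2_sum hA hB i j).tsum_add (p2_sum hA hC i j)]
  exact tsum_congr fun k => mul_add _ _ _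

theorem add_mmul {A B C : Mat} (hA : Bd A) (hB : Bd B) (hC : Bd C) :
    mmul (A + B) C = mmul A C + mmul B C := by
  funext i j
  change ∑' k, (A i k + B i k) * C k j = ∑' k, A i k * C k j + ∑' k, B i k * C k j
  rw [← (p2_sum hA hC i j).tsum_add (p2_sum hB hC i j)]
  exact tsum_congr fun k => add_mul _ _ _

theorem mmul_neg (A B : Mat) : mmul A (-B) = -mmul A B := by
  funext i j
  change ∑' k, A i k * -B k j = -∑' k, A i k * B k j
  rw [← tsum_neg]
  exact tsum_congr fun k => mul_neg _ _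

theorem neg_mmul (A B : Mat) : mmul (-A) B = -mmul A B := by
  funext i j
  change ∑' k, -A i k * B k j = -∑' k, A i k * B k j
  rw [← tsum_neg]
  exact tsum_congr fun k => neg_mul _ _

theorem mmul_mone (A : Mat) : mmul A mone = A := by
  funext i j
  change ∑' k, A i k * (if k = j then 1 else 0) = A i j
  rw [tsum_eq_single j fun k hk => by rw [if_neg hk, mul_zero], if_pos rfl, mul_one]

theorem mone_mmul (A : Mat) : mmul mone A = A := by
  funext i j
  change ∑' k, (if i = k then 1 else 0) * A k j = A i j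
  rw [tsum_eq_single i fun k hk => by rw [if_neg (Ne.symm hk), zero_mul], if_pos rfl, one_mul]

theorem mmul_zero (A : Mat) : mmul A 0 = 0 := by
  funext i j
  change ∑' k, A i k * 0 = 0
  rw [tsum_congr fun k => mul_zero _, tsum_zero]

theorem zero_mmul (A : Mat) : mmul 0 A = 0 := by
  funext i j
  change ∑' k, 0 * A k j = 0
  rw [tsum_congr fun k => zero_mul _, tsum_zero]

theorem mmul_sub {A B C : Mat} (hA : Bd A) (hB : Bd B) (hC : Bd C) :
    mmul A (B - C) = mmul A B - mmul A C := by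
  rw [sub_eq_add_neg, mmul_add hA hB (bd_neg hC), mmul_neg, ← sub_eq_add_neg]

theorem sub_mmul {A B C : Mat} (hA : Bd A) (hB : Bd B) (hC : Bd C) :
    mmul (A - B) C = mmul A C - mmul B C := by
  rw [sub_eq_add_neg, add_mmul hA (bd_neg hB) hC, neg_mmul, ← sub_eq_add_neg]

end Pool.Agent.Helper11.LT
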