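import Pool.Agent.Helper11.LT.P2
import Pool.Agent.Helper11.LT.P3

/-!
PROJECT LT, piece P4. Truncations.
-/

namespace Pool.Agent.Helper11.LT

open Finset Filter Topology Pool.Agent.Helper34.LT

/-- the upper left block, as an infinite matrix -/
def cut (K : Mat) (N : ℕ) : Mat := fun i j => if i < N ∧ j < N then K i j else 0

theorem sm_cut (K : Mat) (N : ℕ) : Sm (cut K N) := by
  refine summable_of_ne_finset_zero (s := range N ×ˢ range N) fun p hp => ?_
  rw [Finset.mem_product, Finset.mem_range, Finset.mem_range] at hp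
  unfold cut
  rw [if_neg hp, norm_zero]

private theorem p4_le (K : Mat) (N : ℕ) (p : ℕ × ℕ) : ‖cut K N p.1 p.2‖ ≤ ‖K p.1 p.2‖ := by
  unfold cut
  split_ifs
  · exact le_rfl
  · rw [norm_zero]
    exact norm_nonneg _

theorem nm_cut_le {K : Mat} (h : Sm K) (N : ℕ) : nm (cut K N) ≤ nm K :=
  (sm_cut K N).tsum_le_tsum (p4_le K N) h

theorem tendsto_cut {K : Mat} (h : Sm K) : Tendsto (fun N => nm (K - cut K N)) atTop (𝓝 0) := by
  have h1 : ∀ p : ℕ × ℕ, Tendsto (fun N => ‖(K - cut K N) p.1 p.2‖) atTop (𝓝 0) := by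
    intro p
    refine tendsto_const_nhds.congr' ?_
    filter_upwards [eventually_gt_atTop p.1, eventually_gt_atTop p.2] with N h1 h2
    change 0 = ‖K p.1 p.2 - cut K N p.1 p.2‖
    unfold cut
    rw [if_pos ⟨h1, h2⟩, sub_self, norm_zero]
  have h2 : ∀ᶠ N in atTop, ∀ p : ℕ × ℕ, ‖‖(K - cut K N) p.1 p.2‖‖ ≤ ‖K p.1 p.2‖ := by
    refine Eventually.of_forall fun N p => ?_
    rw [norm_norm]
    change ‖K p.1 p.2 - cut K N p.1 p.2‖ ≤ _
    unfold cut
    split_ifs
    · rw [sub_self, norm_zero]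
      exact norm_nonneg _
    · rw [sub_zero]
  have h3 := tendsto_tsum_of_dominated_convergence (f := fun N (p : ℕ × ℕ) =>
    ‖(K - cut K N) p.1 p.2‖) (g := fun _ => (0 : ℝ)) h h1 h2
  rw [tsum_zero] at h3
  exact h3

theorem trn_cut (K : Mat) (N : ℕ) : trn (cut K N) N = trn K N := by
  ext i j
  change (if i.val < N ∧ j.val < N then K i j else 0) = K i j
  rw [if_pos ⟨i.2, j.2⟩]

/-- sums of the entries of the blocks -/
theorem sum_trn_le {K : Mat} (h : Sm K) (N : ℕ) : ∑ i, ∑ j, ‖trn K N i j‖ ≤ nm K := by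
  have h1 := Summable.sum_le_tsum (range N ×ˢ range N) (fun p _ => norm_nonneg (K p.1 p.2)) h
  rw [Finset.sum_product, Finset.sum_range] at h1
  refine le_trans (le_of_eq ?_) h1
  refine Finset.sum_congr rfl fun i _ => ?_
  rw [Finset.sum_range]
  rfl

end Pool.Agent.Helper11.LT
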