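import Pool.Agent.Helper11.LT.F0b

/-!
PROJECT LT, piece P8. The determinant fd K = lim det (1 + trn K N). Cauchy: for N <= M, det (1 + trn K N) = det (1 + trn (cut K N) M) by det_rows_zero, so the difference with det (1 + trn K M) is <= nm (K - cut K N) exp (2 nm K) by det_lip and sum_trn_le.
-/

namespace Pool.Agent.Helper11.LT

open Finset Filter Topology Pool.Agent.Helper34.LT

private theorem p8_lip {K K' : Mat} (h : Sm K) (h' : Sm K') (M : ℕ) :
    ‖(1 + trn K M).det - (1 + trn K' M).det‖ ≤ nm (K - K') * Real.exp (nm K + nm K') := by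
  refine (det_lip (trn K M) (trn K' M)).trans ?_
  have h1 : ∑ i, ∑ j, ‖trn K M i j - trn K' M i j‖ ≤ nm (K - K') :=
    sum_trn_le (sm_sub h h') M
  refine mul_le_mul h1 (Real.exp_le_exp.2 (add_le_add (sum_trn_le h M) (sum_trn_le h' M)))
    (Real.exp_pos _).le (nm_nonneg _)

private theorem p8_cut {K : Mat} {N M : ℕ} (hNM : N ≤ M) :
    (1 + trn K N).det = (1 + trn (cut K N) M).det := by
  rw [det_rows_zero hNM (K := cut K N), trn_cut]
  intro i j hi
  unfold cut
  rw [if_neg fun hc => absurd hc.1 (not_lt.2 hi)]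

/-- quantitative convergence of the truncated determinants (Cauchy by `det_lip`, `det_rows_zero`
applied to `cut`) -/
theorem fd_tendsto {K : Mat} (h : Sm K) :
    Tendsto (fun N => (1 + trn K N).det) atTop (𝓝 (fd K)) := by
  have hC : CauchySeq fun N => (1 + trn K N).det := by
    refine cauchySeq_of_le_tendsto_0' (fun N => nm (K - cut K N) * Real.exp (nm K + nm K)) ?_ ?_
    · intro N M hNM
      rw [p8_cut hNM, dist_comm, dist_eq_norm]
      refine (p8_lip h (sm_cut K N) M).trans ?_
      refine mul_le_mul_of_nonneg_left (Real.exp_le_exp.2 ?_) (nm_nonneg _)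
      exact add_le_add le_rfl (nm_cut_le h N)
    · have := (tendsto_cut h).mul_const (Real.exp (nm K + nm K))
      rwa [zero_mul] at this
  exact hC.tendsto_limUnder

theorem fd_le {K : Mat} (h : Sm K) : ‖fd K‖ ≤ Real.exp (nm K) := by
  refine le_of_tendsto' (fd_tendsto h).norm fun N => ?_
  exact (det_le (trn K N)).trans (Real.exp_le_exp.2 (sum_trn_le h N))

theorem fd_lip {K K' : Mat} (h : Sm K) (h' : Sm K') :
    ‖fd K - fd K'‖ ≤ nm (K - K') * Real.exp (nm K + nm K') :=
  le_of_tendsto' ((fd_tendsto h).sub (fd_tendsto h')).norm fun N => p8_lip h h' N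

private theorem p8_const {K : Mat} {N : ℕ} (h : ∀ M, N ≤ M → (1 + trn K M).det =
    (1 + trn K N).det) : fd K = (1 + trn K N).det := by
  refine Tendsto.limUnder_eq (tendsto_const_nhds.congr' ?_)
  filter_upwards [eventually_ge_atTop N] with M hM
  exact (h M hM).symm

theorem fd_rows_zero {N : ℕ} {K : Mat} (hK : ∀ i j, N ≤ i → K i j = 0) :
    fd K = (1 + trn K N).det :=
  p8_const fun _ hM => det_rows_zero hM hK

theorem fd_cols_zero {N : ℕ} {K : Mat} (hK : ∀ i j, N ≤ j → K i j = 0) :
    fd K = (1 + trn K N).det :=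
  p8_const fun _ hM => det_cols_zero hM hK

theorem fd_zero : fd 0 = 1 := by
  rw [fd_rows_zero (N := 0) (K := 0) fun i j _ => rfl]
  exact Matrix.det_isEmpty

/-- continuity -/
theorem tendsto_fd {K : Mat} (h : Sm K) {A : ℕ → Mat} (hA : ∀ n, Sm (A n))
    (ht : Tendsto (fun n => nm (K - A n)) atTop (𝓝 0)) :
    Tendsto (fun n => fd (A n)) atTop (𝓝 (fd K)) := by
  rw [tendsto_iff_norm_sub_tendsto_zero]
  have h1 : Tendsto (fun n => nm (K - A n) * Real.exp (nm K + (nm K + nm (K - A n)))) atTop
      (𝓝 0) := by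
    have h2 : Tendsto (fun n => Real.exp (nm K + (nm K + nm (K - A n)))) atTop
        (𝓝 (Real.exp (nm K + (nm K + 0)))) :=
      (Real.continuous_exp.tendsto _).comp (tendsto_const_nhds.add (tendsto_const_nhds.add ht))
    have h3 := ht.mul h2
    rwa [zero_mul] at h3
  refine squeeze_zero (fun n => norm_nonneg _) (fun n => ?_) h1
  rw [norm_sub_rev]
  refine (fd_lip h (hA n)).trans ?_
  refine mul_le_mul_of_nonneg_left (Real.exp_le_exp.2 (add_le_add le_rfl ?_)) (nm_nonneg _)
  have h4 : A n = K + -(K - A n) := by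
    rw [neg_sub, add_sub_cancel]
  calc nm (A n) = nm (K + -(K - A n)) := by rw [← h4]
    _ ≤ nm K + nm (-(K - A n)) := nm_add h (sm_neg (sm_sub h (hA n)))
    _ = nm K + nm (K - A n) := by rw [nm_neg]

end Pool.Agent.Helper11.LT
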