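import Pool.Agent.Helper11.LT.P8

/-!
PROJECT LT, piece P9. Multiplicativity and cyclicity. fd_mul: true for cut K N, cut K' N (everything supported in the block: fd_rows_zero, Matrix.det_mul), then tendsto_fd with nm estimates (sm_mul_left, sm_mul_right, nm_add). fd_comm: for cut A N: mmul (cut A N) B has rows zero from N on, mmul B (cut A N) has columns zero from N on, both determinants are finite: Matrix.det_one_add_mul_comm; then tendsto_fd.
-/

namespace Pool.Agent.Helper11.LT

open Finset Filter Topology Pool.Agent.Helper34.LT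

private theorem p9_trn_mul {N : ℕ} {A B : Mat} (hA : (∀ i k, N ≤ k → A i k = 0) ∨
    ∀ k j, N ≤ k → B k j = 0) : trn (mmul A B) N = trn A N * trn B N := by
  ext i j
  rw [Matrix.mul_apply]
  change ∑' k, A i k * B k j = ∑ k : Fin N, A i k * B k j
  rw [tsum_eq_sum (s := range N), Finset.sum_range]
  intro k hk
  rw [Finset.mem_range, not_lt] at hk
  rcases hA with h | h
  · rw [h i k hk, zero_mul]
  · rw [h k j hk, mul_zero]

private theorem p9_cut_row (K : Mat) {N : ℕ} (i j : ℕ) (h : N ≤ i) : cut K N i j = 0 := by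
  unfold cut
  rw [if_neg]
  omega

private theorem p9_cut_col (K : Mat) {N : ℕ} (i j : ℕ) (h : N ≤ j) : cut K N i j = 0 := by
  unfold cut
  rw [if_neg]
  omega

private theorem p9_mul_row {A : Mat} (B : Mat) {N : ℕ} (hA : ∀ i j, N ≤ i → A i j = 0)
    (i j : ℕ) (h : N ≤ i) : mmul A B i j = 0 := by
  change ∑' k, A i k * B k j = 0
  rw [tsum_congr fun k => by rw [hA i k h, zero_mul], tsum_zero]

private theorem p9_mul_col (A : Mat) {B : Mat} {N : ℕ} (hB : ∀ i j, N ≤ j → B i j = 0)
    (i j : ℕ) (h : N ≤ j) : mmul A B i j = 0 := by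
  change ∑' k, A i k * B k j = 0
  rw [tsum_congr fun k => by rw [hB k j h, mul_zero], tsum_zero]

private theorem p9_trn_add (A B : Mat) (N : ℕ) : trn (A + B) N = trn A N + trn B N := by
  ext i j
  rfl

/-- multiplicativity (for `cut K N`, `cut K' N` it is `Matrix.det_mul`; then `tendsto_fd`) -/
theorem fd_mul {K K' : Mat} (h : Sm K) (h' : Sm K') :
    fd (K + K' + mmul K K') = fd K * fd K' := by
  have hfin : ∀ n, fd (cut K n + cut K' n + mmul (cut K n) (cut K' n)) =
      fd (cut K n) * fd (cut K' n) := by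
    intro n
    rw [fd_rows_zero (N := n) (K := cut K n) (fun i j h => p9_cut_row K i j h),
      fd_rows_zero (N := n) (K := cut K' n) (fun i j h => p9_cut_row K' i j h),
      fd_rows_zero (N := n) (K := cut K n + cut K' n + mmul (cut K n) (cut K' n)),
      ← Matrix.det_mul, p9_trn_add, p9_trn_add,
      p9_trn_mul (Or.inl fun i k h => p9_cut_col K i k h)]
    · congr 1
      noncomm_ring
    · intro i j h
      change cut K n i j + cut K' n i j + mmul (cut K n) (cut K' n) i j = 0
      rw [p9_cut_row K i j h, p9_cut_row K' i j h,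
        p9_mul_row _ (fun i j h => p9_cut_row K i j h) i j h, add_zero, add_zero]
  have h1 := tendsto_fd h (fun n => sm_cut K n) (tendsto_cut h)
  have h2 := tendsto_fd h' (fun n => sm_cut K' n) (tendsto_cut h')
  have hs : ∀ n, Sm (cut K n + cut K' n + mmul (cut K n) (cut K' n)) := fun n =>
    sm_add (sm_add (sm_cut K n) (sm_cut K' n)) (sm_mulL (sm_bd (sm_cut K n)) (sm_cut K' n))
  have hS : Sm (K + K' + mmul K K') := sm_add (sm_add h h') (sm_mulL (sm_bd h) h')
  have h3 : Tendsto (fun n => nm (K + K' + mmul K K' -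
      (cut K n + cut K' n + mmul (cut K n) (cut K' n)))) atTop (𝓝 0) := by
    have hb : ∀ n, nm (K + K' + mmul K K' - (cut K n + cut K' n + mmul (cut K n) (cut K' n))) ≤
        nm (K - cut K n) + nm (K' - cut K' n) +
          (nm (K - cut K n) * nm K' + nm K * nm (K' - cut K' n)) := by
      intro n
      have e1 : K + K' + mmul K K' - (cut K n + cut K' n + mmul (cut K n) (cut K' n)) =
          (K - cut K n) + (K' - cut K' n) +
            (mmul (K - cut K n) K' + mmul (cut K n) (K' - cut K' n)) := by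
        rw [sub_mmul (sm_bd h) (sm_bd (sm_cut K n)) (sm_bd h'),
          mmul_sub (sm_bd (sm_cut K n)) (sm_bd h') (sm_bd (sm_cut K' n))]
        abel
      have s1 : Sm (K - cut K n) := sm_sub h (sm_cut K n)
      have s2 : Sm (K' - cut K' n) := sm_sub h' (sm_cut K' n)
      obtain ⟨s3, n3⟩ := sm_mul_right (sm_bdC h') s1
      obtain ⟨s4, n4⟩ := sm_mul_left (sm_bdC (sm_cut K n)) s2
      rw [e1]
      refine (nm_add (sm_add s1 s2) (sm_add s3 s4)).trans ?_
      refine add_le_add (nm_add s1 s2) ((nm_add s3 s4).trans (add_le_add n3 (n4.trans ?_)))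
      exact mul_le_mul_of_nonneg_right (nm_cut_le h n) (nm_nonneg _)
    have hz : Tendsto (fun n => nm (K - cut K n) + nm (K' - cut K' n) +
          (nm (K - cut K n) * nm K' + nm K * nm (K' - cut K' n))) atTop (𝓝 0) := by
      have a1 := tendsto_cut h
      have a2 := tendsto_cut h'
      have a3 := (a1.add a2).add ((a1.mul_const (nm K')).add (a2.const_mul (nm K)))
      simpa using a3
    exact squeeze_zero (fun n => nm_nonneg _) hb hz
  have h4 := tendsto_fd hS hs h3
  simp only [hfin] at h4
  exact tendsto_nhds_unique h4 (h1.mul h2)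

/-- `det (1 + A B) = det (1 + B A)` (for `cut A N`: `Matrix.det_one_add_mul_comm`) -/
theorem fd_comm {A B : Mat} (hA : Sm A) (hB : Bd B) : fd (mmul A B) = fd (mmul B A) := by
  obtain ⟨C, hC⟩ := hB
  have hfin : ∀ n, fd (mmul (cut A n) B) = fd (mmul B (cut A n)) := by
    intro n
    rw [fd_rows_zero (N := n) (p9_mul_row B fun i j h => p9_cut_row A i j h),
      fd_cols_zero (N := n) (p9_mul_col B fun i j h => p9_cut_col A i j h),
      p9_trn_mul (Or.inl fun i k h => p9_cut_col A i k h),
      p9_trn_mul (Or.inr fun k j h => p9_cut_row A k j h)]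
    exact Matrix.det_one_add_mul_comm _ _
  have hcut := tendsto_cut hA
  have h1 : Tendsto (fun n => nm (mmul A B - mmul (cut A n) B)) atTop (𝓝 0) := by
    refine squeeze_zero (fun n => nm_nonneg _) (fun n => ?_)
      (by simpa using hcut.mul_const C : Tendsto (fun n => nm (A - cut A n) * C) atTop (𝓝 0))
    rw [← sub_mmul (sm_bd hA) (sm_bd (sm_cut A n)) ⟨C, hC⟩]
    exact (sm_mul_right hC (sm_sub hA (sm_cut A n))).2
  have h2 : Tendsto (fun n => nm (mmul B A - mmul B (cut A n))) atTop (𝓝 0) := by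
    refine squeeze_zero (fun n => nm_nonneg _) (fun n => ?_)
      (by simpa using hcut.const_mul C : Tendsto (fun n => C * nm (A - cut A n)) atTop (𝓝 0))
    rw [← mmul_sub ⟨C, hC⟩ (sm_bd hA) (sm_bd (sm_cut A n))]
    exact (sm_mul_left hC (sm_sub hA (sm_cut A n))).2
  have h3 := tendsto_fd (sm_mulR hA ⟨C, hC⟩) (fun n => sm_mulR (sm_cut A n) ⟨C, hC⟩) h1
  have h4 := tendsto_fd (sm_mulL ⟨C, hC⟩ hA) (fun n => sm_mulL ⟨C, hC⟩ (sm_cut A n)) h2
  simp only [hfin] at h3
  exact tendsto_nhds_unique h3 h4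

theorem fd_conj {G G' K : Mat} (hG : Bd G) (hG' : Bd G') (h : mmul G' G = mone) (hK : Sm K) :
    fd (mmul (mmul G K) G') = fd K := by
  rw [fd_comm (sm_mulL hG hK) hG', ← mmul_assoc hG' hG (sm_bd hK), h, mone_mmul]

end Pool.Agent.Helper11.LT
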