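import Pool.Agent.Helper34.LT.Fd

/-!
PROJECT LT, piece T4. The functions ww, ex on the circle |s| = 1/2. bt is in [0,1) (al = (..)%q/q), |i - beta| <= i+1. nn_le: Nat.nth, sg holds for all n >= 2q.
-/

namespace Pool.Agent.Helper11.LT

open Finset Filter Topology Pool.Agent.Helper34.LT

private theorem T4_sg {q a b n : ℕ} (hq : 1 ≤ q) (hn : 2 * q ≤ n) : sg q a b n := by
  unfold sg Nk
  have h1 := Nat.mod_lt (cls q a b n * a) (show 0 < q by omega)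
  have h2 := Nat.mod_lt (cls q a b n * b) (show 0 < q by omega)
  omega

/-- all `n ≥ 2 q` are in the semigroup (`Nk < 2 q`), so `n_k ≤ 2 q + k` -/
theorem nn_le {q a b : ℕ} (hq : 1 ≤ q) (k : ℕ) : nn q a b k ≤ 2 * q + k := by
  classical
  have h1 : Nat.count (sg q a b) (2 * q + (k + 1)) =
      Nat.count (sg q a b) (2 * q) + Nat.count (fun j => sg q a b (2 * q + j)) (k + 1) :=
    Nat.count_add _ _ _
  have h2 : Nat.count (fun j => sg q a b (2 * q + j)) (k + 1) = k + 1 :=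
    Nat.count_iff_forall.2 fun j _ => T4_sg hq (by omega)
  have h3 : nn q a b k < 2 * q + (k + 1) := Nat.nth_lt_of_lt_count (by omega)
  omega

private theorem T4_bt {q a b n : ℕ} (hq : 1 ≤ q) : 0 ≤ bt q a b n ∧ bt q a b n ≤ 1 := by
  have hq' : (0 : ℝ) < q := by exact_mod_cast hq
  unfold bt al
  have h1 := Nat.mod_lt (cls q a b n * b) (show 0 < q by omega)
  have h2 : (((cls q a b n * b) % q : ℕ) : ℝ) ≤ q := by exact_mod_cast h1.le
  exact ⟨by positivity, (div_le_one hq').2 h2⟩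

theorem cc_norm_le {q a b n : ℕ} (hq : 1 ≤ q) (p : ℕ) : |cc (bt q a b n) p| ≤ 1 := by
  obtain ⟨h0, h1⟩ := T4_bt (a := a) (b := b) (n := n) hq
  unfold cc
  rw [Finset.abs_prod]
  refine Finset.prod_le_one (fun i _ => abs_nonneg _) fun i _ => ?_
  have hi : (0 : ℝ) ≤ i := Nat.cast_nonneg i
  rw [abs_div, abs_of_pos (show (0 : ℝ) < (i : ℝ) + 1 by linarith),
    div_le_one (by linarith), abs_le]
  constructor <;> linarith

private theorem T4_term {q a b : ℕ} (hq : 1 ≤ q) (n p : ℕ) {s : ℂ} (hs : ‖s‖ = 2⁻¹) :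
    ‖(cc (bt q a b n) p : ℂ) * s ^ ((q * p : ℤ) - n)‖ ≤ 2 ^ n * (2⁻¹ : ℝ) ^ p := by
  have hs0 : (0 : ℝ) < 2⁻¹ := by norm_num
  rw [norm_mul, Complex.norm_real, Real.norm_eq_abs, norm_zpow, hs]
  have h1 : (2⁻¹ : ℝ) ^ ((q * p : ℤ) - n) = 2 ^ n * (2⁻¹ : ℝ) ^ (q * p) := by
    rw [zpow_sub₀ hs0.ne', zpow_natCast, div_eq_mul_inv, mul_comm]
    congr 1
    rw [inv_pow, inv_inv]
  have h2 : (2⁻¹ : ℝ) ^ (q * p) ≤ (2⁻¹ : ℝ) ^ p :=
    pow_le_pow_of_le_one hs0.le (by norm_num) (Nat.le_mul_of_pos_left p hq)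
  have h3 := cc_norm_le (a := a) (b := b) (n := n) hq p
  calc |cc (bt q a b n) p| * (2⁻¹ : ℝ) ^ ((q * p : ℤ) - n)
      ≤ 1 * (2⁻¹ : ℝ) ^ ((q * p : ℤ) - n) :=
        mul_le_mul_of_nonneg_right h3 (zpow_pos hs0 _).le
    _ = 2 ^ n * (2⁻¹ : ℝ) ^ (q * p) := by rw [one_mul, h1]
    _ ≤ 2 ^ n * (2⁻¹ : ℝ) ^ p := mul_le_mul_of_nonneg_left h2 (by positivity)

private theorem T4_sum (n : ℕ) : HasSum (fun p : ℕ => 2 ^ n * (2⁻¹ : ℝ) ^ p) (2 ^ (n + 1)) := by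
  have h1 := (hasSum_geometric_of_lt_one (show (0 : ℝ) ≤ 2⁻¹ by norm_num)
    (show (2⁻¹ : ℝ) < 1 by norm_num)).mul_left ((2 : ℝ) ^ n)
  have h2 : (2 : ℝ) ^ n * (1 - 2⁻¹)⁻¹ = 2 ^ (n + 1) := by
    rw [pow_succ]
    norm_num
  rwa [h2] at h1

/-- `‖ww‖ ≤ 2^(n+1)` on the circle, and the series converges absolutely -/
theorem ww_hasSum {q a b : ℕ} (hq : 1 ≤ q) (n : ℕ) {s : ℂ} (hs : ‖s‖ = 2⁻¹) :
    HasSum (fun p : ℕ => (cc (bt q a b n) p : ℂ) * s ^ ((q * p : ℤ) - n)) (ww q a b n s) ∧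
      ‖ww q a b n s‖ ≤ 2 ^ (n + 1) := by
  have h1 := T4_sum n
  have h2 : ∀ p : ℕ, ‖(cc (bt q a b n) p : ℂ) * s ^ ((q * p : ℤ) - n)‖ ≤
      2 ^ n * (2⁻¹ : ℝ) ^ p := fun p => T4_term hq n p hs
  refine ⟨(Summable.of_norm_bounded h1.summable h2).hasSum, ?_⟩
  exact tsum_of_norm_bounded h1 h2

private theorem T4_ne {s : ℂ} (hs : s ∈ Metric.sphere (0 : ℂ) 2⁻¹) : s ≠ 0 := by
  rintro rfl
  rw [mem_sphere_zero_iff_norm, norm_zero] at hs
  norm_num at hs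

theorem ww_cont {q a b : ℕ} (hq : 1 ≤ q) (n : ℕ) :
    ContinuousOn (ww q a b n) (Metric.sphere 0 2⁻¹) := by
  unfold ww
  refine continuousOn_tsum (u := fun p : ℕ => 2 ^ n * (2⁻¹ : ℝ) ^ p) (fun p => ?_)
    (T4_sum n).summable fun p s hs => T4_term hq n p (by rwa [mem_sphere_zero_iff_norm] at hs)
  exact continuousOn_const.mul
    (continuousOn_id.zpow₀ _ fun s hs => Or.inl (T4_ne hs))

theorem ex_cont {q a b : ℕ} (t : Phi q a b → ℂ) :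
    ContinuousOn (ex q a b t) (Metric.sphere 0 2⁻¹) := by
  unfold ex
  refine Complex.continuous_exp.comp_continuousOn (continuousOn_finsetSum _ fun u _ => ?_)
  exact continuousOn_const.mul
    (continuousOn_id.zpow₀ _ fun s hs => Or.inl (T4_ne hs))

end Pool.Agent.Helper11.LT
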