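import Pool.Agent.Helper11.LT.T4
import Pool.Agent.Helper11.LT.Hl2

/-!
PROJECT LT, piece T5. Coefficients as circle integrals.
-/

namespace Pool.Agent.Helper11.LT

open Finset Filter Topology Pool.Agent.Helper34.LT

/-- the coefficient of `s^{-m}` in `e^{xi(t)} w_n` -/
noncomputable def cf (q a b : ℕ) (t : Phi q a b → ℂ) (m n : ℕ) : ℂ :=
  ∑' p : ℕ, if n ≤ m + q * p then
    (cc (bt q a b n) p : ℂ) * hl q a b t (m + q * p - n) else 0

/-- termwise integration over a circle -/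
theorem circle_hasSum {ι : Type} [Countable ι] {F : ι → ℂ → ℂ} {G : ℂ → ℂ} {B : ι → ℝ} {R : ℝ}
    (hR : 0 ≤ R) (hB : Summable B) (hF : ∀ i, ContinuousOn (F i) (Metric.sphere 0 R))
    (hb : ∀ i, ∀ s ∈ Metric.sphere (0 : ℂ) R, ‖F i s‖ ≤ B i)
    (hs : ∀ s ∈ Metric.sphere (0 : ℂ) R, HasSum (fun i => F i s) (G s)) :
    HasSum (fun i => ∮ s in C(0, R), F i s) (∮ s in C(0, R), G s) := by
  have hm : ∀ θ : ℝ, circleMap 0 R θ ∈ Metric.sphere (0 : ℂ) R := fun θ =>
    circleMap_mem_sphere 0 hR θ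
  refine intervalIntegral.hasSum_integral_of_dominated_convergence
    (fun i _ => R * B i) (fun i => ?_) (fun i => ?_) ?_ ?_ ?_
  · have h1 : Continuous fun θ : ℝ => deriv (circleMap 0 R) θ • F i (circleMap 0 R θ) := by
      have h2 : Continuous fun θ : ℝ => F i (circleMap 0 R θ) :=
        (hF i).comp_continuous (continuous_circleMap 0 R) hm
      have h3 : Continuous fun θ : ℝ => deriv (circleMap 0 R) θ := by
        simp only [deriv_circleMap]
        fun_prop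
      exact h3.smul h2
    exact h1.aestronglyMeasurable
  · refine Eventually.of_forall fun θ _ => ?_
    rw [norm_smul, deriv_circleMap, norm_mul, Complex.norm_I, mul_one, norm_circleMap_zero,
      abs_of_nonneg hR]
    exact mul_le_mul_of_nonneg_left (hb i _ (hm θ)) hR
  · exact Eventually.of_forall fun θ _ => hB.mul_left R
  · exact intervalIntegrable_const
  · refine Eventually.of_forall fun θ _ => ?_
    exact (hs _ (hm θ)).const_smul _

theorem circle_zpow (e : ℤ) : (∮ s in C(0, (2 : ℝ)⁻¹), s ^ (e - 1)) =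
    if e = 0 then 2 * Real.pi * Complex.I else 0 := by
  split_ifs with h
  · subst h
    have h1 := circleIntegral.integral_sub_center_inv (0 : ℂ) (R := (2 : ℝ)⁻¹) (by norm_num)
    simp only [sub_zero] at h1
    rw [zero_sub]
    simp only [zpow_neg_one]
    exact h1
  · have h1 := circleIntegral.integral_sub_zpow_of_ne (n := e - 1)
      (by intro h2; apply h; omega) (0 : ℂ) 0 (2 : ℝ)⁻¹
    simp only [sub_zero] at h1
    exact h1

theorem ex_hasSum {q a b : ℕ} (t : Phi q a b → ℂ) (s : ℂ) :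
    HasSum (fun l : ℕ => hl q a b t l * s ^ (-(l : ℤ))) (ex q a b t s) := by
  have h1 := hl_hasSum t s⁻¹
  have h2 : ∀ k : ℕ, s⁻¹ ^ k = s ^ (-(k : ℤ)) := fun k => by
    rw [zpow_neg, zpow_natCast, inv_pow]
  simp only [h2] at h1
  exact h1

/-- termwise integration -/
theorem cf_eq_integral {q a b : ℕ} (hq : 1 ≤ q) (t : Phi q a b → ℂ) (m n : ℕ) :
    cf q a b t m n = (2 * Real.pi * Complex.I)⁻¹ *
      ∮ s in C(0, 2⁻¹), s ^ ((m : ℤ) - 1) * (ex q a b t s * ww q a b n s) := by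
  have hpi : (2 * Real.pi * Complex.I : ℂ) ≠ 0 := Complex.two_pi_I_ne_zero
  have hs0 : ∀ s ∈ Metric.sphere (0 : ℂ) 2⁻¹, ‖s‖ = 2⁻¹ ∧ s ≠ 0 := by
    intro s hs
    have h1 : ‖s‖ = 2⁻¹ := by simpa using hs
    refine ⟨h1, fun h2 => ?_⟩
    rw [h2, norm_zero] at h1
    norm_num at h1
  have hz : ∀ s ∈ Metric.sphere (0 : ℂ) 2⁻¹, ∀ e : ℤ, ‖s ^ e‖ = (2 : ℝ) ^ (-e) := by
    intro s hs e
    rw [norm_zpow, (hs0 s hs).1, inv_zpow, zpow_neg]
  -- the double family
  let F : ℕ × ℕ → ℂ → ℂ := fun x s => s ^ ((m : ℤ) - 1) *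
    ((hl q a b t x.2 * s ^ (-(x.2 : ℤ))) * ((cc (bt q a b n) x.1 : ℂ) * s ^ ((q * x.1 : ℤ) - n)))
  let B : ℕ × ℕ → ℝ := fun x => (2 : ℝ) ^ (-((m : ℤ) - 1)) *
    ((2 : ℝ) ^ n * ((2 : ℝ)⁻¹ ^ x.1 * (‖hl q a b t x.2‖ * 2 ^ x.2)))
  have hB : Summable B := by
    refine Summable.mul_left _ (Summable.mul_left _ ?_)
    exact Summable.mul_of_nonneg (summable_geometric_of_lt_one (by norm_num) (by norm_num))
      (hl_summable t 2 (by norm_num)) (fun p => by positivity) (fun l => by positivity)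
  have hF : ∀ x, ContinuousOn (F x) (Metric.sphere 0 2⁻¹) := by
    intro x
    have hc : ∀ e : ℤ, ContinuousOn (fun s : ℂ => s ^ e) (Metric.sphere 0 2⁻¹) := fun e s hs =>
      (continuousAt_zpow₀ s e (Or.inl (hs0 s hs).2)).continuousWithinAt
    exact (hc _).mul ((continuousOn_const.mul (hc _)).mul (continuousOn_const.mul (hc _)))
  have hb : ∀ x, ∀ s ∈ Metric.sphere (0 : ℂ) 2⁻¹, ‖F x s‖ ≤ B x := by
    intro x s hs
    have h1 : ‖F x s‖ = (2 : ℝ) ^ (-((m : ℤ) - 1)) * ((‖hl q a b t x.2‖ * (2 : ℝ) ^ (x.2 : ℤ)) *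
        (|cc (bt q a b n) x.1| * (2 : ℝ) ^ (-((q * x.1 : ℤ) - n)))) := by
      simp only [F, norm_mul, hz s hs, Complex.norm_real, Real.norm_eq_abs, neg_neg]
    rw [h1]
    refine mul_le_mul_of_nonneg_left ?_ (by positivity)
    have h2 : |cc (bt q a b n) x.1| * (2 : ℝ) ^ (-((q * x.1 : ℤ) - n)) ≤
        (2 : ℝ) ^ n * (2 : ℝ)⁻¹ ^ x.1 := by
      have h3 : (2 : ℝ) ^ (-((q * x.1 : ℤ) - n)) ≤ (2 : ℝ) ^ n * (2 : ℝ)⁻¹ ^ x.1 := by
        have h4 : (2 : ℝ) ^ n * (2 : ℝ)⁻¹ ^ x.1 = (2 : ℝ) ^ ((n : ℤ) - x.1) := by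
          rw [zpow_sub₀ (by norm_num), zpow_natCast, zpow_natCast, inv_pow, div_eq_mul_inv]
        rw [h4]
        refine zpow_le_zpow_right₀ (by norm_num) ?_
        have h5 : (x.1 : ℤ) ≤ q * x.1 := by
          have h6 : (1 : ℤ) ≤ q := by exact_mod_cast hq
          nlinarith [Int.natCast_nonneg x.1]
        linarith
      calc _ ≤ 1 * ((2 : ℝ) ^ n * (2 : ℝ)⁻¹ ^ x.1) :=
            mul_le_mul (cc_norm_le hq x.1) h3 (by positivity) (by norm_num)
        _ = _ := one_mul _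
    calc ‖hl q a b t x.2‖ * (2 : ℝ) ^ (x.2 : ℤ) *
          (|cc (bt q a b n) x.1| * (2 : ℝ) ^ (-((q * x.1 : ℤ) - n)))
        ≤ ‖hl q a b t x.2‖ * (2 : ℝ) ^ (x.2 : ℤ) * ((2 : ℝ) ^ n * (2 : ℝ)⁻¹ ^ x.1) :=
          mul_le_mul_of_nonneg_left h2 (by positivity)
      _ = (2 : ℝ) ^ n * ((2 : ℝ)⁻¹ ^ x.1 * (‖hl q a b t x.2‖ * 2 ^ x.2)) := by
          rw [zpow_natCast]
          ring
  have hsum : ∀ s ∈ Metric.sphere (0 : ℂ) 2⁻¹, HasSum (fun x => F x s)
      (s ^ ((m : ℤ) - 1) * (ex q a b t s * ww q a b n s)) := by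
    intro s hs
    refine HasSum.mul_left _ ?_
    have h1 := ex_hasSum t s
    have h2 := (ww_hasSum hq n (hs0 s hs).1 (a := a) (b := b)).1
    have h3 : Summable fun x : ℕ × ℕ => ((cc (bt q a b n) x.1 : ℂ) * s ^ ((q * x.1 : ℤ) - n)) *
        (hl q a b t x.2 * s ^ (-(x.2 : ℤ))) := by
      have h4 : Summable fun x => F x s := Summable.of_norm_bounded hB (hb · s hs)
      have h5 := h4.mul_left (s ^ ((m : ℤ) - 1))⁻¹
      refine h5.congr fun x => ?_
      simp only [F]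
      rw [← mul_assoc, inv_mul_cancel₀ (zpow_ne_zero _ (hs0 s hs).2), one_mul, mul_comm]
    have h6 := h2.mul h1 h3
    rw [mul_comm (ex q a b t s)]
    have h8 : (fun x : ℕ × ℕ => (hl q a b t x.2 * s ^ (-(x.2 : ℤ))) *
        ((cc (bt q a b n) x.1 : ℂ) * s ^ ((q * x.1 : ℤ) - n))) =
        fun x : ℕ × ℕ => ((cc (bt q a b n) x.1 : ℂ) * s ^ ((q * x.1 : ℤ) - n)) *
        (hl q a b t x.2 * s ^ (-(x.2 : ℤ))) := funext fun x => mul_comm _ _
    rw [h8]
    exact h6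
  have hI := circle_hasSum (by norm_num) hB hF hb hsum
  have hI2 : ∀ x : ℕ × ℕ, (∮ s in C(0, (2 : ℝ)⁻¹), F x s) =
      2 * Real.pi * Complex.I * (if x.2 + n = m + q * x.1 then
        (cc (bt q a b n) x.1 : ℂ) * hl q a b t x.2 else 0) := by
    intro x
    have h1 : (∮ s in C(0, (2 : ℝ)⁻¹), F x s) = ∮ s in C(0, (2 : ℝ)⁻¹),
        ((cc (bt q a b n) x.1 : ℂ) * hl q a b t x.2) *
          s ^ (((m : ℤ) - x.2 + (q * x.1 - n)) - 1) := by
      refine circleIntegral.integral_congr (by norm_num) fun s hs => ?_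
      have h2 : s ^ (((m : ℤ) - x.2 + (q * x.1 - n)) - 1) =
          s ^ ((m : ℤ) - 1) * (s ^ (-(x.2 : ℤ)) * s ^ ((q * x.1 : ℤ) - n)) := by
        rw [← zpow_add₀ (hs0 s hs).2, ← zpow_add₀ (hs0 s hs).2]
        congr 1
        ring
      rw [h2]
      simp only [F]
      ring
    rw [h1, circleIntegral.integral_const_mul, circle_zpow]
    by_cases h : x.2 + n = m + q * x.1
    · rw [if_pos h, if_pos (by
        have h3 : ((x.2 + n : ℕ) : ℤ) = ((m + q * x.1 : ℕ) : ℤ) := by rw [h]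
        push_cast at h3
        linarith)]
      ring
    · rw [if_neg h, if_neg (by
        intro h3
        apply h
        have h4 : ((x.2 + n : ℕ) : ℤ) = ((m + q * x.1 : ℕ) : ℤ) := by
          push_cast
          linarith
        exact_mod_cast h4)]
      ring
  simp only [hI2] at hI
  have h7 := hI.mul_left (2 * Real.pi * Complex.I : ℂ)⁻¹
  have h10 : ∀ z : ℂ, (2 * Real.pi * Complex.I : ℂ)⁻¹ * (2 * Real.pi * Complex.I * z) = z :=
    fun z => inv_mul_cancel_left₀ hpi z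
  simp only [h10] at h7
  have h8 := h7.prod_fiberwise (g := fun p => if n ≤ m + q * p then
    (cc (bt q a b n) p : ℂ) * hl q a b t (m + q * p - n) else 0) (fun p => by
      by_cases hp : n ≤ m + q * p
      · rw [if_pos hp]
        have h9 := hasSum_single (f := fun l => if l + n = m + q * p then
          (cc (bt q a b n) p : ℂ) * hl q a b t l else 0) (m + q * p - n) (fun l hl => by
            rw [if_neg]
            intro h10
            apply hl
            omega)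
        rw [if_pos (by omega)] at h9
        exact h9
      · rw [if_neg hp]
        have h9 : (fun l => if l + n = m + q * p then
          (cc (bt q a b n) p : ℂ) * hl q a b t l else 0) = fun _ => 0 := by
          funext l
          rw [if_neg (by omega)]
        simp only [h9]
        exact hasSum_zero)
  exact h8.tsum_eq

theorem cf_norm_le {q a b : ℕ} (hq : 1 ≤ q) (t : Phi q a b → ℂ) :
    ∃ C : ℝ, ∀ m n, ‖cf q a b t m n‖ ≤ C * (2 : ℝ)⁻¹ ^ m * 2 ^ n := by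
  obtain ⟨C, hC⟩ := (isCompact_sphere (0 : ℂ) 2⁻¹).exists_bound_of_continuousOn (ex_cont t)
  refine ⟨2 * C, fun m n => ?_⟩
  rw [cf_eq_integral hq]
  have hs0 : ∀ s ∈ Metric.sphere (0 : ℂ) 2⁻¹, ‖s‖ = 2⁻¹ := by
    intro s hs
    simpa using hs
  have h1 : ∀ s ∈ Metric.sphere (0 : ℂ) 2⁻¹,
      ‖s ^ ((m : ℤ) - 1) * (ex q a b t s * ww q a b n s)‖ ≤
        (2 : ℝ)⁻¹ ^ ((m : ℤ) - 1) * (C * 2 ^ (n + 1)) := by
    intro s hs
    rw [norm_mul, norm_mul, norm_zpow, hs0 s hs]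
    refine mul_le_mul_of_nonneg_left ?_ (by positivity)
    exact mul_le_mul (hC s hs) (ww_hasSum hq n (hs0 s hs)).2 (norm_nonneg _)
      ((norm_nonneg _).trans (hC s hs))
  have h2 := circleIntegral.norm_two_pi_i_inv_smul_integral_le_of_norm_le_const
    (c := (0 : ℂ)) (R := (2 : ℝ)⁻¹) (by norm_num) h1
  rw [smul_eq_mul] at h2
  refine h2.trans (le_of_eq ?_)
  rw [zpow_sub₀ (by norm_num), zpow_natCast, zpow_one, pow_succ]
  field_simp

end Pool.Agent.Helper11.LT
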