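import Pool.Agent.Helper11.LT.T5

/-!
PROJECT LT, piece T6. The shift formula for the coefficients.
-/

namespace Pool.Agent.Helper11.LT

open Finset Filter Topology Pool.Agent.Helper34.LT

theorem ex_add {q a b : ℕ} (t v : Phi q a b → ℂ) (s : ℂ) :
    ex q a b (t + v) s = ex q a b t s * ex q a b v s := by
  unfold ex
  rw [← Complex.exp_add, ← Finset.sum_add_distrib]
  congr 1
  refine Finset.sum_congr rfl fun u _ => ?_
  rw [Pi.add_apply, add_mul]

/-- the shift formula, unweighted; both sums converge absolutely -/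
theorem cf_shift {q a b : ℕ} (hq : 1 ≤ q) (t v : Phi q a b → ℂ) {f fp : ℕ → ℂ} {Ph : Mat}
    (hP : Per q a b v f fp Ph) (m j : ℕ) :
    cf q a b (t + v) m (nn q a b j) =
      ∑' k, (∑' r, f r * cf q a b t (m + r) (nn q a b k)) * Ph k j := by
  have hpi : (2 * Real.pi * Complex.I : ℂ) ≠ 0 := Complex.two_pi_I_ne_zero
  have hs0 : ∀ s ∈ Metric.sphere (0 : ℂ) 2⁻¹, ‖s‖ = 2⁻¹ ∧ s ≠ 0 := by
    intro s hs
    have h1 : ‖s‖ = 2⁻¹ := by simpa using hs
    refine ⟨h1, fun h2 => ?_⟩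
    rw [h2, norm_zero] at h1
    norm_num at h1
  obtain ⟨C, hC⟩ := (isCompact_sphere (0 : ℂ) 2⁻¹).exists_bound_of_continuousOn (ex_cont t)
  have hC0 : 0 ≤ C := by
    have h1 : ((2 : ℝ)⁻¹ : ℂ) ∈ Metric.sphere (0 : ℂ) 2⁻¹ := by
      simp
    exact (norm_nonneg _).trans (hC _ h1)
  have hPh : Summable fun k => ‖Ph k j‖ * 2 ^ (nn q a b k + 1) := by
    refine Summable.of_nonneg_of_le (fun k => by positivity) (fun k => ?_)
      ((hP.sPh j).mul_left (2 ^ (2 * q + 1)))
    have h1 : (2 : ℝ) ^ (nn q a b k + 1) ≤ 2 ^ (2 * q + 1) * 2 ^ k := by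
      rw [← pow_add]
      refine pow_le_pow_right₀ (by norm_num) ?_
      have := nn_le (a := a) (b := b) hq k
      omega
    calc ‖Ph k j‖ * 2 ^ (nn q a b k + 1) ≤ ‖Ph k j‖ * (2 ^ (2 * q + 1) * 2 ^ k) :=
          mul_le_mul_of_nonneg_left h1 (norm_nonneg _)
      _ = _ := by ring
  let F : ℕ × ℕ → ℂ → ℂ := fun x s => s ^ ((m : ℤ) - 1) * (ex q a b t s *
    ((f x.2 * s ^ x.2) * (Ph x.1 j * ww q a b (nn q a b x.1) s)))
  let B : ℕ × ℕ → ℝ := fun x => (2 : ℝ)⁻¹ ^ ((m : ℤ) - 1) * (C *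
    ((‖Ph x.1 j‖ * 2 ^ (nn q a b x.1 + 1)) * (‖f x.2‖ * (2 : ℝ)⁻¹ ^ x.2)))
  have hB : Summable B := by
    refine Summable.mul_left _ (Summable.mul_left _ ?_)
    exact Summable.mul_of_nonneg hPh hP.sf (fun p => by positivity) (fun l => by positivity)
  have hF : ∀ x, ContinuousOn (F x) (Metric.sphere 0 2⁻¹) := by
    intro x
    have hc : ∀ e : ℤ, ContinuousOn (fun s : ℂ => s ^ e) (Metric.sphere 0 2⁻¹) := fun e s hs =>
      (continuousAt_zpow₀ s e (Or.inl (hs0 s hs).2)).continuousWithinAt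
    exact (hc _).mul ((ex_cont t).mul ((continuousOn_const.mul (continuous_pow x.2).continuousOn).mul
      (continuousOn_const.mul (ww_cont hq _))))
  have hb : ∀ x, ∀ s ∈ Metric.sphere (0 : ℂ) 2⁻¹, ‖F x s‖ ≤ B x := by
    intro x s hs
    have h1 : ‖F x s‖ = (2 : ℝ)⁻¹ ^ ((m : ℤ) - 1) * (‖ex q a b t s‖ *
        ((‖f x.2‖ * (2 : ℝ)⁻¹ ^ x.2) * (‖Ph x.1 j‖ * ‖ww q a b (nn q a b x.1) s‖))) := by
      simp only [F, norm_mul, norm_zpow, norm_pow, (hs0 s hs).1]
    rw [h1]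
    refine mul_le_mul_of_nonneg_left ?_ (by positivity)
    refine mul_le_mul (hC s hs) ?_ (by positivity) hC0
    have h2 := (ww_hasSum hq (nn q a b x.1) (hs0 s hs).1 (a := a) (b := b)).2
    calc ‖f x.2‖ * (2 : ℝ)⁻¹ ^ x.2 * (‖Ph x.1 j‖ * ‖ww q a b (nn q a b x.1) s‖)
        ≤ ‖f x.2‖ * (2 : ℝ)⁻¹ ^ x.2 * (‖Ph x.1 j‖ * 2 ^ (nn q a b x.1 + 1)) := by
          refine mul_le_mul_of_nonneg_left ?_ (by positivity)
          exact mul_le_mul_of_nonneg_left h2 (norm_nonneg _)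
      _ = _ := by ring
  have hsum : ∀ s ∈ Metric.sphere (0 : ℂ) 2⁻¹, HasSum (fun x => F x s)
      (s ^ ((m : ℤ) - 1) * (ex q a b (t + v) s * ww q a b (nn q a b j) s)) := by
    intro s hs
    refine HasSum.mul_left _ ?_
    have e1 : ex q a b (t + v) s * ww q a b (nn q a b j) s = ex q a b t s *
        ((∑' i, Ph i j * ww q a b (nn q a b i) s) * (∑' k, f k * s ^ k)) := by
      rw [ex_add, ← hP.eqn s (hs0 s hs).1 j]
      have h1 := hP.inv s (hs0 s hs).1.le
      calc ex q a b t s * ex q a b v s * ww q a b (nn q a b j) s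
          = ex q a b t s * ex q a b v s * ww q a b (nn q a b j) s *
            ((∑' k, f k * s ^ k) * (∑' k, fp k * s ^ k)) := by rw [h1, mul_one]
        _ = _ := by ring
    rw [e1]
    refine HasSum.mul_left _ ?_
    have h1 : Summable fun r => f r * s ^ r := by
      refine Summable.of_norm ?_
      refine hP.sf.congr fun r => ?_
      rw [norm_mul, norm_pow, (hs0 s hs).1]
    have h2 : Summable fun i => Ph i j * ww q a b (nn q a b i) s := by
      refine Summable.of_norm_bounded hPh fun i => ?_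
      rw [norm_mul]
      exact mul_le_mul_of_nonneg_left
        (ww_hasSum hq (nn q a b i) (hs0 s hs).1 (a := a) (b := b)).2 (norm_nonneg _)
    have h3 : Summable fun x : ℕ × ℕ => (Ph x.1 j * ww q a b (nn q a b x.1) s) *
        (f x.2 * s ^ x.2) := by
      refine Summable.of_norm_bounded
        (Summable.mul_of_nonneg hPh hP.sf (fun p => by positivity) (fun l => by positivity))
        fun x => ?_
      rw [norm_mul, norm_mul, norm_mul, norm_pow, (hs0 s hs).1]
      refine mul_le_mul_of_nonneg_right ?_ (by positivity)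
      exact mul_le_mul_of_nonneg_left
        (ww_hasSum hq (nn q a b x.1) (hs0 s hs).1 (a := a) (b := b)).2 (norm_nonneg _)
    have h4 := h2.hasSum.mul h1.hasSum h3
    have h8 : (fun x : ℕ × ℕ => (f x.2 * s ^ x.2) * (Ph x.1 j * ww q a b (nn q a b x.1) s)) =
        fun x : ℕ × ℕ => (Ph x.1 j * ww q a b (nn q a b x.1) s) * (f x.2 * s ^ x.2) :=
      funext fun x => mul_comm _ _
    rw [h8]
    exact h4
  have hI := circle_hasSum (by norm_num) hB hF hb hsum
  have hI2 : ∀ x : ℕ × ℕ, (∮ s in C(0, (2 : ℝ)⁻¹), F x s) =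
      2 * Real.pi * Complex.I * ((f x.2 * cf q a b t (m + x.2) (nn q a b x.1)) * Ph x.1 j) := by
    intro x
    have h1 : (∮ s in C(0, (2 : ℝ)⁻¹), F x s) = ∮ s in C(0, (2 : ℝ)⁻¹),
        (f x.2 * Ph x.1 j) *
          (s ^ (((m + x.2 : ℕ) : ℤ) - 1) * (ex q a b t s * ww q a b (nn q a b x.1) s)) := by
      refine circleIntegral.integral_congr (by norm_num) fun s hs => ?_
      have h2 : s ^ (((m + x.2 : ℕ) : ℤ) - 1) = s ^ ((m : ℤ) - 1) * s ^ x.2 := by
        rw [← zpow_natCast s x.2, ← zpow_add₀ (hs0 s hs).2]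
        congr 1
        push_cast
        ring
      rw [h2]
      simp only [F]
      ring
    rw [h1, circleIntegral.integral_const_mul, cf_eq_integral hq]
    field_simp
  simp only [hI2] at hI
  have h7 := hI.mul_left (2 * Real.pi * Complex.I : ℂ)⁻¹
  have h10 : ∀ z : ℂ, (2 * Real.pi * Complex.I : ℂ)⁻¹ * (2 * Real.pi * Complex.I * z) = z :=
    fun z => inv_mul_cancel_left₀ hpi z
  simp only [h10] at h7
  rw [← cf_eq_integral hq] at h7
  obtain ⟨D, hD⟩ := cf_norm_le (a := a) (b := b) hq t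
  have hs : ∀ k, Summable fun r => f r * cf q a b t (m + r) (nn q a b k) := by
    intro k
    refine Summable.of_norm_bounded (hP.sf.mul_left (D * (2 : ℝ)⁻¹ ^ m * 2 ^ nn q a b k))
      fun r => ?_
    rw [norm_mul]
    calc ‖f r‖ * ‖cf q a b t (m + r) (nn q a b k)‖
        ≤ ‖f r‖ * (D * (2 : ℝ)⁻¹ ^ (m + r) * 2 ^ nn q a b k) :=
          mul_le_mul_of_nonneg_left (hD _ _) (norm_nonneg _)
      _ = _ := by
          rw [pow_add]
          ring
  have h8 := h7.prod_fiberwise (g := fun k => (∑' r, f r * cf q a b t (m + r) (nn q a b k)) *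
    Ph k j) (fun k => (hs k).hasSum.mul_right (Ph k j))
  exact h8.tsum_eq.symm

end Pool.Agent.Helper11.LT
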